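import Pool.Agent.Run7.h318.Theta

/-!
# Limits of theta constants along nilpotent orbits
-/

set_option autoImplicit false
set_option linter.unusedSectionVars false
set_option linter.unusedSimpArgs false

open Complex Filter Topology

namespace Run7.h318

variable {g : ℕ} {E : Type} [Fintype E]

/-- the value on the edge `e` of the flow with coordinates `x` -/
def val (B : Fin g → E → ℤ) (x : Fin g → ℤ) (e : E) : ℤ := ∑ i, x i * B i e

/-- the matrix `∑ₑ sₑ vₑ vₑᵀ + A` with `vₑ = (B i e)ᵢ` -/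
noncomputable def nil (B : Fin g → E → ℤ) (s : E → ℂ) (A : Matrix (Fin g) (Fin g) ℂ) :
    Matrix (Fin g) (Fin g) ℂ :=
  Matrix.of fun i j => ∑ e, s e * (B i e : ℂ) * (B j e : ℂ) + A i j

theorem qf_nil (B : Fin g → E → ℤ) (s : E → ℂ) (A : Matrix (Fin g) (Fin g) ℂ) (x : Fin g → ℤ) :
    qf (nil B s A) x = ∑ e, s e * ((val B x e : ℤ) : ℂ) ^ 2 + qf A x := by
  unfold qf nil val
  simp only [Matrix.of_apply, mul_add, add_mul, Finset.sum_add_distrib]
  congr 1
  have h1 : ∀ e, s e * ((∑ i, x i * B i e : ℤ) : ℂ) ^ 2 =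
      ∑ i, ∑ j, (x i : ℂ) * (s e * (B i e : ℂ) * (B j e : ℂ)) * (x j : ℂ) := by
    intro e
    push_cast
    rw [sq, Finset.sum_mul_sum, Finset.mul_sum]
    refine Finset.sum_congr rfl fun i _ => ?_
    rw [Finset.mul_sum]
    refine Finset.sum_congr rfl fun j _ => ?_
    ring
  simp only [h1]
  symm
  rw [Finset.sum_comm]
  refine Finset.sum_congr rfl fun i _ => ?_
  rw [Finset.sum_comm]
  refine Finset.sum_congr rfl fun j _ => ?_
  rw [Finset.mul_sum, Finset.sum_mul]

/-- the contribution of an edge to the leading exponent -/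
def par (B : Fin g → E → ℤ) (a : Fin g → ℤ) (e : E) : ℕ := if val B a e % 2 = 1 then 1 else 0

theorem val_two_mul_add (B : Fin g → E → ℤ) (n a : Fin g → ℤ) (e : E) :
    val B (2 * n + a) e = 2 * val B n e + val B a e := by
  unfold val
  rw [Finset.mul_sum, ← Finset.sum_add_distrib]
  refine Finset.sum_congr rfl fun i _ => ?_
  simp [Pi.add_apply, Pi.mul_apply]
  ring

theorem par_le (B : Fin g → E → ℤ) (n a : Fin g → ℤ) (e : E) :
    (par B a e : ℤ) ≤ (val B (2 * n + a) e) ^ 2 := by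
  rw [val_two_mul_add]
  unfold par
  split_ifs with h
  · have : 2 * val B n e + val B a e ≠ 0 := by omega
    have h1 := Int.one_le_abs this
    have h2 := sq_abs (2 * val B n e + val B a e)
    push_cast
    nlinarith
  · push_cast
    positivity

theorem par_eq_iff (B : Fin g → E → ℤ) (n a : Fin g → ℤ) (e : E) :
    (val B (2 * n + a) e) ^ 2 = (par B a e : ℤ) ↔ |val B (2 * n + a) e| ≤ 1 := by
  rw [val_two_mul_add]
  set k := val B n e
  set r := val B a e with hr
  have hp : (par B a e : ℤ) = if r % 2 = 1 then 1 else 0 := by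
    unfold par; rw [← hr]; split_ifs <;> simp
  rw [hp]
  constructor
  · intro h
    rw [← sq_abs] at h
    have h0 := abs_nonneg (2 * k + r)
    split_ifs at h <;> nlinarith
  · intro h
    rw [abs_le] at h
    have h3 : 2 * k + r = -1 ∨ 2 * k + r = 0 ∨ 2 * k + r = 1 := by omega
    rcases h3 with h3 | h3 | h3
    · rw [h3, if_pos (by omega)]; norm_num
    · rw [h3, if_neg (by omega)]; norm_num
    · rw [h3, if_pos (by omega)]; norm_num

theorem par_lt (B : Fin g → E → ℤ) (n a : Fin g → ℤ) (e : E) (h : ¬ |val B (2 * n + a) e| ≤ 1) :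
    (par B a e : ℤ) < (val B (2 * n + a) e) ^ 2 :=
  lt_of_le_of_ne (par_le B n a e) fun hc => h ((par_eq_iff B n a e).1 hc.symm)

/-- the leading coefficient of the theta constant -/
noncomputable def lterm (B : Fin g → E → ℤ) (A : Matrix (Fin g) (Fin g) ℂ) (a b : Fin g → ℤ)
    (n : Fin g → ℤ) : ℂ :=
  open Classical in if ∀ e, |val B (2 * n + a) e| ≤ 1 then tterm a b A n else 0

noncomputable def lam (B : Fin g → E → ℤ) (A : Matrix (Fin g) (Fin g) ℂ) (a b : Fin g → ℤ) : ℂ :=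
  ∑' n : Fin g → ℤ, lterm B A a b n

theorem norm_unit (a b : Fin g → ℤ) (n : Fin g → ℤ) :
    ‖cexp (Real.pi * I / 2 * ∑ i, ((2 * n + a) i : ℂ) * (b i : ℂ))‖ = 1 := by
  rw [Complex.norm_exp]
  have : (∑ i, ((2 * n + a) i : ℂ) * (b i : ℂ)) = ((∑ i, (2 * n + a) i * b i : ℤ) : ℂ) := by
    push_cast; rfl
  rw [this, show (Real.pi * I / 2 * ((∑ i, (2 * n + a) i * b i : ℤ) : ℂ)).re = 0 by
    simp [Complex.mul_re, Complex.div_re]]
  exact Real.exp_zero

theorem norm_tterm (a b : Fin g → ℤ) (Z : Matrix (Fin g) (Fin g) ℂ) (n : Fin g → ℤ) :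
    ‖tterm a b Z n‖ = Real.exp (-(Real.pi / 4) * (qf Z (2 * n + a)).im) := by
  unfold tterm
  rw [Complex.exp_add, norm_mul, norm_unit, mul_one, Complex.norm_exp]
  congr 1
  have : (Real.pi * I / 4 * qf Z (2 * n + a)) = ((Real.pi / 4 : ℝ) : ℂ) * (I * qf Z (2 * n + a)) := by
    push_cast; ring
  rw [this, Complex.re_ofReal_mul, Complex.I_mul_re]
  ring

/-- exponential factor which normalises the theta constant -/
noncomputable def fac (B : Fin g → E → ℤ) (a : Fin g → ℤ) (s : E → ℂ) : ℂ :=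
  cexp (-(Real.pi * I / 4 * ∑ e, s e * (par B a e : ℂ)))

theorem tterm_mul_fac (B : Fin g → E → ℤ) (s : E → ℂ) (A : Matrix (Fin g) (Fin g) ℂ)
    (a b n : Fin g → ℤ) :
    tterm a b (nil B s A) n * fac B a s =
      tterm a b A n * cexp (Real.pi * I / 4 *
        ∑ e, s e * (((val B (2 * n + a) e) ^ 2 - (par B a e : ℤ) : ℤ) : ℂ)) := by
  unfold tterm fac
  rw [← Complex.exp_add, ← Complex.exp_add, qf_nil]
  congr 1
  push_cast
  simp only [mul_sub, Finset.sum_sub_distrib]
  ring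

theorem norm_efac (B : Fin g → E → ℤ) (s : E → ℂ) (a n : Fin g → ℤ) :
    ‖cexp (Real.pi * I / 4 *
        ∑ e, s e * (((val B (2 * n + a) e) ^ 2 - (par B a e : ℤ) : ℤ) : ℂ))‖ =
      Real.exp (-(Real.pi / 4) * ∑ e, (s e).im *
        (((val B (2 * n + a) e) ^ 2 - (par B a e : ℤ) : ℤ) : ℝ)) := by
  rw [Complex.norm_exp]
  congr 1
  have h1 : ∀ e, s e * (((val B (2 * n + a) e) ^ 2 - (par B a e : ℤ) : ℤ) : ℂ) =
      s e * (((((val B (2 * n + a) e) ^ 2 - (par B a e : ℤ) : ℤ) : ℝ)) : ℂ) := by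
    intro e; push_cast; rfl
  simp only [h1]
  have : (Real.pi * I / 4 * ∑ e, s e * (((((val B (2 * n + a) e) ^ 2 - (par B a e : ℤ) : ℤ) : ℝ)) : ℂ)) =
      ((Real.pi / 4 : ℝ) : ℂ) * (I * ∑ e, s e * (((((val B (2 * n + a) e) ^ 2 - (par B a e : ℤ) : ℤ) : ℝ)) : ℂ)) := by
    push_cast; ring
  rw [this, Complex.re_ofReal_mul, Complex.I_mul_re, Complex.im_sum]
  simp only [Complex.im_mul_ofReal]
  ring

theorem qf_im_le (A : Matrix (Fin g) (Fin g) ℂ) {C : ℝ} (hC : ∀ i j, ‖A i j‖ ≤ C) (x : Fin g → ℤ) :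
    |(qf A x).im| ≤ (g : ℝ) * C * ∑ i, ((x i : ℤ) : ℝ) ^ 2 := by
  have h1 : |(qf A x).im| ≤ ‖qf A x‖ := Complex.abs_im_le_norm _
  refine h1.trans ?_
  unfold qf
  refine (norm_sum_le _ _).trans ?_
  refine (Finset.sum_le_sum fun i _ => norm_sum_le _ _).trans ?_
  have h2 : ∀ i j, ‖(x i : ℂ) * A i j * (x j : ℂ)‖ ≤ C * (((x i : ℤ) : ℝ) ^ 2 / 2 + ((x j : ℤ) : ℝ) ^ 2 / 2) := by
    intro i j
    rw [norm_mul, norm_mul, Complex.norm_intCast, Complex.norm_intCast]
    have hC0 : 0 ≤ C := (norm_nonneg _).trans (hC i j)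
    have h3 : |(x i : ℝ)| * |(x j : ℝ)| ≤ (x i : ℝ) ^ 2 / 2 + (x j : ℝ) ^ 2 / 2 := by
      have := sq_nonneg (|(x i : ℝ)| - |(x j : ℝ)|)
      have e1 := sq_abs (x i : ℝ)
      have e2 := sq_abs (x j : ℝ)
      nlinarith
    calc |(x i : ℝ)| * ‖A i j‖ * |(x j : ℝ)| = ‖A i j‖ * (|(x i : ℝ)| * |(x j : ℝ)|) := by ring
      _ ≤ C * (|(x i : ℝ)| * |(x j : ℝ)|) := by
          apply mul_le_mul_of_nonneg_right (hC i j); positivity
      _ ≤ _ := mul_le_mul_of_nonneg_left h3 hC0
  refine (Finset.sum_le_sum fun i _ => Finset.sum_le_sum fun j _ => h2 i j).trans ?_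
  simp only [mul_add, Finset.sum_add_distrib, Finset.sum_const, Finset.card_univ, Fintype.card_fin,
    nsmul_eq_mul, ← Finset.mul_sum, ← Finset.sum_div]
  have : ∑ i : Fin g, (g : ℝ) * (C * ((x i : ℝ) ^ 2 / 2)) = (g : ℝ) * C * (∑ i, (x i : ℝ) ^ 2) / 2 := by
    rw [← Finset.mul_sum, ← Finset.mul_sum, ← Finset.sum_div]; ring
  ring_nf
  linarith

theorem th_limit {ι : Type*} {l : Filter ι} (B : Fin g → E → ℤ) {K : ℝ} (hK0 : 0 < K)
    (hK : ∀ x : Fin g → ℤ, ∑ i, ((x i : ℤ) : ℝ) ^ 2 ≤ K * ∑ e, ((val B x e : ℤ) : ℝ) ^ 2)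
    (s : ι → E → ℂ) (A' : ι → Matrix (Fin g) (Fin g) ℂ) (A : Matrix (Fin g) (Fin g) ℂ)
    (hs : ∀ e, Tendsto (fun k => (s k e).im) l atTop)
    (hA : ∀ i j, Tendsto (fun k => A' k i j) l (𝓝 (A i j))) (a b : Fin g → ℤ) :
    Tendsto (fun k => th a b (nil B (s k) (A' k)) * fac B a (s k)) l (𝓝 (lam B A a b)) := by
  classical
  -- constants
  obtain ⟨C, hC0, hC⟩ : ∃ C : ℝ, 0 ≤ C ∧ ∀ᶠ k in l, ∀ i j, ‖A' k i j‖ ≤ C := by
    refine ⟨∑ i, ∑ j, (‖A i j‖ + 1), by positivity, ?_⟩
    rw [Filter.eventually_all]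
    intro i
    rw [Filter.eventually_all]
    intro j
    have h1 : ∀ᶠ k in l, ‖A' k i j‖ < ‖A i j‖ + 1 :=
      ((hA i j).norm).eventually (gt_mem_nhds (lt_add_one _))
    filter_upwards [h1] with k hk
    refine hk.le.trans ?_
    refine le_trans ?_ (Finset.single_le_sum (f := fun i => ∑ j, (‖A i j‖ + 1))
      (fun i _ => by positivity) (Finset.mem_univ i))
    exact Finset.single_le_sum (f := fun j => (‖A i j‖ + 1)) (fun j _ => by positivity)
      (Finset.mem_univ j)
  set S : ℝ := K * (g * C + 1) with hS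
  have hS0 : 0 < S := by positivity
  have hsS : ∀ᶠ k in l, ∀ e, S ≤ (s k e).im := by
    rw [Filter.eventually_all]
    intro e
    exact (hs e).eventually_ge_atTop S
  have hmul : ∀ k, th a b (nil B (s k) (A' k)) * fac B a (s k) =
      ∑' n, tterm a b (nil B (s k) (A' k)) n * fac B a (s k) := by
    intro k
    rw [th, tsum_mul_right]
  simp only [hmul]
  refine tendsto_tsum_of_dominated_convergence
    (bound := fun n => Real.exp (Real.pi / 4 * (S * Fintype.card E)) *
      Real.exp (-(Real.pi / 4) * ∑ i, (((2 * n + a) i : ℤ) : ℝ) ^ 2))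
    ((summable_gauss a (by positivity)).mul_left _) ?_ ?_
  · intro n
    simp only [tterm_mul_fac]
    have hq : Tendsto (fun k => tterm a b (A' k) n) l (𝓝 (tterm a b A n)) := by
      unfold tterm qf
      apply Tendsto.cexp
      apply Tendsto.add_const
      apply Tendsto.const_mul
      refine tendsto_finsetSum _ fun i _ => tendsto_finsetSum _ fun j _ => ?_
      exact ((hA i j).const_mul _).mul_const _
    unfold lterm
    split_ifs with h
    · have h1 : ∀ k, (∑ e, s k e * (((val B (2 * n + a) e) ^ 2 - (par B a e : ℤ) : ℤ) : ℂ)) = 0 := by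
        intro k
        refine Finset.sum_eq_zero fun e _ => ?_
        rw [(par_eq_iff B n a e).2 (h e)]
        simp
      simp only [h1, mul_zero, Complex.exp_zero, mul_one]
      exact hq
    · push Not at h
      obtain ⟨e₀, he₀⟩ := h
      have h2 : Tendsto (fun k => cexp (Real.pi * I / 4 *
        ∑ e, s k e * (((val B (2 * n + a) e) ^ 2 - (par B a e : ℤ) : ℤ) : ℂ))) l (𝓝 0) := by
        rw [tendsto_zero_iff_norm_tendsto_zero]
        simp only [norm_efac]
        have h3 : Tendsto (fun k => -(Real.pi / 4) * (s k e₀).im) l atBot := by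
          apply Tendsto.const_mul_atTop_of_neg (by linarith [Real.pi_pos]) (hs e₀)
        have h4 := Real.tendsto_exp_atBot.comp h3
        refine squeeze_zero' (Eventually.of_forall fun _ => (Real.exp_pos _).le) ?_ h4
        filter_upwards [hsS] with k hk
        simp only [Function.comp]
        apply Real.exp_le_exp.2
        have h5 : (s k e₀).im ≤ ∑ e, (s k e).im *
            (((val B (2 * n + a) e) ^ 2 - (par B a e : ℤ) : ℤ) : ℝ) := by
          have h6 : (s k e₀).im ≤ (s k e₀).im *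
              (((val B (2 * n + a) e₀) ^ 2 - (par B a e₀ : ℤ) : ℤ) : ℝ) := by
            have h7 : (1 : ℝ) ≤ (((val B (2 * n + a) e₀) ^ 2 - (par B a e₀ : ℤ) : ℤ) : ℝ) := by
              have := par_lt B n a e₀ (not_le.2 he₀)
              exact_mod_cast Int.le_sub_left_of_add_le (by omega)
            have h8 : 0 < (s k e₀).im := hS0.trans_le (hk e₀)
            nlinarith
          refine h6.trans (Finset.single_le_sum (f := fun e => (s k e).im *
            (((val B (2 * n + a) e) ^ 2 - (par B a e : ℤ) : ℤ) : ℝ)) (fun e _ => ?_) (Finset.mem_univ e₀))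
          have h8 : 0 < (s k e).im := hS0.trans_le (hk e)
          have h9 : (0 : ℝ) ≤ (((val B (2 * n + a) e) ^ 2 - (par B a e : ℤ) : ℤ) : ℝ) := by
            exact_mod_cast sub_nonneg.2 (par_le B n a e)
          positivity
        nlinarith [Real.pi_pos]
      simpa using hq.mul h2
  · filter_upwards [hC, hsS] with k hk1 hk2 n
    rw [tterm_mul_fac, norm_mul, norm_tterm, norm_efac, ← Real.exp_add, ← Real.exp_add]
    apply Real.exp_le_exp.2
    have h1 := qf_im_le (A' k) hk1 (2 * n + a)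
    have h2 := hK (2 * n + a)
    have h3 : S * (∑ e, ((val B (2 * n + a) e : ℤ) : ℝ) ^ 2) - S * Fintype.card E ≤
        ∑ e, (s k e).im * (((val B (2 * n + a) e) ^ 2 - (par B a e : ℤ) : ℤ) : ℝ) := by
      rw [Finset.mul_sum, show S * (Fintype.card E : ℝ) = ∑ _e : E, S by
        rw [Finset.sum_const, Finset.card_univ, nsmul_eq_mul]; ring, ← Finset.sum_sub_distrib]
      refine Finset.sum_le_sum fun e _ => ?_
      have h9 : (0 : ℝ) ≤ (((val B (2 * n + a) e) ^ 2 - (par B a e : ℤ) : ℤ) : ℝ) := by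
        exact_mod_cast sub_nonneg.2 (par_le B n a e)
      have h10 : (par B a e : ℝ) ≤ 1 := by unfold par; split_ifs <;> simp
      have h11 := hk2 e
      push_cast at h9 ⊢
      nlinarith
    have h4 : (g * C + 1) * ∑ i, (((2 * n + a) i : ℤ) : ℝ) ^ 2 ≤
        S * (∑ e, ((val B (2 * n + a) e : ℤ) : ℝ) ^ 2) := by
      rw [hS]
      have : (0 : ℝ) ≤ g * C + 1 := by positivity
      nlinarith
    have h5 := abs_le.1 h1
    have hpi := Real.pi_pos
    have h6 : -((qf (A' k) (2 * n + a)).im) - ∑ e, (s k e).im * (((val B (2 * n + a) e) ^ 2 - (par B a e : ℤ) : ℤ) : ℝ)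
        ≤ S * Fintype.card E - ∑ i, (((2 * n + a) i : ℤ) : ℝ) ^ 2 := by
      linarith [h5.1]
    nlinarith

end Run7.h318
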