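import Pool.Agent.Run7.h318.Graph
import Pool.Agent.Run7.h318.Limit

/-!
# Leading coefficients of theta constants at graph curves
-/

set_option autoImplicit false
set_option linter.unusedSectionVars false
set_option linter.unusedSimpArgs false

open Complex Filter Topology

namespace Run7.h318

variable {g : ℕ}

/-- the bilinear form `x, y ↦ xᵀ A y` -/
noncomputable def bil (A : Matrix (Fin g) (Fin g) ℂ) (x y : Fin g → ℤ) : ℂ :=
  ∑ i, ∑ j, (x i : ℂ) * A i j * (y j : ℂ)

theorem bil_add_left (A : Matrix (Fin g) (Fin g) ℂ) (x x' y : Fin g → ℤ) :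
    bil A (x + x') y = bil A x y + bil A x' y := by
  unfold bil
  rw [← Finset.sum_add_distrib]
  refine Finset.sum_congr rfl fun i _ => ?_
  rw [← Finset.sum_add_distrib]
  refine Finset.sum_congr rfl fun j _ => ?_
  simp only [Pi.add_apply]
  push_cast; ring

theorem bil_add_right (A : Matrix (Fin g) (Fin g) ℂ) (x y y' : Fin g → ℤ) :
    bil A x (y + y') = bil A x y + bil A x y' := by
  unfold bil
  rw [← Finset.sum_add_distrib]
  refine Finset.sum_congr rfl fun i _ => ?_
  rw [← Finset.sum_add_distrib]
  refine Finset.sum_congr rfl fun j _ => ?_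
  simp only [Pi.add_apply]
  push_cast; ring

theorem bil_neg_left (A : Matrix (Fin g) (Fin g) ℂ) (x y : Fin g → ℤ) :
    bil A (-x) y = -bil A x y := by
  unfold bil
  rw [← Finset.sum_neg_distrib]
  refine Finset.sum_congr rfl fun i _ => ?_
  rw [← Finset.sum_neg_distrib]
  refine Finset.sum_congr rfl fun j _ => ?_
  simp only [Pi.neg_apply]
  push_cast; ring

theorem bil_neg_right (A : Matrix (Fin g) (Fin g) ℂ) (x y : Fin g → ℤ) :
    bil A x (-y) = -bil A x y := by
  unfold bil
  rw [← Finset.sum_neg_distrib]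
  refine Finset.sum_congr rfl fun i _ => ?_
  rw [← Finset.sum_neg_distrib]
  refine Finset.sum_congr rfl fun j _ => ?_
  simp only [Pi.neg_apply]
  push_cast; ring

theorem bil_comm {A : Matrix (Fin g) (Fin g) ℂ} (hA : A.transpose = A) (x y : Fin g → ℤ) :
    bil A x y = bil A y x := by
  unfold bil
  rw [Finset.sum_comm]
  refine Finset.sum_congr rfl fun i _ => ?_
  refine Finset.sum_congr rfl fun j _ => ?_
  have : A j i = A i j := by
    have := congrFun (congrFun hA i) j
    simpa [Matrix.transpose_apply] using this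
  rw [this]; ring

theorem qf_eq_bil (A : Matrix (Fin g) (Fin g) ℂ) (x : Fin g → ℤ) : qf A x = bil A x x := rfl

theorem val_add {E : Type} (B : Fin g → E → ℤ) (x y : Fin g → ℤ) (e : E) :
    val B (x + y) e = val B x e + val B y e := by
  unfold val
  rw [← Finset.sum_add_distrib]
  refine Finset.sum_congr rfl fun i _ => ?_
  simp only [Pi.add_apply]; ring

theorem val_neg {E : Type} (B : Fin g → E → ℤ) (x : Fin g → ℤ) (e : E) :
    val B (-x) e = -val B x e := by
  unfold val
  rw [← Finset.sum_neg_distrib]
  refine Finset.sum_congr rfl fun i _ => ?_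
  simp only [Pi.neg_apply]; ring

theorem val_sub {E : Type} (B : Fin g → E → ℤ) (x y : Fin g → ℤ) (e : E) :
    val B (x - y) e = val B x e - val B y e := by
  rw [sub_eq_add_neg, val_add, val_neg]; ring

/-- reduction modulo two -/
def red (x : Fin g → ℤ) : Fin g → ZMod 2 := fun i => (x i : ZMod 2)

theorem red_add (x y : Fin g → ℤ) : red (x + y) = red x + red y := by
  ext i; simp [red]

/-- the standard lift -/
def lift (a : Fin g → ZMod 2) : Fin g → ℤ := fun i => ((a i).val : ℤ)

theorem red_lift (a : Fin g → ZMod 2) : red (lift a) = a := by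
  ext i; simp [red, lift]

variable {V E : Type} [Fintype E] [DecidableEq V]

/-- the combinatorial data of a graph curve: a multigraph of valence at most three, a basis of its
lattice of flows, and a symmetric matrix with the integrality property -/
structure GData (src tgt : E → V) (B : Fin g → E → ℤ) (A : Matrix (Fin g) (Fin g) ℂ) : Prop where
  valence_le : ∀ x, valence src tgt x ≤ 3
  flow : ∀ i, IsFlow src tgt (B i)
  basis : ∀ z, IsFlow src tgt z → ∃! n : Fin g → ℤ, z = val B n
  symm : A.transpose = A
  int : ∀ x y : Fin g → ℤ, VertexDisjoint src tgt (val B x) (val B y) → ∃ k : ℤ, bil A x y = k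

namespace GData

variable {src tgt : E → V} {B : Fin g → E → ℤ} {A : Matrix (Fin g) (Fin g) ℂ}

theorem isFlow_val (h : GData src tgt B A) (x : Fin g → ℤ) : IsFlow src tgt (val B x) := by
  intro v
  unfold val
  rw [Finset.sum_comm, Finset.sum_comm (s := Finset.univ.filter fun e => tgt e = v)]
  refine Finset.sum_congr rfl fun i _ => ?_
  rw [← Finset.mul_sum, ← Finset.mul_sum, h.flow i v]

theorem exists_coord (h : GData src tgt B A) {z : E → ℤ} (hz : IsFlow src tgt z) :
    ∃ n : Fin g → ℤ, val B n = z := by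
  obtain ⟨n, hn, -⟩ := h.basis z hz
  exact ⟨n, hn.symm⟩

theorem val_inj (h : GData src tgt B A) {x y : Fin g → ℤ} (hxy : val B x = val B y) : x = y := by
  obtain ⟨n, hn, hu⟩ := h.basis _ (h.isFlow_val x)
  rw [hu x rfl, hu y hxy]

/-- if all values are even then the coordinates are even -/
theorem even_of_val (h : GData src tgt B A) {x : Fin g → ℤ} (hx : ∀ e, val B x e % 2 = 0) :
    ∃ y : Fin g → ℤ, x = 2 * y := by
  have h1 : IsFlow src tgt (fun e => val B x e / 2) := by
    intro v
    have h2 := h.isFlow_val x v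
    have h3 : ∀ e, val B x e = 2 * (val B x e / 2) := fun e => by have := hx e; omega
    rw [Finset.sum_congr rfl fun e _ => h3 e,
      Finset.sum_congr (s₁ := Finset.univ.filter fun e => tgt e = v) rfl fun e _ => h3 e,
      ← Finset.mul_sum, ← Finset.mul_sum] at h2
    show ∑ e with src e = v, (val B x e / 2) = ∑ e with tgt e = v, (val B x e / 2)
    omega
  obtain ⟨y, hy⟩ := h.exists_coord h1
  refine ⟨y, h.val_inj ?_⟩
  ext e
  have h2 : val B (2 * y) e = 2 * val B y e := by
    unfold val
    rw [Finset.mul_sum]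
    refine Finset.sum_congr rfl fun i _ => ?_
    simp [Pi.mul_apply]; ring
  rw [h2, hy]
  have := hx e
  show val B x e = 2 * (val B x e / 2)
  omega

theorem exists_base [DecidableEq E] (h : GData src tgt B A) (a : Fin g → ℤ) :
    ∃ m : Fin g → ℤ, ∀ e, |val B (2 * m + a) e| ≤ 1 := by
  obtain ⟨z, hz, hz1, hz2⟩ := exists_orient h.valence_le (val B a) (h.isFlow_val a)
  obtain ⟨n, hn⟩ := h.exists_coord hz
  obtain ⟨m, hm⟩ := h.even_of_val (x := n - a) (fun e => by
    rw [val_sub, hn]
    have := hz2 e
    omega)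
  refine ⟨m, fun e => ?_⟩
  rw [← hm, sub_add_cancel, hn]
  exact hz1 e

/-- the set of subflows of `x₀` -/
def D (B : Fin g → E → ℤ) (x₀ : Fin g → ℤ) : Set (Fin g → ℤ) :=
  {u | ∀ e, val B u e = 0 ∨ val B u e = val B x₀ e}

theorem int_of (h : GData src tgt B A) [DecidableEq E] {x₀ p q : Fin g → ℤ} (hp : p ∈ D B x₀)
    (hpq : ∀ e, val B q e ≠ 0 → val B x₀ e - val B p e ≠ 0) : ∃ k : ℤ, bil A p q = k := by
  refine h.int p q ?_
  have := key_disj h.valence_le (h.isFlow_val x₀) (h.isFlow_val p) hp
  intro e e' he he'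
  exact this e e' he (hpq e' he')

/-- the symmetric difference of two subflows -/
theorem exists_symmDiff (h : GData src tgt B A) [DecidableEq E] {x₀ u u' : Fin g → ℤ}
    (hu : u ∈ D B x₀) (hu' : u' ∈ D B x₀) {k k' : ℤ} (hk : bil A u (x₀ - u) = k)
    (hk' : bil A u' (x₀ - u') = k') :
    ∃ u'' ∈ D B x₀, red u'' = red u + red u' ∧
      ∃ k'' : ℤ, bil A u'' (x₀ - u'') = k'' ∧ (k'' : ZMod 2) = k + k' := by
  have hr := isFlow_comb h.valence_le (h.isFlow_val x₀) (h.isFlow_val u) hu (h.isFlow_val u') hu'
  obtain ⟨ρ, hρ⟩ := h.exists_coord hr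
  have hρe : ∀ e, val B ρ e = if val B u e = 0 then 0 else val B u' e := fun e => congrFun hρ e
  set p := u - ρ with hp
  set q := u' - ρ with hq
  set t := x₀ - p - q - ρ with ht
  have hpe : ∀ e, val B p e = val B u e - val B ρ e := fun e => val_sub B u ρ e
  have hqe : ∀ e, val B q e = val B u' e - val B ρ e := fun e => val_sub B u' ρ e
  have hte : ∀ e, val B t e = val B x₀ e - val B p e - val B q e - val B ρ e := fun e => by
    rw [ht, val_sub, val_sub, val_sub]
  -- tables
  have htab : ∀ e, (val B p e = val B x₀ e ∧ val B q e = 0 ∧ val B ρ e = 0 ∧ val B t e = 0) ∨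
      (val B p e = 0 ∧ val B q e = val B x₀ e ∧ val B ρ e = 0 ∧ val B t e = 0) ∨
      (val B p e = 0 ∧ val B q e = 0 ∧ val B ρ e = val B x₀ e ∧ val B t e = 0) ∨
      (val B p e = 0 ∧ val B q e = 0 ∧ val B ρ e = 0 ∧ val B t e = val B x₀ e) := by
    intro e
    have h1 := hu e
    have h2 := hu' e
    have h3 := hρe e
    have h4 := hpe e
    have h5 := hqe e
    have h6 := hte e
    by_cases h0 : val B x₀ e = 0
    · have e1 : val B u e = 0 := by rcases h1 with h | h <;> omega
      have e2 : val B u' e = 0 := by rcases h2 with h | h <;> omega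
      rw [if_pos e1] at h3
      left; refine ⟨?_, ?_, ?_, ?_⟩ <;> omega
    · rcases h1 with h1 | h1
      · rw [if_pos h1] at h3
        rcases h2 with h2 | h2
        · right; right; right; refine ⟨?_, ?_, ?_, ?_⟩ <;> omega
        · right; left; refine ⟨?_, ?_, ?_, ?_⟩ <;> omega
      · rw [if_neg (by rw [h1]; exact h0)] at h3
        rcases h2 with h2 | h2
        · left; refine ⟨?_, ?_, ?_, ?_⟩ <;> omega
        · right; right; left; refine ⟨?_, ?_, ?_, ?_⟩ <;> omega
  have hpD : p ∈ D B x₀ := fun e => by
    rcases htab e with h | h | h | h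
    · right; exact h.1
    · left; exact h.1
    · left; exact h.1
    · left; exact h.1
  have hqD : q ∈ D B x₀ := fun e => by
    rcases htab e with h | h | h | h
    · left; exact h.2.1
    · right; exact h.2.1
    · left; exact h.2.1
    · left; exact h.2.1
  have hρD : ρ ∈ D B x₀ := fun e => by
    rcases htab e with h | h | h | h
    · left; exact h.2.2.1
    · left; exact h.2.2.1
    · right; exact h.2.2.1
    · left; exact h.2.2.1
  obtain ⟨k1, hk1⟩ := h.int_of (q := q) hpD (fun e he => by
    rcases htab e with h | h | h | h <;> omega)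
  obtain ⟨k2, hk2⟩ := h.int_of (q := t) hpD (fun e he => by
    rcases htab e with h | h | h | h <;> omega)
  obtain ⟨k3, hk3⟩ := h.int_of (q := p) hρD (fun e he => by
    rcases htab e with h | h | h | h <;> omega)
  obtain ⟨k4, hk4⟩ := h.int_of (q := q) hρD (fun e he => by
    rcases htab e with h | h | h | h <;> omega)
  obtain ⟨k5, hk5⟩ := h.int_of (q := t) hρD (fun e he => by
    rcases htab e with h | h | h | h <;> omega)
  obtain ⟨k6, hk6⟩ := h.int_of (q := t) hqD (fun e he => by
    rcases htab e with h | h | h | h <;> omega)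
  have hsym := bil_comm h.symm
  have hu1 : u = p + ρ := by rw [hp]; abel
  have hu2 : u' = q + ρ := by rw [hq]; abel
  have hu3 : x₀ - u = q + t := by rw [ht, hp, hq]; abel
  have hu4 : x₀ - u' = p + t := by rw [ht, hp, hq]; abel
  refine ⟨p + q, ?_, ?_, ?_⟩
  · intro e
    rw [val_add]
    rcases htab e with h | h | h | h
    · right; omega
    · right; omega
    · left; omega
    · left; omega
  · rw [hu1, hu2, red_add, red_add, red_add]
    ext i
    simp only [Pi.add_apply]
    have : ∀ r s c : ZMod 2, r + s = r + c + (s + c) := by decide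
    exact this _ _ _
  · have hu5 : x₀ - (p + q) = ρ + t := by rw [ht]; abel
    refine ⟨k3 + k4 + k2 + k6, ?_, ?_⟩
    · rw [hu5, bil_add_left, bil_add_right, bil_add_right, hsym p ρ, hsym q ρ, hk3, hk4, hk2, hk6]
      push_cast; ring
    · have e1 : k = k1 + k2 + k4 + k5 := by
        have : (k : ℂ) = ((k1 + k2 + k4 + k5 : ℤ) : ℂ) := by
          rw [← hk, hu3, hu1, bil_add_left, bil_add_right, bil_add_right, hk1, hk2, hk4, hk5]
          push_cast; ring
        exact_mod_cast this
      have e2 : k' = k1 + k6 + k3 + k5 := by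
        have : (k' : ℂ) = ((k1 + k6 + k3 + k5 : ℤ) : ℂ) := by
          rw [← hk', hu4, hu2, bil_add_left, bil_add_right, bil_add_right, hsym q p, hk1, hk6, hk3,
            hk5]
          push_cast; ring
        exact_mod_cast this
      rw [e1, e2]
      push_cast
      have : ∀ a b c d e f : ZMod 2, c + d + b + f = a + b + d + e + (a + f + c + e) := by decide
      exact this _ _ _ _ _ _

end GData

end Run7.h318
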