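import Pool.Agent.Run7.h318.Cusp

/-!
# Leading coefficients of theta constants at graph curves: the sign characters
-/

set_option autoImplicit false
set_option linter.unusedSectionVars false
set_option linter.unusedSimpArgs false

open Complex Filter Topology

namespace Run7.h318

variable {g : ℕ}

theorem zmod2_cases (x : ZMod 2) : x = 0 ∨ x = 1 := by
  revert x; decide

theorem intCast_zmod2 (k : ℤ) : (k : ZMod 2) = 0 ↔ k % 2 = 0 := by
  rw [ZMod.intCast_zmod_eq_zero_iff_dvd]
  constructor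
  · intro h; exact Int.emod_eq_zero_of_dvd h
  · intro h; exact Int.dvd_of_emod_eq_zero h

theorem intCast_zmod2_one (k : ℤ) : (k : ZMod 2) = 1 ↔ k % 2 = 1 := by
  rcases zmod2_cases (k : ZMod 2) with h | h
  · have := (intCast_zmod2 k).1 h
    rw [h]
    constructor
    · intro h1; exact absurd h1 (by decide)
    · intro h1; omega
  · have : ¬ (k % 2 = 0) := fun h1 => by
      have := (intCast_zmod2 k).2 h1
      rw [h] at this
      exact absurd this (by decide)
    constructor
    · intro _; omega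
    · intro _; exact h

/-- the dot product modulo two -/
def dot (x y : Fin g → ZMod 2) : ZMod 2 := ∑ i, x i * y i

theorem dot_add_left (x x' y : Fin g → ZMod 2) : dot (x + x') y = dot x y + dot x' y := by
  unfold dot; rw [← Finset.sum_add_distrib]
  refine Finset.sum_congr rfl fun i _ => ?_
  simp only [Pi.add_apply]; ring

theorem dot_add_right (x y y' : Fin g → ZMod 2) : dot x (y + y') = dot x y + dot x y' := by
  unfold dot; rw [← Finset.sum_add_distrib]
  refine Finset.sum_congr rfl fun i _ => ?_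
  simp only [Pi.add_apply]; ring

theorem dot_comm (x y : Fin g → ZMod 2) : dot x y = dot y x := by
  unfold dot
  refine Finset.sum_congr rfl fun i _ => ?_
  ring

theorem dot_zero_left (y : Fin g → ZMod 2) : dot 0 y = 0 := by simp [dot]

theorem dot_zero_right (y : Fin g → ZMod 2) : dot y 0 = 0 := by simp [dot]

/-- a linear form modulo two is a dot product -/
theorem exists_dot (f : (Fin g → ZMod 2) →ₗ[ZMod 2] ZMod 2) : ∃ b, ∀ x, f x = dot x b := by
  refine ⟨fun i => f (Pi.single i 1), fun x => ?_⟩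
  conv_lhs => rw [LinearMap.pi_apply_eq_sum_univ f x]
  unfold dot
  refine Finset.sum_congr rfl fun i _ => ?_
  rw [smul_eq_mul]
  congr 2
  ext j
  simp [Pi.single_apply, eq_comm]

/-- an additively closed subset of a vector space over the field with two elements -/
def sub2 {M : Type*} [AddCommGroup M] [Module (ZMod 2) M] (S : Set M) (h0 : (0 : M) ∈ S)
    (ha : ∀ x ∈ S, ∀ y ∈ S, x + y ∈ S) : Submodule (ZMod 2) M where
  carrier := S
  add_mem' := fun hx hy => ha _ hx _ hy
  zero_mem' := h0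
  smul_mem' := fun c x hx => by
    rcases zmod2_cases c with h | h
    · rw [h, zero_smul]; exact h0
    · rw [h, one_smul]; exact hx

variable {V E : Type} [Fintype E] [DecidableEq V]

namespace GData

variable {src tgt : E → V} {B : Fin g → E → ℤ} {A : Matrix (Fin g) (Fin g) ℂ}

theorem val_zero (B : Fin g → E → ℤ) (e : E) : val B 0 e = 0 := by
  unfold val; simp

theorem zero_mem_D (B : Fin g → E → ℤ) (x₀ : Fin g → ℤ) : (0 : Fin g → ℤ) ∈ D B x₀ :=
  fun e => Or.inl (val_zero B e)

theorem even_of_red {x : Fin g → ℤ} (h : red x = 0) (e : E) : val B x e % 2 = 0 := by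
  unfold val
  rw [← intCast_zmod2]
  push_cast
  refine Finset.sum_eq_zero fun i _ => ?_
  have := congrFun h i
  simp only [red, Pi.zero_apply] at this
  rw [this]; ring

theorem val_emod_of_red {x y : Fin g → ℤ} (h : red x = red y) (e : E) :
    val B x e % 2 = val B y e % 2 := by
  have h1 : red (x - y) = 0 := by
    have : red (x - y) = red x - red y := by ext i; simp [red]
    rw [this, h, sub_self]
  have := even_of_red (B := B) h1 e
  rw [val_sub] at this
  omega

theorem red_eq_zero (h : GData src tgt B A) {x : Fin g → ℤ} (hx : ∀ e, val B x e % 2 = 0) :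
    red x = 0 := by
  obtain ⟨y, hy⟩ := h.even_of_val hx
  ext i
  rw [hy]
  simp [red, show (2 : ZMod 2) = 0 from rfl]

theorem eq_zero_of_small (h : GData src tgt B A) {x : Fin g → ℤ} (hx : ∀ e, val B x e = 0) :
    x = 0 := h.val_inj (by ext e; rw [hx e, val_zero])

variable [DecidableEq E]

/-- the characteristics `b` for which the theta constant does not vanish -/
def good (B : Fin g → E → ℤ) (A : Matrix (Fin g) (Fin g) ℂ) (x₀ : Fin g → ℤ) :
    Set (Fin g → ZMod 2) :=
  {b | ∀ u ∈ D B x₀, ∀ k : ℤ, bil A u (x₀ - u) = k → dot (red u) b = k}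

theorem exists_good (h : GData src tgt B A) {x₀ : Fin g → ℤ} (hx₀ : ∀ e, |val B x₀ e| ≤ 1) :
    (good B A x₀).Nonempty := by
  set S : Set ((Fin g → ZMod 2) × ZMod 2) :=
    {w | ∃ u ∈ D B x₀, red u = w.1 ∧ ∃ k : ℤ, bil A u (x₀ - u) = k ∧ (k : ZMod 2) = w.2} with hS
  have h0 : (0 : (Fin g → ZMod 2) × ZMod 2) ∈ S := by
    refine ⟨0, zero_mem_D B x₀, ?_, 0, ?_, ?_⟩
    · ext i; simp [red]
    · simp [bil]
    · simp
  have ha : ∀ x ∈ S, ∀ y ∈ S, x + y ∈ S := by
    rintro ⟨w, t⟩ ⟨u, hu, hur, k, hk, hkt⟩ ⟨w', t'⟩ ⟨u', hu', hur', k', hk', hkt'⟩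
    obtain ⟨u'', hu'', h1, k'', h2, h3⟩ := h.exists_symmDiff hu hu' hk hk'
    simp only at hur hkt hur' hkt'
    refine ⟨u'', hu'', ?_, k'', h2, ?_⟩
    · rw [h1, hur, hur']; rfl
    · rw [h3, hkt, hkt']; rfl
  have hn : ((0 : Fin g → ZMod 2), (1 : ZMod 2)) ∉ sub2 S h0 ha := by
    rintro ⟨u, hu, hur, k, hk, hkt⟩
    simp only at hur hkt
    have h1 : u = 0 := by
      refine h.eq_zero_of_small fun e => ?_
      have h2 := even_of_red (B := B) hur e
      have h3 := hu e
      have h4 := abs_le.1 (hx₀ e)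
      rcases h3 with h3 | h3 <;> omega
    rw [h1] at hk
    have h2 : bil A 0 (x₀ - 0) = 0 := by simp [bil]
    rw [h2] at hk
    have h3 : k = 0 := by exact_mod_cast hk.symm
    rw [h3] at hkt
    exact absurd hkt (by decide)
  obtain ⟨f, hf1, hf2⟩ := Submodule.exists_le_ker_of_notMem hn
  obtain ⟨b, hb⟩ := exists_dot (f.comp (LinearMap.inl (ZMod 2) (Fin g → ZMod 2) (ZMod 2)))
  refine ⟨b, fun u hu k hk => ?_⟩
  have h1 : (red u, (k : ZMod 2)) ∈ sub2 S h0 ha := ⟨u, hu, rfl, k, hk, rfl⟩
  have h2 : f (red u, (k : ZMod 2)) = 0 := hf2 h1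
  have h3 : f (0, 1) = 1 := by
    rcases zmod2_cases (f (0, 1)) with h | h
    · exact absurd h hf1
    · exact h
  have h4 : f (red u, (k : ZMod 2)) = dot (red u) b + k := by
    have e1 : (red u, (k : ZMod 2)) = (red u, (0 : ZMod 2)) + (k : ZMod 2) • ((0 : Fin g → ZMod 2), (1 : ZMod 2)) := by
      ext <;> simp
    rw [e1, map_add, map_smul, h3, ← hb]
    simp
  rw [h4] at h2
  have : ∀ x y : ZMod 2, x + y = 0 → x = y := by decide
  exact this _ _ h2

/-- if `q` is not the class of a subflow, then some translation of the good characteristics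
changes the value of `q` -/
theorem exists_shift (h : GData src tgt B A) {x₀ : Fin g → ℤ}
    {q : Fin g → ZMod 2} (hq : q ∉ red '' D B x₀) :
    ∃ b' : Fin g → ZMod 2, dot q b' = 1 ∧ ∀ b, b + b' ∈ good B A x₀ ↔ b ∈ good B A x₀ := by
  have h0 : (0 : (Fin g → ZMod 2)) ∈ red '' D B x₀ := by
    refine ⟨0, zero_mem_D B x₀, ?_⟩
    ext i; simp [red]
  have hint : ∀ u ∈ D B x₀, ∃ k : ℤ, bil A u (x₀ - u) = k := fun u hu =>
    h.int_of hu (fun e he => by rwa [val_sub] at he)
  have ha : ∀ x ∈ red '' D B x₀, ∀ y ∈ red '' D B x₀, x + y ∈ red '' D B x₀ := by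
    rintro _ ⟨u, hu, rfl⟩ _ ⟨u', hu', rfl⟩
    obtain ⟨k, hk⟩ := hint u hu
    obtain ⟨k', hk'⟩ := hint u' hu'
    obtain ⟨u'', hu'', h1, -⟩ := h.exists_symmDiff hu hu' hk hk'
    exact ⟨u'', hu'', h1⟩
  have hn : q ∉ sub2 (red '' D B x₀) h0 ha := hq
  obtain ⟨f, hf1, hf2⟩ := Submodule.exists_le_ker_of_notMem hn
  obtain ⟨b', hb'⟩ := exists_dot f
  refine ⟨b', ?_, ?_⟩
  · rcases zmod2_cases (dot q b') with h | h
    · rw [hb'] at hf1; exact absurd h hf1
    · exact h
  · have hz : ∀ u ∈ D B x₀, dot (red u) b' = 0 := fun u hu => by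
      rw [← hb']
      exact hf2 (show red u ∈ sub2 (red '' D B x₀) h0 ha from ⟨u, hu, rfl⟩)
    intro b
    constructor
    · intro hb u hu k hk
      have := hb u hu k hk
      rw [dot_add_right, hz u hu, add_zero] at this
      exact this
    · intro hb u hu k hk
      rw [dot_add_right, hz u hu, add_zero]
      exact hb u hu k hk

/-- nonvanishing of the leading coefficient -/
theorem lam_ne_zero (h : GData src tgt B A) {a : Fin g → ℤ} {m₀ : Fin g → ℤ}
    (hx₀ : ∀ e, |val B (2 * m₀ + a) e| ≤ 1) {b : Fin g → ZMod 2}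
    (hb : b ∈ good B A (2 * m₀ + a)) : lam B A a (lift b) ≠ 0 := by
  classical
  set x₀ := 2 * m₀ + a with hx
  have hfin : Set.Finite {n : Fin g → ℤ | ∀ e, |val B (2 * n + a) e| ≤ 1} := by
    have h1 : Set.Finite {z : E → ℤ | ∀ e, z e ∈ Set.Icc (-1 : ℤ) 1} := by
      have := Set.Finite.pi' (t := fun _ : E => Set.Icc (-1 : ℤ) 1) (fun _ => Set.finite_Icc _ _)
      exact this
    refine Set.Finite.of_finite_image (f := fun n => val B (2 * n + a)) (h1.subset ?_) ?_
    · rintro _ ⟨n, hn, rfl⟩ e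
      have := abs_le.1 (hn e)
      exact ⟨this.1, this.2⟩
    · intro n _ n' _ hnn
      have := h.val_inj hnn
      ext i
      have h2 := congrFun this i
      simp [Pi.add_apply, Pi.mul_apply] at h2
      exact h2
  have hterm : ∀ n, (∀ e, |val B (2 * n + a) e| ≤ 1) →
      tterm a (lift b) A n = tterm a (lift b) A m₀ := by
    intro n hn
    set u := m₀ - n with hu
    have huD : u ∈ D B x₀ := by
      intro e
      have h1 := abs_le.1 (hn e)
      have h2 := abs_le.1 (hx₀ e)
      have h3 := val_two_mul_add B n a e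
      have h4 := val_two_mul_add B m₀ a e
      rw [hu, val_sub]
      rw [hx] at *
      omega
    obtain ⟨k, hk⟩ := h.int_of (q := x₀ - u) huD (fun e he => by rwa [val_sub] at he)
    have h2 := hb u huD k hk
    have hxn : 2 * n + a = x₀ - 2 * u := by rw [hx, hu]; ring
    have hq : qf A (2 * n + a) = qf A x₀ - 4 * k := by
      have e1 : (2 : Fin g → ℤ) * u = u + u := by ring
      rw [hxn, qf_eq_bil, qf_eq_bil, ← hk, e1]
      simp only [sub_eq_add_neg, bil_add_left, bil_add_right, bil_neg_left, bil_neg_right]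
      rw [bil_comm h.symm x₀ u]
      ring
    have hs : (∑ i, ((2 * n + a) i : ℂ) * ((lift b) i : ℂ)) =
        (∑ i, (x₀ i : ℂ) * ((lift b) i : ℂ)) - 2 * ((∑ i, u i * lift b i : ℤ) : ℂ) := by
      rw [hxn]
      push_cast
      rw [Finset.mul_sum, ← Finset.sum_sub_distrib]
      refine Finset.sum_congr rfl fun i _ => ?_
      simp only [Pi.sub_apply, Pi.mul_apply, Pi.ofNat_apply]
      push_cast
      ring
    have hpar : (k + ∑ i, u i * lift b i) % 2 = 0 := by
      rw [← intCast_zmod2]
      push_cast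
      rw [← h2]
      unfold dot
      rw [← Finset.sum_add_distrib]
      refine Finset.sum_eq_zero fun i _ => ?_
      have e3 : ((lift b i : ℤ) : ZMod 2) = b i := congrFun (red_lift b) i
      rw [e3]
      simp only [red]
      have : ∀ x : ZMod 2, x + x = 0 := by decide
      exact this _
    obtain ⟨r, hr⟩ : ∃ r, k + ∑ i, u i * lift b i = 2 * r := ⟨_, (by omega : _ = 2 * ((k + ∑ i, u i * lift b i) / 2))⟩
    unfold tterm
    rw [hq, hs]
    have e2 : Real.pi * I / 4 * (qf A x₀ - 4 * k) + Real.pi * I / 2 *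
        ((∑ i, (x₀ i : ℂ) * ((lift b) i : ℂ)) - 2 * ((∑ i, u i * lift b i : ℤ) : ℂ)) =
        (Real.pi * I / 4 * qf A x₀ + Real.pi * I / 2 * (∑ i, (x₀ i : ℂ) * ((lift b) i : ℂ))) +
        ((-r : ℤ) : ℂ) * (2 * Real.pi * I) := by
      have : ((∑ i, u i * lift b i : ℤ) : ℂ) = 2 * r - k := by
        have : (∑ i, u i * lift b i : ℤ) = 2 * r - k := by omega
        rw [this]; push_cast; ring
      rw [this]
      push_cast
      ring
    rw [e2, Complex.exp_add, Complex.exp_int_mul_two_pi_mul_I, mul_one]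
  have hsum : lam B A a (lift b) = ∑ n ∈ hfin.toFinset, tterm a (lift b) A m₀ := by
    unfold lam
    rw [tsum_eq_sum (s := hfin.toFinset)]
    · refine Finset.sum_congr rfl fun n hn => ?_
      rw [Set.Finite.mem_toFinset] at hn
      have hn' : ∀ e, |val B (2 * n + a) e| ≤ 1 := hn
      unfold lterm
      rw [if_pos hn']
      exact hterm n hn'
    · intro n hn
      rw [Set.Finite.mem_toFinset] at hn
      have hn' : ¬ ∀ e, |val B (2 * n + a) e| ≤ 1 := hn
      unfold lterm
      rw [if_neg hn']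
  rw [hsum, Finset.sum_const, nsmul_eq_mul]
  refine mul_ne_zero ?_ (Complex.exp_ne_zero _)
  rw [Nat.cast_ne_zero]
  apply Finset.card_ne_zero_of_mem (a := m₀)
  rw [Set.Finite.mem_toFinset]
  exact hx₀

end GData

end Run7.h318
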