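import Pool.Agent.Run7.h318.Weights

/-!
# Weights adapted to a graph curve, and the limits of the corresponding products
-/

set_option autoImplicit false
set_option linter.unusedSectionVars false
set_option linter.unusedSimpArgs false

open Complex Filter Topology

namespace Run7.h318

variable {g : ℕ}

/-- the class modulo two of the coordinate functional of an edge -/
def ev {E : Type} (B : Fin g → E → ℤ) (e : E) : Fin g → ZMod 2 := fun i => (B i e : ZMod 2)

theorem dot_ev {E : Type} (B : Fin g → E → ℤ) (x : Fin g → ℤ) (e : E) :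
    dot (ev B e) (red x) = (val B x e : ZMod 2) := by
  unfold dot ev red val
  push_cast
  exact Finset.sum_congr rfl fun i _ => mul_comm _ _

theorem par_eq {E : Type} (B : Fin g → E → ℤ) (a : Fin g → ZMod 2) (e : E) :
    par B (lift a) e = if dot (ev B e) a = 1 then 1 else 0 := by
  have h := dot_ev B (lift a) e
  rw [red_lift] at h
  unfold par
  rw [h]
  by_cases h1 : val B (lift a) e % 2 = 1
  · rw [if_pos h1, if_pos ((intCast_zmod2_one _).2 h1)]
  · rw [if_neg h1, if_neg (fun h2 => h1 ((intCast_zmod2_one _).1 h2))]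

variable {V E : Type} [Fintype E] [DecidableEq V] [DecidableEq E]

namespace GData

variable {src tgt : E → V} {B : Fin g → E → ℤ} {A : Matrix (Fin g) (Fin g) ℂ}

/-- if all flows are even on an edge then they vanish on it -/
theorem flow_even (h : GData src tgt B A) (e : E)
    (he : ∀ z : E → ℤ, IsFlow src tgt z → z e % 2 = 0) :
    ∀ z : E → ℤ, IsFlow src tgt z → z e = 0 := by
  have key : ∀ n : ℕ, ∀ z : E → ℤ, IsFlow src tgt z → (z e).natAbs ≤ n → z e = 0 := by
    intro n
    induction n with
    | zero => intro z _ hz; omega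
    | succ n ih =>
      intro z hz hn
      obtain ⟨y, hy, hy1, hy2⟩ := exists_orient h.valence_le z hz
      have h1 := he y hy
      have h2 := abs_le.1 (hy1 e)
      have h3 : y e = 0 := by omega
      have h4 : ∀ e, z e - y e = 2 * ((z e - y e) / 2) := fun e => by have := hy2 e; omega
      have h5 : IsFlow src tgt (fun e => (z e - y e) / 2) := by
        intro v
        have e1 := hz v
        have e2 := hy v
        have e3 : ∑ e with src e = v, (z e - y e) = ∑ e with tgt e = v, (z e - y e) := by
          rw [Finset.sum_sub_distrib, Finset.sum_sub_distrib, e1, e2]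
        rw [Finset.sum_congr rfl fun e _ => h4 e,
          Finset.sum_congr (s₁ := Finset.univ.filter fun e => tgt e = v) rfl fun e _ => h4 e,
          ← Finset.mul_sum, ← Finset.mul_sum] at e3
        show ∑ e with src e = v, ((z e - y e) / 2) = ∑ e with tgt e = v, ((z e - y e) / 2)
        omega
      have h6 := ih _ h5 (by show ((z e - y e) / 2).natAbs ≤ n; rw [h3]; have := h4 e; rw [h3] at this; omega)
      have h7 : (z e - y e) / 2 = 0 := h6
      have := h4 e
      rw [h7, h3] at this
      omega
  intro z hz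
  exact key _ z hz le_rfl

theorem ev_ne_zero (h : GData src tgt B A) {e : E} (he : ∃ i, B i e ≠ 0) : ev B e ≠ 0 := by
  intro h0
  obtain ⟨i, hi⟩ := he
  refine hi (h.flow_even e (fun z hz => ?_) (B i) (h.flow i))
  obtain ⟨n, hn⟩ := h.exists_coord hz
  rw [← hn, ← intCast_zmod2, ← dot_ev, h0, dot_zero_left]

/-- a weight function on the characteristics, adapted to the graph curve -/
theorem exists_weight (h : GData src tgt B A) :
    ∃ m : ℕ, 1 ≤ m ∧ ∃ c : Chr g → ℕ, ∑ x, c x = 3 * m ∧ (∀ v : Chr g, v ≠ 0 → m ≤ ord c v) ∧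
      (∀ p : Fin g → ZMod 2, p ≠ 0 → ord c (p, 0) = m) ∧
      ∀ x, c x ≠ 0 → lam B A (lift x.1) (lift x.2) ≠ 0 := by
  classical
  choose m₀ hm₀ using fun a : Fin g → ZMod 2 => h.exists_base (lift a)
  set x₀ : (Fin g → ZMod 2) → (Fin g → ℤ) := fun a => 2 * m₀ a + lift a with hx₀
  have hred : ∀ a, red (x₀ a) = a := by
    intro a
    have : red (x₀ a) = red (2 * m₀ a) + red (lift a) := red_add _ _
    rw [this, red_lift]
    ext i
    simp [red, show (2 : ZMod 2) = 0 from rfl]
  set Bs : (Fin g → ZMod 2) → Finset (Fin g → ZMod 2) := fun a => (good B A (x₀ a)).toFinset with hBs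
  have hmem : ∀ a b, b ∈ Bs a ↔ b ∈ good B A (x₀ a) := fun a b => by rw [hBs]; simp
  obtain ⟨m, hm, c, h1, h2, h3, h4⟩ := Run7.h318.exists_weight Bs (fun a => red '' D B (x₀ a)) (by
      intro a
      obtain ⟨b, hb⟩ := h.exists_good (hm₀ a)
      exact ⟨b, (hmem a b).2 hb⟩) (by
      rintro q ⟨u, hu, rfl⟩
      refine h.red_eq_zero fun e => ?_
      have e1 := even_of_red (B := B) (hred 0) e
      have e2 := abs_le.1 (hm₀ 0 e)
      have e3 := hu e
      have e4 : val B (x₀ 0) e = val B (2 * m₀ 0 + lift 0) e := rfl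
      rcases e3 with e3 | e3 <;> omega) (by
      intro q hq
      obtain ⟨e, he⟩ : ∃ e, val B (lift q) e % 2 ≠ 0 := by
        by_contra hc
        push Not at hc
        have := h.red_eq_zero hc
        rw [red_lift] at this
        exact hq this
      have he1 : val B (lift q) e % 2 = 1 := by omega
      refine ⟨ev B e, ?_, ?_⟩
      · intro h0
        have := dot_ev B (lift q) e
        rw [h0, dot_zero_left, eq_comm, intCast_zmod2] at this
        omega
      · rintro a ⟨u, hu, hur⟩
        have e1 : val B u e % 2 = val B (lift q) e % 2 :=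
          val_emod_of_red (by rw [hur, red_lift]) e
        have e2 : val B (x₀ a) e % 2 = 1 := by
          rcases hu e with e3 | e3 <;> omega
        rw [← hred a, dot_ev, intCast_zmod2_one]
        exact e2) (by
      intro a q hq t
      obtain ⟨b', hb', hb''⟩ := h.exists_shift hq
      have e1 : ((Bs a).filter fun b => dot q b = t).card =
          ((Bs a).filter fun b => ¬ dot q b = t).card := by
        refine Finset.card_bij (fun b _ => b + b') ?_ ?_ ?_
        · intro b hb
          rw [Finset.mem_filter] at hb ⊢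
          refine ⟨(hmem _ _).2 ((hb'' b).2 ((hmem _ _).1 hb.1)), ?_⟩
          rw [dot_add_right, hb', hb.2]
          have : ∀ x : ZMod 2, ¬ x + 1 = x := by decide
          exact this t
        · intro b _ b'' _ hbb
          exact add_right_cancel hbb
        · intro b hb
          rw [Finset.mem_filter] at hb
          have e2 : b + b' + b' = b := by
            ext j
            simp only [Pi.add_apply]
            have : ∀ x y : ZMod 2, x + y + y = x := by decide
            exact this _ _
          refine ⟨b + b', ?_, e2⟩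
          rw [Finset.mem_filter]
          refine ⟨(hmem _ _).2 ((hb'' b).2 ((hmem _ _).1 hb.1)), ?_⟩
          rw [dot_add_right, hb']
          have : ∀ x y : ZMod 2, ¬ x = y → x + 1 = y := by decide
          exact this _ _ hb.2
      have e3 := Finset.card_filter_add_card_filter_not (s := Bs a) (fun b => dot q b = t)
      omega)
  refine ⟨m, hm, c, h1, h2, h3, fun x hx => ?_⟩
  exact h.lam_ne_zero (hm₀ x.1) ((hmem _ _).1 (h4 x hx))

/-- the coordinates of a flow are controlled by its values -/
theorem exists_K (h : GData src tgt B A) : ∃ K : ℝ, 0 < K ∧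
    ∀ x : Fin g → ℤ, ∑ i, ((x i : ℤ) : ℝ) ^ 2 ≤ K * ∑ e, ((val B x e : ℤ) : ℝ) ^ 2 := by
  classical
  set T : (Fin g → ℚ) →ₗ[ℚ] (E → ℚ) :=
    { toFun := fun x e => ∑ i, x i * (B i e : ℚ)
      map_add' := fun x y => by
        ext e; simp [add_mul, Finset.sum_add_distrib]
      map_smul' := fun c x => by
        ext e; simp [Finset.mul_sum, mul_assoc] } with hT
  have hTval : ∀ x : Fin g → ℤ, T (fun i => (x i : ℚ)) = fun e => (val B x e : ℚ) := by
    intro x
    ext e
    simp only [hT, LinearMap.coe_mk, AddHom.coe_mk, val]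
    push_cast; rfl
  have hinj : LinearMap.ker T = ⊥ := by
    rw [LinearMap.ker_eq_bot']
    intro x hx
    set N : ℕ := ∏ i, (x i).den with hN
    have hN0 : (N : ℚ) ≠ 0 := by
      rw [hN]
      exact_mod_cast Finset.prod_ne_zero_iff.2 fun i _ => (x i).den_nz
    have h1 : ∀ i, ∃ y : ℤ, (y : ℚ) = N * x i := by
      intro i
      obtain ⟨k, hk⟩ : (x i).den ∣ N := Finset.dvd_prod_of_mem _ (Finset.mem_univ i)
      refine ⟨k * (x i).num, ?_⟩
      rw [hk]
      have := Rat.den_mul_eq_num (x i)
      push_cast
      rw [← this]; ring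
    choose y hy using h1
    have h2 : y = 0 := by
      refine h.eq_zero_of_small fun e => ?_
      have h3 : T (fun i => (y i : ℚ)) = 0 := by
        have : (fun i => (y i : ℚ)) = (N : ℚ) • x := by
          ext i; rw [hy i]; rfl
        rw [this, map_smul, hx, smul_zero]
      rw [hTval] at h3
      have := congrFun h3 e
      simpa using this
    ext i
    have := hy i
    rw [h2] at this
    simp only [Pi.zero_apply, Int.cast_zero] at this
    rcases mul_eq_zero.1 this.symm with h4 | h4
    · exact absurd h4 hN0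
    · exact h4
  obtain ⟨G, hG⟩ := T.exists_leftInverse_of_injective hinj
  have hx : ∀ (x : Fin g → ℤ) (i : Fin g), ((x i : ℤ) : ℝ) =
      ∑ e, ((G (Pi.single e 1) i : ℚ) : ℝ) * ((val B x e : ℤ) : ℝ) := by
    intro x i
    have h1 : (x i : ℚ) = ∑ e, (G (Pi.single e 1) i) * (val B x e : ℚ) := by
      have h2 : G (T (fun i => (x i : ℚ))) = fun i => (x i : ℚ) := by
        have := LinearMap.congr_fun hG (fun i => (x i : ℚ))
        simpa using this
      rw [hTval] at h2
      have h3 := congrFun h2 i
      rw [← h3]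
      conv_lhs => rw [LinearMap.pi_apply_eq_sum_univ G]
      rw [Finset.sum_apply]
      refine Finset.sum_congr rfl fun e _ => ?_
      rw [Pi.smul_apply, smul_eq_mul, mul_comm]
      have h5 : (fun j => if e = j then (1 : ℚ) else 0) = Pi.single e 1 := by
        ext e'
        simp [Pi.single_apply, eq_comm]
      rw [h5]
    have h4 : ((x i : ℚ) : ℝ) = ((∑ e, (G (Pi.single e 1) i) * (val B x e : ℚ) : ℚ) : ℝ) := by
      rw [h1]
    push_cast at h4
    exact h4
  refine ⟨1 + ∑ i, ∑ e, ((G (Pi.single e 1) i : ℚ) : ℝ) ^ 2, by positivity, fun x => ?_⟩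
  rw [add_mul, Finset.sum_mul]
  have h1 : ∀ i, ((x i : ℤ) : ℝ) ^ 2 ≤ (∑ e, ((G (Pi.single e 1) i : ℚ) : ℝ) ^ 2) *
      ∑ e, ((val B x e : ℤ) : ℝ) ^ 2 := by
    intro i
    rw [hx x i]
    exact Finset.sum_mul_sq_le_sq_mul_sq _ _ _
  have h2 := Finset.sum_le_sum fun i (_ : i ∈ Finset.univ) => h1 i
  have h3 : 0 ≤ ∑ e, ((val B x e : ℤ) : ℝ) ^ 2 := by positivity
  linarith

end GData

end Run7.h318
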