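import Pool.Agent.Run7.h318.Cusp3

/-!
# Limits of products of theta constants at graph curves
-/

set_option autoImplicit false
set_option linter.unusedSectionVars false
set_option linter.unusedSimpArgs false

open Complex Filter Topology

namespace Run7.h318

variable {g : ℕ}

/-- a product of eighth powers of theta constants -/
noncomputable def fth (c : Chr g → ℕ) (Z : Matrix (Fin g) (Fin g) ℂ) : ℂ :=
  ∏ x, th (lift x.1) (lift x.2) Z ^ (8 * c x)

theorem qx_zero (x : Chr g) (p : Fin g → ZMod 2) : qx x (p, 0) = dot p x.1 := by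
  unfold qx; simp [dot_zero_left, dot_zero_right]

theorem ord_zero (c : Chr g → ℕ) : ord c 0 = 0 := by
  unfold ord
  refine Finset.sum_eq_zero fun x _ => ?_
  rw [if_neg]
  have : qx x 0 = 0 := by
    unfold qx
    simp [dot_zero_left]
  rw [this]; decide

variable {V E : Type} [Fintype E] [DecidableEq V] [DecidableEq E]

theorem prod_fac (B : Fin g → E → ℤ) (c : Chr g → ℕ) (s : E → ℂ) :
    ∏ x : Chr g, fac B (lift x.1) s ^ (8 * c x) =
      cexp (-(2 * Real.pi * I * ∑ e, s e * (ord c (ev B e, 0) : ℂ))) := by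
  unfold fac
  simp only [← Complex.exp_nat_mul]
  rw [← Complex.exp_sum]
  congr 1
  have h1 : ∀ x : Chr g, ((8 * c x : ℕ) : ℂ) *
      -(Real.pi * I / 4 * ∑ e, s e * (par B (lift x.1) e : ℂ)) =
      ∑ e, -(2 * Real.pi * I) * (s e * ((c x : ℂ) * (par B (lift x.1) e : ℂ))) := by
    intro x
    rw [← Finset.mul_sum]
    have : ∑ e, s e * ((c x : ℂ) * (par B (lift x.1) e : ℂ)) =
        (c x : ℂ) * ∑ e, s e * (par B (lift x.1) e : ℂ) := by
      rw [Finset.mul_sum]
      refine Finset.sum_congr rfl fun e _ => ?_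
      ring
    rw [this]
    push_cast; ring
  have h4 : -(2 * Real.pi * I * ∑ e, s e * (ord c (ev B e, 0) : ℂ)) =
      ∑ e, -(2 * Real.pi * I) * (s e * (ord c (ev B e, 0) : ℂ)) := by
    rw [← Finset.mul_sum]; ring
  simp only [h1]
  rw [h4, Finset.sum_comm]
  refine Finset.sum_congr rfl fun e _ => ?_
  have h3 : ∑ x : Chr g, -(2 * Real.pi * I) * (s e * ((c x : ℂ) * (par B (lift x.1) e : ℂ))) =
      -(2 * Real.pi * I) * (s e * ∑ x : Chr g, (c x : ℂ) * (par B (lift x.1) e : ℂ)) := by
    rw [Finset.mul_sum, Finset.mul_sum]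
  rw [h3]
  have h2 : ∑ x : Chr g, (c x : ℂ) * (par B (lift x.1) e : ℂ) = (ord c (ev B e, 0) : ℂ) := by
    unfold ord
    push_cast
    refine Finset.sum_congr rfl fun x _ => ?_
    rw [qx_zero, par_eq]
    split_ifs <;> simp
  rw [h2]

/-- the limit of the normalised product -/
noncomputable def Lam (B : Fin g → E → ℤ) (A : Matrix (Fin g) (Fin g) ℂ) (m : ℕ) (c : Chr g → ℕ) : ℂ :=
  open Classical in if ∀ e, ev B e ≠ 0 → ord c (ev B e, 0) = m then
    ∏ x : Chr g, lam B A (lift x.1) (lift x.2) ^ (8 * c x) else 0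

namespace GData

variable {src tgt : E → V} {B : Fin g → E → ℤ} {A : Matrix (Fin g) (Fin g) ℂ}

open Classical in
/-- the normalising exponential -/
noncomputable def nrm (B : Fin g → E → ℤ) (m : ℕ) (s : E → ℂ) : ℂ :=
  cexp (-(2 * Real.pi * I * m * ∑ e, if ∃ i, B i e ≠ 0 then s e else 0))

theorem fth_limit (h : GData src tgt B A) {ι : Type*} {l : Filter ι} (s : ι → E → ℂ)
    (A' : ι → Matrix (Fin g) (Fin g) ℂ)
    (hs : ∀ e, Tendsto (fun k => (s k e).im) l atTop)
    (hA : ∀ i j, Tendsto (fun k => A' k i j) l (𝓝 (A i j))) {m : ℕ} {c : Chr g → ℕ}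
    (hc : ∀ v : Chr g, v ≠ 0 → m ≤ ord c v) :
    Tendsto (fun k => fth c (nil B (s k) (A' k)) * nrm B m (s k)) l (𝓝 (Lam B A m c)) := by
  classical
  obtain ⟨K, hK0, hK⟩ := h.exists_K
  -- nonnegative excess
  set d : E → ℕ := fun e => if ∃ i, B i e ≠ 0 then ord c (ev B e, 0) - m else 0 with hd
  have hev : ∀ e, ev B e ≠ 0 ↔ ∃ i, B i e ≠ 0 := by
    intro e
    constructor
    · intro h1
      by_contra h2
      push Not at h2
      exact h1 (by ext i; simp [ev, h2 i])
    · exact h.ev_ne_zero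
  have hord : ∀ e, (ord c (ev B e, 0) : ℂ) = d e + if ∃ i, B i e ≠ 0 then (m : ℂ) else 0 := by
    intro e
    simp only [hd]
    by_cases h1 : ∃ i, B i e ≠ 0
    · have h2 : m ≤ ord c (ev B e, 0) := hc _ (fun h3 => (hev e).2 h1 (congrArg Prod.fst h3))
      rw [if_pos h1, if_pos h1]
      push_cast [h2]; ring
    · have h2 : ev B e = 0 := by
        by_contra h3
        exact h1 ((hev e).1 h3)
      rw [if_neg h1, if_neg h1, h2]
      have : ord c ((0 : Fin g → ZMod 2), (0 : Fin g → ZMod 2)) = 0 := ord_zero c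
      rw [this]; simp
  have hrew : ∀ k, fth c (nil B (s k) (A' k)) * nrm B m (s k) =
      (∏ x : Chr g, (th (lift x.1) (lift x.2) (nil B (s k) (A' k)) * fac B (lift x.1) (s k)) ^ (8 * c x)) *
        ∏ e, cexp (2 * Real.pi * I * (s k e * d e)) := by
    intro k
    simp only [mul_pow]
    rw [Finset.prod_mul_distrib, prod_fac]
    unfold fth nrm
    rw [mul_assoc (∏ x : Chr g, _), ← Complex.exp_sum, ← Complex.exp_add]
    congr 2
    rw [← Finset.mul_sum]
    have : ∑ e, s k e * (ord c (ev B e, 0) : ℂ) = ∑ e, s k e * d e +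
        m * ∑ e, (if ∃ i, B i e ≠ 0 then s k e else 0) := by
      rw [Finset.mul_sum, ← Finset.sum_add_distrib]
      refine Finset.sum_congr rfl fun e _ => ?_
      rw [hord e]
      split_ifs <;> ring
    rw [this]
    ring
  simp only [hrew]
  have hexp : ∀ e, d e ≠ 0 → Tendsto (fun k => cexp (2 * Real.pi * I * (s k e * d e))) l (𝓝 0) := by
    intro e he
    rw [tendsto_zero_iff_norm_tendsto_zero]
    have h1 : ∀ k, ‖cexp (2 * Real.pi * I * (s k e * d e))‖ =
        Real.exp (-(2 * Real.pi * d e) * (s k e).im) := by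
      intro k
      rw [Complex.norm_exp]
      congr 1
      have : 2 * Real.pi * I * (s k e * d e) = ((2 * Real.pi * d e : ℝ) : ℂ) * (I * s k e) := by
        push_cast; ring
      rw [this, Complex.re_ofReal_mul, Complex.I_mul_re]
      ring
    simp only [h1]
    have h2 : 0 < (d e : ℝ) := by exact_mod_cast Nat.pos_of_ne_zero he
    have h3 : Tendsto (fun k => -(2 * Real.pi * d e) * (s k e).im) l atBot :=
      Tendsto.const_mul_atTop_of_neg (by nlinarith [Real.pi_pos]) (hs e)
    exact Real.tendsto_exp_atBot.comp h3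
  have hprod : Tendsto (fun k => ∏ x : Chr g,
      (th (lift x.1) (lift x.2) (nil B (s k) (A' k)) * fac B (lift x.1) (s k)) ^ (8 * c x)) l
      (𝓝 (∏ x : Chr g, lam B A (lift x.1) (lift x.2) ^ (8 * c x))) := by
    refine tendsto_finsetProd _ fun x _ => ?_
    exact (th_limit B hK0 hK s A' A hs hA (lift x.1) (lift x.2)).pow _
  have hexp' : Tendsto (fun k => ∏ e, cexp (2 * Real.pi * I * (s k e * d e))) l
      (𝓝 (∏ e, if d e = 0 then (1 : ℂ) else 0)) := by
    refine tendsto_finsetProd _ fun e _ => ?_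
    by_cases he : d e = 0
    · rw [if_pos he]
      simp only [he, Nat.cast_zero, mul_zero, Complex.exp_zero]
      exact tendsto_const_nhds
    · rw [if_neg he]
      exact hexp e he
  have hfin := hprod.mul hexp'
  have hval : (∏ x : Chr g, lam B A (lift x.1) (lift x.2) ^ (8 * c x)) *
      (∏ e, if d e = 0 then (1 : ℂ) else 0) = Lam B A m c := by
    unfold Lam
    split_ifs with h1
    · have h3 : (∏ e, if d e = 0 then (1 : ℂ) else 0) = 1 := by
        refine Finset.prod_eq_one fun e _ => ?_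
        rw [if_pos]
        simp only [hd]
        split_ifs with h2
        · rw [h1 e ((hev e).2 h2)]; simp
        · rfl
      rw [h3, mul_one]
    · push Not at h1
      obtain ⟨e, he1, he2⟩ := h1
      rw [Finset.prod_eq_zero (Finset.mem_univ e), mul_zero]
      rw [if_neg]
      simp only [hd]
      rw [if_pos ((hev e).1 he1)]
      have : m ≤ ord c (ev B e, 0) := hc _ (fun h3 => he1 (congrArg Prod.fst h3))
      omega
  rwa [hval] at hfin

theorem Lam_ne_zero {m : ℕ} {c : Chr g → ℕ} (h1 : ∀ p : Fin g → ZMod 2, p ≠ 0 → ord c (p, 0) = m)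
    (h2 : ∀ x, c x ≠ 0 → lam B A (lift x.1) (lift x.2) ≠ 0) : Lam B A m c ≠ 0 := by
  unfold Lam
  rw [if_pos (fun e he => h1 _ he)]
  refine Finset.prod_ne_zero_iff.2 fun x _ => ?_
  by_cases hx : c x = 0
  · rw [hx]; simp
  · exact pow_ne_zero _ (h2 x hx)

end GData

end Run7.h318
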