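import Mathlib

/-!
# Definitions: multigraphs, flows, nilpotent orbits
-/

set_option autoImplicit false

namespace Run7.h318

variable {V E : Type} [Fintype E] [DecidableEq V]

/-- `z` is an integral flow (a 1-cycle) of the multigraph with edges `e` from `src e` to `tgt e` -/
def IsFlow (src tgt : E → V) (z : E → ℤ) : Prop :=
  ∀ x : V, ∑ e with src e = x, z e = ∑ e with tgt e = x, z e

/-- the supports of `z` and `z'` have no vertex in common -/
def VertexDisjoint (src tgt : E → V) (z z' : E → ℤ) : Prop :=
  ∀ e e' : E, z e ≠ 0 → z' e' ≠ 0 →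
    src e ≠ src e' ∧ src e ≠ tgt e' ∧ tgt e ≠ src e' ∧ tgt e ≠ tgt e'

/-- the valence of a vertex (a loop counts twice) -/
def valence (src tgt : E → V) (x : V) : ℕ :=
  (Finset.univ.filter fun e => src e = x).card + (Finset.univ.filter fun e => tgt e = x).card

end Run7.h318
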