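import Pool.Agent.Run7.h318.Modular

/-!
# Level one forms from products of theta constants
-/

set_option autoImplicit false
set_option linter.unusedSectionVars false
set_option linter.unusedSimpArgs false

open Complex Filter Topology Run7.h433.Slope Asymptotics

namespace Run7.h318

variable {g : ℕ}

/-- the admissible weight functions -/
def Adm (g m : ℕ) : Finset (Chr g → ℕ) :=
  open Classical in
  (Fintype.piFinset fun _ : Chr g => Finset.range (3 * m + 1)).filter fun c =>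
    ∑ x, c x = 3 * m ∧ ∀ v : Chr g, v ≠ 0 → m ≤ ord c v

theorem mem_Adm {m : ℕ} {c : Chr g → ℕ} :
    c ∈ Adm g m ↔ ∑ x, c x = 3 * m ∧ ∀ v : Chr g, v ≠ 0 → m ≤ ord c v := by
  classical
  unfold Adm
  rw [Finset.mem_filter, Fintype.mem_piFinset]
  constructor
  · exact fun h => h.2
  · intro h
    refine ⟨fun x => ?_, h⟩
    rw [Finset.mem_range, ← h.1, Nat.lt_succ_iff]
    exact Finset.single_le_sum (f := c) (fun _ _ => Nat.zero_le _) (Finset.mem_univ x)

/-- the elementary symmetric functions of the products `fth c`, `c` admissible -/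
noncomputable def Fm (g m j : ℕ) (Z : Matrix (Fin g) (Fin g) ℂ) : ℂ :=
  ∑ T ∈ (Adm g m).powersetCard j, ∏ c ∈ T, fth c Z

theorem ord_perm {π : Equiv.Perm (Chr g)} {τ : Equiv.Perm (Chr g)}
    (h : ∀ x v, qx (π x) v = qx x (τ v)) (c : Chr g → ℕ) (v : Chr g) :
    ord (c ∘ π.symm) v = ord c (τ v) := by
  unfold ord
  rw [← Equiv.sum_comp π (fun x => if qx x v = 1 then (c ∘ π.symm) x else 0)]
  refine Finset.sum_congr rfl fun x _ => ?_
  simp only [Function.comp_apply, Equiv.symm_apply_apply, h]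

theorem mem_Adm_perm {m : ℕ} {π : Equiv.Perm (Chr g)} (hπ : Compat π) {c : Chr g → ℕ}
    (hc : c ∈ Adm g m) : c ∘ π.symm ∈ Adm g m := by
  obtain ⟨τ, h0, h⟩ := hπ
  rw [mem_Adm] at hc ⊢
  refine ⟨?_, fun v hv => ?_⟩
  · rw [← hc.1]
    exact Equiv.sum_comp π.symm c
  · rw [ord_perm h]
    refine hc.2 _ fun h' => hv ?_
    have : τ v = τ 0 := by rw [h', h0]
    exact τ.injective this

/-- the bijection of the set of weight functions -/
def permE (π : Equiv.Perm (Chr g)) : (Chr g → ℕ) ↪ (Chr g → ℕ) :=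
  ⟨fun c => c ∘ π.symm, fun c c' h => by
    funext x
    have := congrFun h (π x)
    simpa using this⟩

theorem map_Adm {m : ℕ} {π : Equiv.Perm (Chr g)} (hπ : Compat π) :
    (Adm g m).map (permE π) = Adm g m := by
  refine Finset.eq_of_subset_of_card_le ?_ ?_
  · intro c hc
    rw [Finset.mem_map] at hc
    obtain ⟨c', hc', rfl⟩ := hc
    exact mem_Adm_perm hπ hc'
  · rw [Finset.card_map]

theorem fth_law {M : Matrix (Fin g ⊕ Fin g) (Fin g ⊕ Fin g) ℤ} {π : Equiv.Perm (Chr g)}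
    {Z : Matrix (Fin g) (Fin g) ℂ}
    (h : ∀ x, T8 x (Run7.h433.moeb M Z) = (Run7.h433.aut M Z).det ^ 4 * T8 (π x) Z)
    {m : ℕ} {c : Chr g → ℕ} (hc : ∑ x, c x = 3 * m) :
    fth c (Run7.h433.moeb M Z) = (Run7.h433.aut M Z).det ^ (12 * m) * fth (permE π c) Z := by
  rw [fth_eq, fth_eq]
  simp only [h, mul_pow]
  rw [Finset.prod_mul_distrib]
  congr 1
  · simp only [← pow_mul]
    rw [Finset.prod_pow_eq_pow_sum, ← Finset.mul_sum, hc]
    congr 1; ring
  · rw [← Equiv.prod_comp π (fun x => T8 x Z ^ (permE π c) x)]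
    refine Finset.prod_congr rfl fun x _ => ?_
    show T8 (π x) Z ^ c x = T8 (π x) Z ^ (c (π.symm (π x)))
    rw [Equiv.symm_apply_apply]

theorem Fm_modular (m j : ℕ) {M : Matrix (Fin g ⊕ Fin g) (Fin g ⊕ Fin g) ℤ}
    (hM : M ∈ Matrix.symplecticGroup (Fin g) ℤ) {Z : Matrix (Fin g) (Fin g) ℂ}
    (hZ : Z ∈ upperHalf g) :
    Fm g m j (Run7.h433.moeb M Z) = (Run7.h433.aut M Z).det ^ (12 * (m * j)) * Fm g m j Z := by
  classical
  obtain ⟨π, hπ, hl⟩ := law hM
  have h1 : Fm g m j Z = ∑ T ∈ (Adm g m).powersetCard j, ∏ c ∈ T, fth (permE π c) Z := by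
    unfold Fm
    conv_lhs => rw [← map_Adm hπ (m := m), Finset.powersetCard_map, Finset.sum_map]
    refine Finset.sum_congr rfl fun T _ => ?_
    show ∏ c ∈ T.map (permE π), fth c Z = _
    rw [Finset.prod_map]
  rw [h1]
  unfold Fm
  rw [Finset.mul_sum]
  refine Finset.sum_congr rfl fun T hT => ?_
  rw [Finset.mem_powersetCard] at hT
  have h2 : ∀ c ∈ T, fth c (Run7.h433.moeb M Z) =
      (Run7.h433.aut M Z).det ^ (12 * m) * fth (permE π c) Z :=
    fun c hc => fth_law (hl Z hZ) (mem_Adm.1 (hT.1 hc)).1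
  rw [Finset.prod_congr rfl h2, Finset.prod_mul_distrib, Finset.prod_const, hT.2, ← pow_mul]
  congr 2; ring

theorem diff_prod {ι F : Type*} [NormedAddCommGroup F] [NormedSpace ℂ F] (f : ι → F → ℂ) (w₀ : F)
    (s : Finset ι) (h : ∀ i ∈ s, DifferentiableAt ℂ (f i) w₀) :
    DifferentiableAt ℂ (fun w => ∏ i ∈ s, f i w) w₀ := by
  classical
  induction s using Finset.induction_on with
  | empty => simp only [Finset.prod_empty]; exact differentiableAt_const _
  | insert i s hi ih =>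
    simp only [Finset.prod_insert hi]
    exact (h i (Finset.mem_insert_self i s)).mul
      (ih fun j hj => h j (Finset.mem_insert_of_mem hj))

theorem fth_diff (c : Chr g → ℕ) {w₀ : Sym2 (Fin g) → ℂ} (hw₀ : Lw w₀ ∈ upperHalf g) :
    DifferentiableAt ℂ (fun w => fth c (Lw w)) w₀ := by
  unfold fth
  refine diff_prod _ w₀ _ fun x _ => ?_
  exact (differentiableAt_th (lift x.1) (lift x.2) hw₀).pow _

theorem Fm_isForm (m j : ℕ) : IsForm g (12 * ((m * j : ℕ) : ℤ)) (Fm g m j) where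
  holo := by
    intro w₀ hw₀
    refine DifferentiableAt.differentiableWithinAt ?_
    show DifferentiableAt ℂ (fun w => Fm g m j (Lw w)) w₀
    unfold Fm
    refine DifferentiableAt.fun_sum fun T _ => ?_
    exact diff_prod (fun c w => fth c (Lw w)) w₀ T fun c _ => fth_diff c hw₀
  modular := by
    intro M hM Z hZ
    have h := Fm_modular (g := g) m j hM hZ
    have h2 : (12 * ((m * j : ℕ) : ℤ)) = ((12 * (m * j) : ℕ) : ℤ) := by push_cast; ring
    rw [h2, zpow_natCast]
    exact h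

theorem Fm_vanishes (m j : ℕ) : VanishesTo ((m * j : ℕ) : ℝ) (Fm g m j) := by
  intro Z hZ i
  have hv : ((Pi.single i 1, 0) : Chr g) ≠ 0 := by
    intro h
    have := congrFun (congrArg Prod.fst h) i
    simp at this
  unfold Fm
  refine IsBigO.fun_sum fun T hT => ?_
  rw [Finset.mem_powersetCard] at hT
  have h1 : ∀ c ∈ T, ∃ C : ℝ, 0 ≤ C ∧ ∀ τ : ℂ, 0 ≤ τ.im →
      ‖fth c (Z + Matrix.single i i τ)‖ ≤ C * Real.exp (-(2 * Real.pi * m * τ.im)) :=
    fun c hc => fth_isBigO hZ c i ((mem_Adm.1 (hT.1 hc)).2 _ hv)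
  choose! C hC0 hC using h1
  refine IsBigO.of_bound (∏ c ∈ T, C c) ?_
  have hev : ∀ᶠ τ : ℂ in comap Complex.im atTop, 0 ≤ τ.im :=
    (tendsto_comap (f := Complex.im) (x := atTop)).eventually (eventually_ge_atTop 0)
  filter_upwards [hev] with τ hτ
  rw [norm_prod]
  refine (Finset.prod_le_prod (fun c _ => norm_nonneg _) fun c hc => hC c hc τ hτ).trans ?_
  rw [Finset.prod_mul_distrib, Finset.prod_const, hT.2, ← Real.exp_nat_mul, Real.norm_of_nonneg (Real.exp_pos _).le]
  refine le_of_eq ?_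
  congr 2
  push_cast; ring

/-- if one of the numbers is non-zero then one of the elementary symmetric functions is -/
theorem exists_esymm_ne {ι : Type*} [DecidableEq ι] (s : Finset ι) (f : ι → ℂ) {i : ι} (hi : i ∈ s)
    (hf : f i ≠ 0) : ∃ j : ℕ, 1 ≤ j ∧ ∑ T ∈ s.powersetCard j, ∏ c ∈ T, f c ≠ 0 := by
  by_contra hc
  push Not at hc
  have h1 : ∏ c ∈ s, (f c + (-f i)) = 0 := Finset.prod_eq_zero hi (by ring)
  rw [Finset.prod_add] at h1
  have h2 : ∑ T ∈ s.powerset, (∏ c ∈ T, f c) * ∏ c ∈ s \ T, (-f i) =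
      ∑ j ∈ Finset.range (s.card + 1), (-f i) ^ (s.card - j) * ∑ T ∈ s.powersetCard j, ∏ c ∈ T, f c := by
    rw [Finset.sum_powerset]
    refine Finset.sum_congr rfl fun j hj => ?_
    rw [Finset.mul_sum]
    refine Finset.sum_congr rfl fun T hT => ?_
    rw [Finset.mem_powersetCard] at hT
    rw [Finset.prod_const, Finset.card_sdiff_of_subset hT.1, hT.2]
    ring
  rw [h2, Finset.sum_range_succ'] at h1
  rw [Finset.sum_eq_zero (fun j _ => by rw [hc (j + 1) (by omega), mul_zero])] at h1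
  simp at h1
  exact hf h1.1

namespace GData

variable {V E : Type} [Fintype E] [DecidableEq V] [DecidableEq E]
variable {src tgt : E → V} {B : Fin g → E → ℤ} {A : Matrix (Fin g) (Fin g) ℂ}

open Classical in
/-- **Main theorem.** -/
theorem exists_form (h : GData src tgt B A) :
    ∃ m : ℕ, 1 ≤ m ∧ ∃ F : Matrix (Fin g) (Fin g) ℂ → ℂ, IsForm g (12 * (m : ℤ)) F ∧
      VanishesTo m F ∧ ∃ L : ℂ, L ≠ 0 ∧
        ∀ (ι : Type) (l : Filter ι) (s : ι → E → ℂ) (A' : ι → Matrix (Fin g) (Fin g) ℂ),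
          (∀ e, Tendsto (fun k => (s k e).im) l atTop) →
          (∀ i j, Tendsto (fun k => A' k i j) l (𝓝 (A i j))) →
          Tendsto (fun k => F (nil B (s k) (A' k)) *
            cexp (-(2 * Real.pi * I * m * ∑ e, if ∃ i, B i e ≠ 0 then s k e else 0))) l (𝓝 L) := by
  obtain ⟨m, hm, c, h1, h2, h3, h4⟩ := h.exists_weight
  have hc : c ∈ Adm g m := mem_Adm.2 ⟨h1, h2⟩
  obtain ⟨j, hj, hne⟩ := exists_esymm_ne (Adm g m) (fun c => Lam B A m c) hc (Lam_ne_zero h3 h4)
  refine ⟨m * j, Nat.mul_pos hm hj, Fm g m j, Fm_isForm m j, Fm_vanishes m j, _, hne, ?_⟩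
  intro ι l s A' hs hA
  have h5 : ∀ k, Fm g m j (nil B (s k) (A' k)) *
      cexp (-(2 * Real.pi * I * ((m * j : ℕ) : ℂ) * ∑ e, if ∃ i, B i e ≠ 0 then s k e else 0)) =
      ∑ T ∈ (Adm g m).powersetCard j, ∏ c ∈ T, (fth c (nil B (s k) (A' k)) * nrm B m (s k)) := by
    intro k
    unfold Fm
    rw [Finset.sum_mul]
    refine Finset.sum_congr rfl fun T hT => ?_
    rw [Finset.mem_powersetCard] at hT
    rw [Finset.prod_mul_distrib, Finset.prod_const, hT.2]
    congr 1
    unfold nrm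
    rw [← Complex.exp_nat_mul]
    congr 1
    push_cast; ring
  simp only [h5]
  refine tendsto_finsetSum _ fun T hT => tendsto_finsetProd _ fun c hc => ?_
  rw [Finset.mem_powersetCard] at hT
  exact h.fth_limit s A' hs hA (mem_Adm.1 (hT.1 hc)).2

end GData

end Run7.h318
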