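import Pool.Agent.Run7.h433.Basic

/-!
# Generation of the integral symplectic group
-/

set_option autoImplicit false
set_option linter.unusedSectionVars false
set_option linter.unusedSimpArgs false

open Matrix

namespace Run7.h318

variable {n : Type*} [Fintype n] [DecidableEq n]

/-- the translation `Z ↦ Z + S` -/
def tM (S : Matrix n n ℤ) : Matrix (n ⊕ n) (n ⊕ n) ℤ := fromBlocks 1 S 0 1

/-- the base change `Z ↦ P Z Pᵀ` -/
def uM (P P' : Matrix n n ℤ) : Matrix (n ⊕ n) (n ⊕ n) ℤ := fromBlocks P 0 0 P'ᵀ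

/-- the partial inversion -/
def jM (k : n) : Matrix (n ⊕ n) (n ⊕ n) ℤ :=
  fromBlocks (diagonal (Function.update 1 k 0)) (diagonal (Pi.single k (-1)))
    (diagonal (Pi.single k 1)) (diagonal (Function.update 1 k 0))

/-- products of translations, base changes and partial inversions -/
inductive Gen : Matrix (n ⊕ n) (n ⊕ n) ℤ → Prop
  | one : Gen 1
  | t (S : Matrix n n ℤ) (M : Matrix (n ⊕ n) (n ⊕ n) ℤ) : Sᵀ = S → Gen M → Gen (tM S * M)
  | u (P P' : Matrix n n ℤ) (M : Matrix (n ⊕ n) (n ⊕ n) ℤ) : P * P' = 1 → P' * P = 1 → Gen M →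
      Gen (uM P P' * M)
  | j (k : n) (M : Matrix (n ⊕ n) (n ⊕ n) ℤ) : Gen M → Gen (jM k * M)

theorem tM_mulVec (S : Matrix n n ℤ) (p q : n → ℤ) :
    tM S *ᵥ Sum.elim p q = Sum.elim (p + S *ᵥ q) q := by
  unfold tM
  rw [fromBlocks_mulVec]
  simp [Sum.elim_comp_inl, Sum.elim_comp_inr]

theorem uM_mulVec (P P' : Matrix n n ℤ) (p q : n → ℤ) :
    uM P P' *ᵥ Sum.elim p q = Sum.elim (P *ᵥ p) (P'ᵀ *ᵥ q) := by
  unfold uM
  rw [fromBlocks_mulVec]
  simp [Sum.elim_comp_inl, Sum.elim_comp_inr]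

theorem jM_mulVec (k : n) (p q : n → ℤ) :
    jM k *ᵥ Sum.elim p q = Sum.elim (Function.update p k (-q k)) (Function.update q k (p k)) := by
  unfold jM
  rw [fromBlocks_mulVec]
  congr 1
  · funext i
    simp only [Sum.elim_comp_inl, Sum.elim_comp_inr, Pi.add_apply, mulVec_diagonal]
    by_cases h : i = k
    · subst h; simp
    · simp [h]
  · funext i
    simp only [Sum.elim_comp_inl, Sum.elim_comp_inr, Pi.add_apply, mulVec_diagonal]
    by_cases h : i = k
    · subst h; simp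
    · simp [h]

theorem tM_mem {S : Matrix n n ℤ} (hS : Sᵀ = S) : tM S ∈ symplecticGroup n ℤ := by
  unfold tM
  rw [SymplecticGroup.fromBlocks_mem_iff]
  simp [hS]

theorem uM_mem {P P' : Matrix n n ℤ} (h' : P' * P = 1) :
    uM P P' ∈ symplecticGroup n ℤ := by
  unfold uM
  rw [SymplecticGroup.fromBlocks_mem_iff]
  refine ⟨by simp, by simp, ?_⟩
  rw [← Matrix.transpose_mul, h']
  simp

theorem jM_mem (k : n) : jM k ∈ symplecticGroup n ℤ := by
  unfold jM
  rw [SymplecticGroup.fromBlocks_mem_iff]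
  simp only [diagonal_transpose, diagonal_mul_diagonal, diagonal_sub]
  refine ⟨by congr 1; funext i; ring, by congr 1; funext i; ring, ?_⟩
  rw [← diagonal_one]
  congr 1
  funext i
  by_cases h : i = k
  · subst h; simp
  · simp [h]

theorem ext_mulVec {M N : Matrix (n ⊕ n) (n ⊕ n) ℤ}
    (h : ∀ p q : n → ℤ, M *ᵥ Sum.elim p q = N *ᵥ Sum.elim p q) : M = N := by
  apply Matrix.ext_of_mulVec_single
  intro i
  have := h ((Pi.single i 1 : n ⊕ n → ℤ) ∘ Sum.inl) ((Pi.single i 1 : n ⊕ n → ℤ) ∘ Sum.inr)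
  rwa [Sum.elim_comp_inl_inr] at this

theorem tM_inv (S : Matrix n n ℤ) : tM (-S) * tM S = 1 := by
  apply ext_mulVec
  intro p q
  rw [← mulVec_mulVec, tM_mulVec, tM_mulVec, one_mulVec, neg_mulVec]
  congr 1
  abel

theorem uM_inv {P P' : Matrix n n ℤ} (h' : P' * P = 1) :
    uM P' P * uM P P' = 1 := by
  apply ext_mulVec
  intro p q
  rw [← mulVec_mulVec, uM_mulVec, uM_mulVec, one_mulVec, mulVec_mulVec, mulVec_mulVec, h',
    ← transpose_mul, h']
  simp

theorem jM_inv (k : n) : jM k * (jM k * (jM k * jM k)) = 1 := by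
  apply ext_mulVec
  intro p q
  rw [← mulVec_mulVec, ← mulVec_mulVec, ← mulVec_mulVec, jM_mulVec, jM_mulVec, jM_mulVec,
    jM_mulVec, one_mulVec]
  simp

theorem Gen.t_inv {S : Matrix n n ℤ} {M : Matrix (n ⊕ n) (n ⊕ n) ℤ} (hS : Sᵀ = S)
    (h : Gen (tM S * M)) : Gen M := by
  have := Gen.t (-S) _ (by rw [transpose_neg, hS]) h
  rwa [← Matrix.mul_assoc, tM_inv, Matrix.one_mul] at this

theorem Gen.u_inv {P P' : Matrix n n ℤ} {M : Matrix (n ⊕ n) (n ⊕ n) ℤ} (h1 : P * P' = 1)
    (h2 : P' * P = 1) (h : Gen (uM P P' * M)) : Gen M := by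
  have := Gen.u P' P _ h2 h1 h
  rwa [← Matrix.mul_assoc, uM_inv h2, Matrix.one_mul] at this

theorem Gen.j_inv {k : n} {M : Matrix (n ⊕ n) (n ⊕ n) ℤ} (h : Gen (jM k * M)) : Gen M := by
  have := Gen.j k _ (Gen.j k _ (Gen.j k _ h))
  rwa [show jM k * (jM k * (jM k * (jM k * M))) = (jM k * (jM k * (jM k * jM k))) * M by
    simp only [Matrix.mul_assoc], jM_inv, Matrix.one_mul] at this

/-- `M` fixes the basis vectors with index in `S` -/
def Fx (S : Finset n) (M : Matrix (n ⊕ n) (n ⊕ n) ℤ) : Prop :=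
  ∀ j ∈ S, M *ᵥ Sum.elim (Pi.single j 1) 0 = Sum.elim (Pi.single j (1 : ℤ)) (0 : n → ℤ) ∧
    M *ᵥ Sum.elim 0 (Pi.single j 1) = Sum.elim (0 : n → ℤ) (Pi.single j (1 : ℤ))

/-- elementary operations which fix the basis vectors with index in `S` -/
structure El (S : Finset n) (δ : Matrix (n ⊕ n) (n ⊕ n) ℤ) : Prop where
  mem : δ ∈ symplecticGroup n ℤ
  fix : Fx S δ
  gen : ∀ M, Gen (δ * M) → Gen M

theorem Fx.mul {S : Finset n} {M N : Matrix (n ⊕ n) (n ⊕ n) ℤ} (hM : Fx S M) (hN : Fx S N) :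
    Fx S (M * N) := by
  intro j hj
  rw [← mulVec_mulVec, ← mulVec_mulVec, (hN j hj).1, (hN j hj).2]
  exact hM j hj

theorem El.one (S : Finset n) : El S 1 :=
  ⟨Submonoid.one_mem _, fun j _ => ⟨one_mulVec _, one_mulVec _⟩,
    fun M h => by rwa [Matrix.one_mul] at h⟩

theorem El.mul {S : Finset n} {δ δ' : Matrix (n ⊕ n) (n ⊕ n) ℤ} (h : El S δ) (h' : El S δ') :
    El S (δ * δ') :=
  ⟨Submonoid.mul_mem _ h.mem h'.mem, h.fix.mul h'.fix, fun M hM => by
    rw [Matrix.mul_assoc] at hM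
    exact h'.gen M (h.gen _ hM)⟩

theorem El.t {S : Finset n} {T : Matrix n n ℤ} (hT : Tᵀ = T)
    (hS : ∀ j ∈ S, T *ᵥ Pi.single j 1 = 0) : El S (tM T) := by
  refine ⟨tM_mem hT, fun j hj => ⟨?_, ?_⟩, fun M h => h.t_inv hT⟩
  · rw [tM_mulVec, mulVec_zero, add_zero]
  · rw [tM_mulVec, hS j hj, add_zero]

theorem El.u {S : Finset n} {P P' : Matrix n n ℤ} (h1 : P * P' = 1) (h2 : P' * P = 1)
    (hP : ∀ j ∈ S, P *ᵥ Pi.single j 1 = Pi.single j 1)
    (hP' : ∀ j ∈ S, P'ᵀ *ᵥ Pi.single j 1 = Pi.single j 1) : El S (uM P P') := by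
  refine ⟨uM_mem h2, fun j hj => ⟨?_, ?_⟩, fun M h => h.u_inv h1 h2⟩
  · rw [uM_mulVec, mulVec_zero, hP j hj]
  · rw [uM_mulVec, mulVec_zero, hP' j hj]

theorem El.j {S : Finset n} {k : n} (hk : k ∉ S) : El S (jM k) := by
  refine ⟨jM_mem k, fun j hj => ?_, fun M h => h.j_inv⟩
  have hjk : j ≠ k := fun h => hk (h ▸ hj)
  constructor
  · rw [jM_mulVec]
    congr 1
    · funext l
      by_cases h : l = k
      · subst h; simp [Pi.single_apply, hjk.symm]
      · simp [h]
    · funext l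
      by_cases h : l = k
      · subst h; simp [Pi.single_apply, hjk.symm]
      · simp [h]
  · rw [jM_mulVec]
    congr 1
    · funext l
      by_cases h : l = k
      · subst h; simp [Pi.single_apply, hjk.symm]
      · simp [h]
    · funext l
      by_cases h : l = k
      · subst h; simp [Pi.single_apply, hjk.symm]
      · simp [h]

/-- the symplectic form -/
def om (x y : n ⊕ n → ℤ) : ℤ := x ⬝ᵥ (Matrix.J n ℤ *ᵥ y)

theorem om_mulVec {M : Matrix (n ⊕ n) (n ⊕ n) ℤ} (hM : M ∈ symplecticGroup n ℤ) (x y : n ⊕ n → ℤ) :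
    om (M *ᵥ x) (M *ᵥ y) = om x y := by
  unfold om
  rw [SymplecticGroup.mem_iff'] at hM
  conv_rhs => rw [← hM]
  rw [← mulVec_mulVec, ← mulVec_mulVec, ← vecMul_transpose, ← dotProduct_mulVec]

theorem om_left (j : n) (p q : n → ℤ) :
    om (Sum.elim (Pi.single j 1) 0) (Sum.elim p q) = -q j := by
  unfold om Matrix.J
  rw [fromBlocks_mulVec, sumElim_dotProduct_sumElim]
  simp [Sum.elim_comp_inl, Sum.elim_comp_inr, neg_mulVec]

theorem om_right (j : n) (p q : n → ℤ) :
    om (Sum.elim 0 (Pi.single j 1)) (Sum.elim p q) = p j := by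
  unfold om Matrix.J
  rw [fromBlocks_mulVec, sumElim_dotProduct_sumElim]
  simp [Sum.elim_comp_inl, Sum.elim_comp_inr]

theorem supp_of_fix {S : Finset n} {M : Matrix (n ⊕ n) (n ⊕ n) ℤ} (hM : M ∈ symplecticGroup n ℤ)
    (hf : Fx S M) {p q p' q' : n → ℤ} (h : M *ᵥ Sum.elim p q = Sum.elim p' q')
    {j : n} (hj : j ∈ S) : p' j = p j ∧ q' j = q j := by
  have h1 := om_mulVec hM (Sum.elim (Pi.single j (1 : ℤ)) (0 : n → ℤ)) (Sum.elim p q)
  have h2 := om_mulVec hM (Sum.elim (0 : n → ℤ) (Pi.single j (1 : ℤ))) (Sum.elim p q)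
  rw [(hf j hj).1, h, om_left, om_left] at h1
  rw [(hf j hj).2, h, om_right, om_right] at h2
  exact ⟨h2, neg_injective h1⟩

/-- the norm of a vector -/
def Nm (p q : n → ℤ) : ℕ := ∑ i, ((p i).natAbs + (q i).natAbs)

theorem Nm_lt {p q p' q' : n → ℤ} {k : n}
    (h : ∀ i, i ≠ k → (p' i).natAbs + (q' i).natAbs = (p i).natAbs + (q i).natAbs)
    (hk : (p' k).natAbs + (q' k).natAbs < (p k).natAbs + (q k).natAbs) : Nm p' q' < Nm p q := by
  unfold Nm
  refine Finset.sum_lt_sum (fun i _ => ?_) ⟨k, Finset.mem_univ k, hk⟩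
  by_cases hi : i = k
  · subst hi; exact hk.le
  · exact (h i hi).le

/-- minimality of the norm of a vector -/
def Mn (S : Finset n) (p q : n → ℤ) : Prop :=
  ∀ δ, El S δ → ∀ p' q' : n → ℤ, δ *ᵥ Sum.elim p q = Sum.elim p' q' → Nm p q ≤ Nm p' q'

theorem Nm_jM (k : n) (p q : n → ℤ) :
    Nm (Function.update p k (-q k)) (Function.update q k (p k)) = Nm p q := by
  unfold Nm
  refine Finset.sum_congr rfl fun i _ => ?_
  by_cases hi : i = k
  · subst hi; simp [add_comm]
  · simp [hi]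

theorem Mn.j {S : Finset n} {p q : n → ℤ} (h : Mn S p q) {k : n} (hk : k ∉ S) :
    Mn S (Function.update p k (-q k)) (Function.update q k (p k)) := by
  intro δ hδ p' q' he
  rw [Nm_jM]
  refine h (δ * jM k) (hδ.mul (El.j hk)) p' q' ?_
  rw [← mulVec_mulVec, jM_mulVec, he]

theorem single_mulVec' (k l : n) (c : ℤ) (q : n → ℤ) :
    Matrix.single k l c *ᵥ q = Pi.single k (c * q l) := by
  funext i
  rw [Matrix.single_mulVec]
  by_cases h : i = k
  · subst h; simp
  · simp [h]

theorem transvection_mulVec (k l : n) (c : ℤ) (p : n → ℤ) :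
    Matrix.transvection k l c *ᵥ p = Function.update p k (p k + c * p l) := by
  funext i
  unfold Matrix.transvection
  rw [Matrix.add_mulVec, Matrix.one_mulVec, single_mulVec', Pi.add_apply]
  by_cases h : i = k
  · subst h; simp
  · simp [h]

theorem transvection_transpose (k l : n) (c : ℤ) :
    (Matrix.transvection k l c)ᵀ = Matrix.transvection l k c := by
  unfold Matrix.transvection
  rw [transpose_add, transpose_one, transpose_single]

theorem El.tt {S : Finset n} {k : n} (hk : k ∉ S) (c : ℤ) : El S (tM (Matrix.single k k c)) := by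
  refine El.t (transpose_single k k c) fun j hj => ?_
  have hjk : k ≠ j := fun h => hk (h ▸ hj)
  rw [single_mulVec', Pi.single_eq_of_ne hjk]
  simp

theorem El.uu {S : Finset n} {k l : n} (hk : k ∉ S) (hl : l ∉ S) (hkl : k ≠ l) (c : ℤ) :
    El S (uM (Matrix.transvection k l c) (Matrix.transvection k l (-c))) := by
  refine El.u ?_ ?_ ?_ ?_
  · rw [Matrix.transvection_mul_transvection_same _ _ hkl, add_neg_cancel,
      Matrix.transvection_zero]
  · rw [Matrix.transvection_mul_transvection_same _ _ hkl, neg_add_cancel,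
      Matrix.transvection_zero]
  · intro j hj
    have hjl : l ≠ j := fun h => hl (h ▸ hj)
    rw [transvection_mulVec, Pi.single_eq_of_ne hjl, mul_zero, add_zero, Function.update_eq_self]
  · intro j hj
    have hjk : k ≠ j := fun h => hk (h ▸ hj)
    rw [transvection_transpose, transvection_mulVec, Pi.single_eq_of_ne hjk, mul_zero, add_zero,
      Function.update_eq_self]

theorem exists_c {x y : ℤ} (hx : x ≠ 0) (hy : y ≠ 0) (h : y.natAbs ≤ x.natAbs) :
    ∃ c : ℤ, (x + c * y).natAbs < x.natAbs := by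
  rcases lt_or_gt_of_ne hx with h1 | h1
  · rcases lt_or_gt_of_ne hy with h2 | h2
    · exact ⟨-1, by omega⟩
    · exact ⟨1, by omega⟩
  · rcases lt_or_gt_of_ne hy with h2 | h2
    · exact ⟨1, by omega⟩
    · exact ⟨-1, by omega⟩

theorem Mn.A0 {S : Finset n} {p q : n → ℤ} (h : Mn S p q) {k : n} (hk : k ∉ S)
    (hp : p k ≠ 0) (hq : q k ≠ 0) (hle : (q k).natAbs ≤ (p k).natAbs) : False := by
  obtain ⟨c, hc⟩ := exists_c hp hq hle
  have h1 : tM (Matrix.single k k c) *ᵥ Sum.elim p q =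
      Sum.elim (Function.update p k (p k + c * q k)) q := by
    rw [tM_mulVec, single_mulVec']
    congr 1
    funext i
    by_cases hi : i = k
    · subst hi; simp
    · simp [hi]
  have h2 := h _ (El.tt hk c) _ _ h1
  have h3 : Nm (Function.update p k (p k + c * q k)) q < Nm p q := by
    refine Nm_lt (k := k) (fun i hi => ?_) ?_
    · simp [hi]
    · simpa using hc
  omega

theorem Mn.A {S : Finset n} {p q : n → ℤ} (h : Mn S p q) {k : n} (hk : k ∉ S) :
    p k = 0 ∨ q k = 0 := by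
  by_contra hc
  push Not at hc
  rcases le_total (q k).natAbs (p k).natAbs with hle | hle
  · exact h.A0 hk hc.1 hc.2 hle
  · refine (h.j hk).A0 hk (by simpa using hc.2) (by simpa using hc.1) (by simpa using hle)

theorem Mn.B0 {S : Finset n} {p q : n → ℤ} (h : Mn S p q) {k l : n} (hk : k ∉ S) (hl : l ∉ S)
    (hkl : k ≠ l) (hpk : p k ≠ 0) (hpl : p l ≠ 0) (hqk : q k = 0)
    (hle : (p l).natAbs ≤ (p k).natAbs) : False := by
  obtain ⟨c, hc⟩ := exists_c hpk hpl hle
  have h1 : uM (Matrix.transvection k l c) (Matrix.transvection k l (-c)) *ᵥ Sum.elim p q =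
      Sum.elim (Function.update p k (p k + c * p l)) q := by
    rw [uM_mulVec, transvection_mulVec, transvection_transpose, transvection_mulVec, hqk,
      mul_zero, add_zero, Function.update_eq_self]
  have h2 := h _ (El.uu hk hl hkl c) _ _ h1
  have h3 : Nm (Function.update p k (p k + c * p l)) q < Nm p q := by
    refine Nm_lt (k := k) (fun i hi => ?_) ?_
    · simp [hi]
    · simpa using hc
  omega

theorem Mn.B {S : Finset n} {p q : n → ℤ} (h : Mn S p q) {k l : n} (hk : k ∉ S) (hl : l ∉ S)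
    (hkl : k ≠ l) (hpk : p k ≠ 0) (hpl : p l ≠ 0) : False := by
  have hqk := (h.A hk).resolve_left hpk
  have hql := (h.A hl).resolve_left hpl
  rcases le_total (p l).natAbs (p k).natAbs with hle | hle
  · exact h.B0 hk hl hkl hpk hpl hqk hle
  · exact h.B0 hl hk hkl.symm hpl hpk hql hle

/-- reduction of a vector -/
theorem reduce_vec {S : Finset n} {i : n} (hi : i ∉ S) {p q : n → ℤ}
    (hne : ∃ k, p k ≠ 0 ∨ q k ≠ 0) (hS : ∀ j ∈ S, p j = 0 ∧ q j = 0) :
    ∃ δ, El S δ ∧ ∃ d : ℤ, δ *ᵥ Sum.elim p q = Sum.elim (Pi.single i d) 0 := by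
  classical
  -- a minimal vector
  have hex : ∃ t : ℕ, ∃ δ, El S δ ∧ ∃ p' q' : n → ℤ, δ *ᵥ Sum.elim p q = Sum.elim p' q' ∧
      Nm p' q' = t := ⟨_, 1, El.one S, p, q, by rw [one_mulVec], rfl⟩
  obtain ⟨δ, hδ, p', q', he, hN⟩ := Nat.find_spec hex
  have hmin : Mn S p' q' := by
    intro δ' hδ' p'' q'' he'
    rw [hN]
    refine Nat.find_min' hex ⟨δ' * δ, hδ'.mul hδ, p'', q'', ?_, rfl⟩
    rw [← mulVec_mulVec, he, he']
  have hS' : ∀ j ∈ S, p' j = 0 ∧ q' j = 0 := by
    intro j hj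
    have := supp_of_fix hδ.mem hδ.fix he hj
    rw [this.1, this.2]
    exact hS j hj
  have hne' : ∃ k, p' k ≠ 0 ∨ q' k ≠ 0 := by
    by_contra hc
    push Not at hc
    have h0 : δ *ᵥ Sum.elim p q = 0 := by
      rw [he]
      funext α
      rcases α with j | j
      · exact (hc j).1
      · exact (hc j).2
    have hu : IsUnit δ.det := SymplecticGroup.symplectic_det hδ.mem
    have h1 : Sum.elim p q = 0 := by
      have := congrArg (fun v => δ⁻¹ *ᵥ v) h0
      simpa [mulVec_mulVec, nonsing_inv_mul _ hu] using this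
    obtain ⟨k, hk⟩ := hne
    rcases hk with hk | hk
    · exact hk (congrFun h1 (Sum.inl k))
    · exact hk (congrFun h1 (Sum.inr k))
  -- it suffices to treat minimal vectors with a non-zero upper entry
  have main : ∀ p' q' : n → ℤ, Mn S p' q' → (∀ j ∈ S, p' j = 0 ∧ q' j = 0) → (∃ k, p' k ≠ 0) →
      ∃ δ, El S δ ∧ ∃ d : ℤ, δ *ᵥ Sum.elim p' q' = Sum.elim (Pi.single i d) 0 := by
    rintro p q hmin hS ⟨k, hk⟩
    have hkS : k ∉ S := fun h => hk (hS k h).1
    have hqk : q k = 0 := (hmin.A hkS).resolve_left hk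
    have hp : ∀ l, l ≠ k → p l = 0 := by
      intro l hl
      by_contra hc
      have hlS : l ∉ S := fun h => hc (hS l h).1
      exact hmin.B hkS hlS hl.symm hk hc
    have hq : ∀ l, l ≠ k → q l = 0 := by
      intro l hl
      by_contra hc
      have hlS : l ∉ S := fun h => hc (hS l h).2
      refine (hmin.j hlS).B hkS hlS hl.symm ?_ ?_
      · rw [Function.update_of_ne hl.symm]; exact hk
      · rw [Function.update_self]; simpa using hc
    have hp' : p = Pi.single k (p k) := by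
      funext l
      by_cases h : l = k
      · subst h; simp
      · simp [h, hp l h]
    have hq' : q = 0 := by
      funext l
      by_cases h : l = k
      · subst h; exact hqk
      · exact hq l h
    rw [hq', hp']
    by_cases hik : i = k
    · subst hik
      exact ⟨1, El.one S, p i, by rw [one_mulVec]⟩
    · refine ⟨_, (El.uu hkS hi (Ne.symm hik) (-1)).mul (El.uu hi hkS hik 1), p k, ?_⟩
      rw [← mulVec_mulVec, uM_mulVec, uM_mulVec, transvection_mulVec, transvection_mulVec]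
      simp only [mulVec_zero]
      congr 1
      funext l
      by_cases h1 : l = k
      · subst h1
        simp [Ne.symm hik]
      · by_cases h2 : l = i
        · subst h2
          simp [h1]
        · simp [h1, h2]
  obtain ⟨k, hk⟩ := hne'
  have hkS : k ∉ S := by
    intro h
    rcases hk with hk | hk
    · exact hk (hS' k h).1
    · exact hk (hS' k h).2
  rcases hk with hk | hk
  · obtain ⟨δ', hδ', d, hd⟩ := main p' q' hmin hS' ⟨k, hk⟩
    exact ⟨δ' * δ, hδ'.mul hδ, d, by rw [← mulVec_mulVec, he, hd]⟩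
  · obtain ⟨δ', hδ', d, hd⟩ := main _ _ (hmin.j hkS) (by
      intro j hj
      have hjk : j ≠ k := fun h => hkS (h ▸ hj)
      rw [Function.update_of_ne hjk, Function.update_of_ne hjk]
      exact hS' j hj) ⟨k, by rw [Function.update_self]; simpa using hk⟩
    exact ⟨δ' * (jM k * δ), hδ'.mul ((El.j hkS).mul hδ), d, by
      rw [← mulVec_mulVec, ← mulVec_mulVec, he, jM_mulVec, hd]⟩

theorem eq_one_of_fix {M : Matrix (n ⊕ n) (n ⊕ n) ℤ} (h : Fx Finset.univ M) : M = 1 := by
  apply Matrix.ext_of_mulVec_single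
  intro α
  rcases α with j | j
  · have : (Pi.single (Sum.inl j) 1 : n ⊕ n → ℤ) = Sum.elim (Pi.single j 1) 0 := by
      funext β
      rcases β with l | l
      · by_cases hl : l = j
        · subst hl; simp
        · simp [hl]
      · simp
    rw [this, (h j (Finset.mem_univ j)).1, one_mulVec]
  · have : (Pi.single (Sum.inr j) 1 : n ⊕ n → ℤ) = Sum.elim (0 : n → ℤ) (Pi.single j 1) := by
      funext β
      rcases β with l | l
      · simp
      · by_cases hl : l = j
        · subst hl; simp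
        · simp [hl]
    rw [this, (h j (Finset.mem_univ j)).2, one_mulVec]

theorem om_left' (i : n) (d : ℤ) (p q : n → ℤ) :
    om (Sum.elim (Pi.single i d) 0) (Sum.elim p q) = -(d * q i) := by
  unfold om Matrix.J
  rw [fromBlocks_mulVec, sumElim_dotProduct_sumElim]
  simp [Sum.elim_comp_inl, Sum.elim_comp_inr, neg_mulVec]

theorem exists_elim (v : n ⊕ n → ℤ) : ∃ p q : n → ℤ, v = Sum.elim p q :=
  ⟨v ∘ Sum.inl, v ∘ Sum.inr, (Sum.elim_comp_inl_inr v).symm⟩

/-- the matrix `T` with `T eᵢ = -p` -/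
def TT (i : n) (p : n → ℤ) : Matrix n n ℤ :=
  Matrix.of fun k l => -(if l = i then p k else 0) - (if k = i then p l else 0) +
    (if k = i ∧ l = i then p i else 0)

theorem TT_symm (i : n) (p : n → ℤ) : (TT i p)ᵀ = TT i p := by
  ext k l
  simp only [TT, transpose_apply, of_apply]
  have : (if l = i ∧ k = i then p i else 0) = (if k = i ∧ l = i then p i else 0) := by
    by_cases h1 : l = i <;> by_cases h2 : k = i <;> simp [h1, h2]
  rw [this]
  ring

theorem TT_self (i : n) (p : n → ℤ) : TT i p *ᵥ Pi.single i 1 = -p := by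
  funext k
  rw [mulVec_single_one]
  simp only [TT, col_apply, of_apply, Pi.neg_apply]
  by_cases h : k = i
  · subst h; simp
  · simp [h]

theorem TT_of {i j : n} (hij : j ≠ i) {p : n → ℤ} (hp : p j = 0) : TT i p *ᵥ Pi.single j 1 = 0 := by
  funext k
  rw [mulVec_single_one]
  simp only [TT, col_apply, of_apply, Pi.zero_apply]
  simp [hij, hp]

/-- reduction of a pair of vectors -/
theorem reduce_pair {S : Finset n} {i : n} (hi : i ∉ S) {p q : n → ℤ}
    (hqi : q i = 1) (hS : ∀ j ∈ S, p j = 0 ∧ q j = 0) :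
    ∃ δ, El S δ ∧ δ *ᵥ Sum.elim (Pi.single i 1) 0 = Sum.elim (Pi.single i (1 : ℤ)) (0 : n → ℤ) ∧
      δ *ᵥ Sum.elim p q = Sum.elim (0 : n → ℤ) (Pi.single i (1 : ℤ)) := by
  set q' : n → ℤ := Function.update q i 0 with hq'
  have hq'i : q' i = 0 := by simp [hq']
  set N : Matrix n n ℤ := vecMulVec (Pi.single i 1) q' with hN
  have hNN : N * N = 0 := by
    rw [hN, vecMulVec_mul_vecMulVec]
    have : q' ⬝ᵥ (Pi.single i 1 : n → ℤ) = 0 := by simp [hq'i]
    rw [this]
    ext k l
    simp [vecMulVec_apply]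
  have hNv : ∀ x : n → ℤ, N *ᵥ x = Pi.single i (q' ⬝ᵥ x) := by
    intro x
    funext k
    rw [hN, vecMulVec_mulVec]
    by_cases h : k = i
    · subst h; simp
    · simp [h]
  have hNt : ∀ x : n → ℤ, Nᵀ *ᵥ x = fun k => q' k * x i := by
    intro x
    funext k
    rw [hN, transpose_vecMulVec, vecMulVec_mulVec]
    simp [mul_comm]
  have h1 : (1 + N) * (1 - N) = 1 := by
    have : (1 + N) * (1 - N) = 1 - N * N := by noncomm_ring
    rw [this, hNN, sub_zero]
  have h2 : (1 - N) * (1 + N) = 1 := by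
    have : (1 - N) * (1 + N) = 1 - N * N := by noncomm_ring
    rw [this, hNN, sub_zero]
  set p₂ : n → ℤ := p + Pi.single i (q' ⬝ᵥ p) with hp₂
  have hne : ∀ j ∈ S, j ≠ i := fun j hj h => hi (h ▸ hj)
  have hu : El S (uM (1 + N) (1 - N)) := by
    refine El.u h1 h2 (fun j hj => ?_) (fun j hj => ?_)
    · rw [add_mulVec, one_mulVec, hNv]
      have : q' ⬝ᵥ (Pi.single j 1 : n → ℤ) = 0 := by
        simp only [dotProduct_single_one]
        rw [hq', Function.update_of_ne (hne j hj)]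
        exact (hS j hj).2
      rw [this]; simp
    · rw [transpose_sub, sub_mulVec, transpose_one, one_mulVec, hNt]
      funext k
      simp [hne j hj, Pi.single_apply, (hne j hj).symm]
  have ht : El S (tM (TT i p₂)) := by
    refine El.t (TT_symm i p₂) fun j hj => TT_of (hne j hj) ?_
    rw [hp₂, Pi.add_apply, Pi.single_eq_of_ne (hne j hj), (hS j hj).1, add_zero]
  refine ⟨_, ht.mul hu, ?_, ?_⟩
  · rw [← mulVec_mulVec, uM_mulVec, mulVec_zero, tM_mulVec, mulVec_zero, add_zero, add_mulVec,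
      one_mulVec, hNv]
    have : q' ⬝ᵥ (Pi.single i 1 : n → ℤ) = 0 := by simp [hq'i]
    rw [this]; simp
  · rw [← mulVec_mulVec, uM_mulVec, tM_mulVec]
    have e1 : (1 - N)ᵀ *ᵥ q = Pi.single i 1 := by
      rw [transpose_sub, sub_mulVec, transpose_one, one_mulVec, hNt]
      funext k
      by_cases h : k = i
      · subst h; simp [hq'i, hqi]
      · simp [h, hqi, hq']
    have e2 : (1 + N) *ᵥ p = p₂ := by
      rw [add_mulVec, one_mulVec, hNv]
    rw [e1, e2, TT_self]
    congr 1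
    abel

theorem gen_of_fix : ∀ (m : ℕ) (S : Finset n), (Finset.univ \ S).card = m →
    ∀ M ∈ symplecticGroup n ℤ, Fx S M → Gen M := by
  intro m
  induction m with
  | zero =>
    intro S hS M _ hf
    rw [Finset.card_eq_zero, Finset.sdiff_eq_empty_iff_subset, Finset.univ_subset_iff] at hS
    subst hS
    rw [eq_one_of_fix hf]
    exact Gen.one
  | succ m ih =>
    intro S hS M hM hf
    obtain ⟨i, hi⟩ : (Finset.univ \ S).Nonempty := by
      rw [← Finset.card_pos]; omega
    have hiS : i ∉ S := (Finset.mem_sdiff.1 hi).2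
    have hcard : (Finset.univ \ insert i S).card = m := by
      have : Finset.univ \ insert i S = (Finset.univ \ S).erase i := by
        ext x; simp [not_or, and_comm]
      rw [this, Finset.card_erase_of_mem hi, hS]; rfl
    have hne : ∀ j ∈ S, j ≠ i := fun j hj h => hiS (h ▸ hj)
    -- first vector
    obtain ⟨p, q, hpq⟩ := exists_elim (M *ᵥ Sum.elim (Pi.single i (1 : ℤ)) (0 : n → ℤ))
    obtain ⟨pf, qf, hpqf⟩ := exists_elim (M *ᵥ Sum.elim (0 : n → ℤ) (Pi.single i (1 : ℤ)))
    have hef : om (Sum.elim (Pi.single i (1 : ℤ)) (0 : n → ℤ)) (Sum.elim (0 : n → ℤ) (Pi.single i (1 : ℤ))) = -1 := by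
      rw [om_left]; simp
    have hk : ∃ k, p k ≠ 0 ∨ q k ≠ 0 := by
      by_contra hc
      push Not at hc
      have h0 : Sum.elim p q = 0 := by
        funext α
        rcases α with j | j
        · exact (hc j).1
        · exact (hc j).2
      have := om_mulVec hM (Sum.elim (Pi.single i (1 : ℤ)) (0 : n → ℤ)) (Sum.elim (0 : n → ℤ) (Pi.single i (1 : ℤ)))
      rw [hpq, h0, hef] at this
      unfold om at this
      rw [zero_dotProduct] at this
      omega
    have hsupp : ∀ j ∈ S, p j = 0 ∧ q j = 0 := by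
      intro j hj
      have := supp_of_fix hM hf hpq hj
      rw [this.1, this.2, Pi.single_eq_of_ne (hne j hj)]
      exact ⟨rfl, rfl⟩
    obtain ⟨δ, hδ, d, hd⟩ := reduce_vec hiS hk hsupp
    -- the content is a unit
    have hδM : δ * M ∈ symplecticGroup n ℤ := Submonoid.mul_mem _ hδ.mem hM
    have hed : (δ * M) *ᵥ Sum.elim (Pi.single i (1 : ℤ)) (0 : n → ℤ) = Sum.elim (Pi.single i d) 0 := by
      rw [← mulVec_mulVec, hpq, hd]
    have hunit : d = 1 ∨ d = -1 := by
      obtain ⟨pf, qf, hpqf⟩ := exists_elim ((δ * M) *ᵥ Sum.elim (0 : n → ℤ) (Pi.single i (1 : ℤ)))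
      have := om_mulVec hδM (Sum.elim (Pi.single i (1 : ℤ)) (0 : n → ℤ)) (Sum.elim (0 : n → ℤ) (Pi.single i (1 : ℤ)))
      rw [hed, hpqf, hef, om_left'] at this
      have h1 : d * qf i = 1 := by linarith
      exact Int.isUnit_iff.1 (IsUnit.of_mul_eq_one _ h1)
    obtain ⟨δ₁, hδ₁, hd₁⟩ : ∃ δ₁, El S δ₁ ∧ (δ₁ * M) *ᵥ Sum.elim (Pi.single i (1 : ℤ)) (0 : n → ℤ) =
        Sum.elim (Pi.single i 1) 0 := by
      rcases hunit with h | h
      · exact ⟨δ, hδ, by rw [hed, h]⟩
      · refine ⟨jM i * (jM i * δ), (El.j hiS).mul ((El.j hiS).mul hδ), ?_⟩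
        rw [Matrix.mul_assoc, Matrix.mul_assoc, ← mulVec_mulVec, ← mulVec_mulVec, hed, h, jM_mulVec,
          jM_mulVec]
        congr 1
        · funext k
          by_cases hk : k = i
          · subst hk; simp
          · simp [hk]
        · funext k
          by_cases hk : k = i
          · subst hk; simp
          · simp [hk]
    have hM₁ : δ₁ * M ∈ symplecticGroup n ℤ := Submonoid.mul_mem _ hδ₁.mem hM
    have hf₁ : Fx S (δ₁ * M) := hδ₁.fix.mul hf
    obtain ⟨p₁, q₁, hpq₁⟩ := exists_elim ((δ₁ * M) *ᵥ Sum.elim (0 : n → ℤ) (Pi.single i (1 : ℤ)))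
    have hq₁ : q₁ i = 1 := by
      have := om_mulVec hM₁ (Sum.elim (Pi.single i (1 : ℤ)) (0 : n → ℤ)) (Sum.elim (0 : n → ℤ) (Pi.single i (1 : ℤ)))
      rw [hd₁, hpq₁, hef, om_left] at this
      omega
    have hsupp₁ : ∀ j ∈ S, p₁ j = 0 ∧ q₁ j = 0 := by
      intro j hj
      have := supp_of_fix hM₁ hf₁ hpq₁ hj
      rw [this.1, this.2, Pi.single_eq_of_ne (hne j hj)]
      exact ⟨rfl, rfl⟩
    obtain ⟨δ₂, hδ₂, h1, h2⟩ := reduce_pair hiS hq₁ hsupp₁
    have hfin : Gen (δ₂ * (δ₁ * M)) := by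
      refine ih (insert i S) hcard _ (Submonoid.mul_mem _ hδ₂.mem hM₁) ?_
      intro j hj
      rcases Finset.mem_insert.1 hj with hj | hj
      · subst hj
        constructor
        · rw [← mulVec_mulVec, hd₁, h1]
        · rw [← mulVec_mulVec, hpq₁, h2]
      · exact (hδ₂.fix.mul hf₁) j hj
    exact hδ₁.gen _ (hδ₂.gen _ hfin)

/-- **Generation.** Every integral symplectic matrix is a product of translations, base changes
and partial inversions. -/
theorem gen_symplectic {M : Matrix (n ⊕ n) (n ⊕ n) ℤ} (hM : M ∈ symplecticGroup n ℤ) : Gen M :=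
  gen_of_fix _ ∅ rfl M hM (fun j hj => absurd hj (Finset.notMem_empty j))

end Run7.h318
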