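import Mathlib

/-!
# Two fixed point free involutions have a common 2-colouring
-/

set_option autoImplicit false

namespace Run7.h318

open Equiv

/-- a fixed point free involution has a 2-colouring -/
theorem exists_color_of_invol {Q : Type*} (f : Q → Q) (hf : ∀ q, f (f q) = q) (hne : ∀ q, f q ≠ q) :
    ∃ s : Q → Bool, ∀ q, s (f q) = !(s q) := by
  classical
  let _ : LinearOrder Q := linearOrderOfSTO (WellOrderingRel (α := Q))
  refine ⟨fun q => decide (q < f q), fun q => ?_⟩
  show decide (f q < f (f q)) = !decide (q < f q)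
  rw [hf q]
  rcases lt_trichotomy q (f q) with h | h | h
  · simp [h, not_lt_of_gt h]
  · exact absurd h.symm (hne q)
  · simp [h, not_lt_of_gt h]

theorem exists_color_of_two_invol {H : Type*} (i s : Perm H) (hi : ∀ h, i (i h) = h)
    (hs : ∀ h, s (s h) = h) (hin : ∀ h, i h ≠ h) (hsn : ∀ h, s h ≠ h) :
    ∃ c : H → Bool, (∀ h, c (i h) = !(c h)) ∧ ∀ h, c (s h) = !(c h) := by
  classical
  have hii : i * i = 1 := by ext h; simp [hi]
  have hss : s * s = 1 := by ext h; simp [hs]
  have hinv : i⁻¹ = i := inv_eq_of_mul_eq_one_left hii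
  have hsinv : s⁻¹ = s := inv_eq_of_mul_eq_one_left hss
  set p : Perm H := s * i with hp
  have hpinv : p⁻¹ = i * s := by rw [hp, mul_inv_rev, hinv, hsinv]
  have hconj : i * p * i⁻¹ = p⁻¹ := by
    rw [hpinv, hinv, hp]
    calc i * (s * i) * i = i * s * (i * i) := by group
      _ = i * s := by rw [hii, mul_one]
  have hconjz : ∀ k : ℤ, i * p ^ k * i⁻¹ = p ^ (-k) := by
    intro k
    rw [← conj_zpow, hconj, inv_zpow, zpow_neg]
  have hconj' : ∀ (k : ℤ) (h : H), i ((p ^ k) (i h)) = (p ^ (-k)) h := by
    intro k h
    have := congrArg (fun q : Perm H => q h) (hconjz k)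
    simpa [hinv] using this
  have hnot : ∀ h, ¬ Perm.SameCycle p h (i h) := by
    rintro h ⟨k, hk⟩
    rcases Int.even_or_odd' k with ⟨l, hl | hl⟩
    · apply hin ((p ^ l) h)
      have h1 : (p ^ (-l)) (i h) = i ((p ^ l) h) := by
        rw [← hconj' l (i h), hi]
      have h2 : (p ^ (-l)) (i h) = (p ^ l) h := by
        rw [← hk, ← Perm.mul_apply, ← zpow_add, hl]
        congr 2
        ring
      rw [← h1, h2]
    · apply hsn (i ((p ^ l) h))
      have h1 : (p ^ (-l)) (i h) = i ((p ^ l) h) := by
        rw [← hconj' l (i h), hi]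
      have h2 : (p ^ (-l)) (i h) = (p ^ (1 + l)) h := by
        rw [← hk, ← Perm.mul_apply, ← zpow_add, hl]
        congr 2
        ring
      have h3 : (p ^ (1 + l)) h = s (i ((p ^ l) h)) := by
        rw [zpow_add, zpow_one, Perm.mul_apply, hp, Perm.mul_apply]
      rw [← h3, ← h2, h1]
  let S : Setoid H := Perm.SameCycle.setoid p
  have hresp : ∀ a b : H, S.r a b → S.r (i a) (i b) := by
    rintro a b ⟨k, hk⟩
    refine ⟨-k, ?_⟩
    rw [← hconj' k (i a), hi, hk]
  let f : Quotient S → Quotient S := Quotient.map i hresp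
  obtain ⟨c, hc⟩ := exists_color_of_invol f
    (fun q => by
      induction q using Quotient.inductionOn with
      | h a => simp [f, hi])
    (fun q => by
      induction q using Quotient.inductionOn with
      | h a =>
        intro h
        have h' : (Quotient.mk S (i a)) = Quotient.mk S a := by simpa [f] using h
        have := Quotient.exact h'
        exact hnot a (Perm.SameCycle.symm this))
  refine ⟨fun h => c (Quotient.mk S h), fun h => ?_, fun h => ?_⟩
  · have := hc (Quotient.mk S h)
    simpa [f] using this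
  · have h1 : Quotient.mk S (s h) = Quotient.mk S (i h) := by
      apply Quotient.sound
      refine ⟨-1, ?_⟩
      have : p (i h) = s h := by rw [hp, Perm.mul_apply, hi]
      rw [← this, zpow_neg, zpow_one]
      simp
    have := hc (Quotient.mk S h)
    show c (Quotient.mk S (s h)) = !(c (Quotient.mk S h))
    rw [h1]
    simpa [f] using this

end Run7.h318
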