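import Pool.Agent.Run7.h318.Defs
import Pool.Agent.Run7.h318.Invol

/-!
# Flows on multigraphs of valence at most three
-/

set_option autoImplicit false
set_option linter.unusedSectionVars false

namespace Run7.h318

open Finset

variable {V E : Type} [Fintype E] [DecidableEq V] [DecidableEq E] {src tgt : E → V}

/-- the vertex of a half edge -/
def vert (src tgt : E → V) (h : E × Bool) : V := if h.2 then tgt h.1 else src h.1

/-- the value of a flow on a half edge, directed away from its vertex -/
def sval (z : E → ℤ) (h : E × Bool) : ℤ := if h.2 then -z h.1 else z h.1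

theorem sval_ne {z : E → ℤ} {h : E × Bool} : sval z h ≠ 0 ↔ z h.1 ≠ 0 := by
  unfold sval; split_ifs <;> simp

theorem sum_half {M : Type*} [AddCommMonoid M] (f : E × Bool → M) (x : V) :
    ∑ h : E × Bool with vert src tgt h = x, f h =
      ∑ e with src e = x, f (e, false) + ∑ e with tgt e = x, f (e, true) := by
  rw [Finset.sum_filter, Fintype.sum_prod_type, Finset.sum_filter, Finset.sum_filter,
    ← Finset.sum_add_distrib]
  refine Finset.sum_congr rfl fun e _ => ?_
  rw [Fintype.sum_bool, add_comm]
  simp [vert]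

theorem isFlow_iff {z : E → ℤ} :
    IsFlow src tgt z ↔ ∀ x, ∑ h : E × Bool with vert src tgt h = x, sval z h = 0 := by
  unfold IsFlow
  refine forall_congr' fun x => ?_
  rw [sum_half]
  simp only [sval, Bool.false_eq_true, if_false, if_true, Finset.sum_neg_distrib]
  constructor <;> intro h <;> linarith

theorem card_half (x : V) :
    (Finset.univ.filter fun h : E × Bool => vert src tgt h = x).card = valence src tgt x := by
  rw [Finset.card_eq_sum_ones, sum_half, valence, Finset.card_eq_sum_ones, Finset.card_eq_sum_ones]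

theorem exists_other {z : E → ℤ} (hz : IsFlow src tgt z) {h : E × Bool} (hh : z h.1 ≠ 0) :
    ∃ h' : E × Bool, h' ≠ h ∧ vert src tgt h' = vert src tgt h ∧ z h'.1 ≠ 0 := by
  by_contra hcon
  push Not at hcon
  have h0 := (isFlow_iff.1 hz) (vert src tgt h)
  rw [Finset.sum_eq_single h] at h0
  · exact (sval_ne.2 hh) h0
  · intro b hb hne
    have := hcon b hne (Finset.mem_filter.1 hb).2
    by_contra hc
    exact (sval_ne.1 hc) this
  · intro hn
    exact absurd (by simp) hn

/-- key property: complementary subflows are vertex disjoint -/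
theorem key (hval : ∀ x, valence src tgt x ≤ 3) {z w : E → ℤ} (hz : IsFlow src tgt z)
    (hw : IsFlow src tgt w) (hwz : ∀ e, w e = 0 ∨ w e = z e) {h k : E × Bool}
    (hv : vert src tgt h = vert src tgt k) (h1 : w h.1 ≠ 0) (h2 : z k.1 - w k.1 ≠ 0) : False := by
  have hzw : IsFlow src tgt (fun e => z e - w e) := by
    intro x
    rw [Finset.sum_sub_distrib, Finset.sum_sub_distrib, hz x, hw x]
  obtain ⟨h', hne, hv', hh'⟩ := exists_other hw h1
  obtain ⟨k', kne, kv', hk'⟩ := exists_other hzw (h := k) h2
  have hd : ∀ a b : E × Bool, w a.1 ≠ 0 → z b.1 - w b.1 ≠ 0 → a ≠ b := by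
    rintro a b ha hb rfl
    rcases hwz a.1 with h | h
    · exact ha h
    · apply hb; rw [h]; ring
  have hsub : ({h, h', k, k'} : Finset (E × Bool)) ⊆
      Finset.univ.filter fun a : E × Bool => vert src tgt a = vert src tgt h := by
    intro a ha
    simp only [Finset.mem_insert, Finset.mem_singleton] at ha
    simp only [Finset.mem_filter, Finset.mem_univ, true_and]
    rcases ha with rfl | rfl | rfl | rfl
    · rfl
    · exact hv'
    · exact hv.symm
    · rw [kv', hv]
  have hcard : ({h, h', k, k'} : Finset (E × Bool)).card = 4 := by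
    rw [Finset.card_insert_of_notMem, Finset.card_insert_of_notMem, Finset.card_insert_of_notMem,
      Finset.card_singleton]
    · simp only [Finset.mem_singleton]; exact kne.symm
    · simp only [Finset.mem_insert, Finset.mem_singleton, not_or]
      exact ⟨hd _ _ hh' h2, hd _ _ hh' hk'⟩
    · simp only [Finset.mem_insert, Finset.mem_singleton, not_or]
      exact ⟨hne.symm, hd _ _ h1 h2, hd _ _ h1 hk'⟩
  have := Finset.card_le_card hsub
  rw [hcard, card_half] at this
  have := hval (vert src tgt h)
  omega

theorem key_disj (hval : ∀ x, valence src tgt x ≤ 3) {z w : E → ℤ} (hz : IsFlow src tgt z)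
    (hw : IsFlow src tgt w) (hwz : ∀ e, w e = 0 ∨ w e = z e) :
    VertexDisjoint src tgt w (fun e => z e - w e) := by
  intro e e' he he'
  refine ⟨fun h => ?_, fun h => ?_, fun h => ?_, fun h => ?_⟩
  · exact key hval hz hw hwz (h := (e, false)) (k := (e', false)) (by simpa [vert] using h) he he'
  · exact key hval hz hw hwz (h := (e, false)) (k := (e', true)) (by simpa [vert] using h) he he'
  · exact key hval hz hw hwz (h := (e, true)) (k := (e', false)) (by simpa [vert] using h) he he'
  · exact key hval hz hw hwz (h := (e, true)) (k := (e', true)) (by simpa [vert] using h) he he'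

/-- at each vertex a subflow is everything or nothing -/
theorem all_or_none (hval : ∀ x, valence src tgt x ≤ 3) {z w : E → ℤ} (hz : IsFlow src tgt z)
    (hw : IsFlow src tgt w) (hwz : ∀ e, w e = 0 ∨ w e = z e) (x : V) :
    (∀ h : E × Bool, vert src tgt h = x → w h.1 = z h.1) ∨
      (∀ h : E × Bool, vert src tgt h = x → w h.1 = 0) := by
  by_cases hc : ∀ h : E × Bool, vert src tgt h = x → w h.1 = 0
  · exact Or.inr hc
  · left
    push Not at hc
    obtain ⟨h, hx, hh⟩ := hc
    intro k hk
    by_contra hne
    exact key hval hz hw hwz (h := h) (k := k) (by rw [hx, hk]) hh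
      (sub_ne_zero.2 (Ne.symm hne))

/-- Boolean combinations of subflows are subflows -/
theorem isFlow_comb (hval : ∀ x, valence src tgt x ≤ 3) {z w w' : E → ℤ} (hz : IsFlow src tgt z)
    (hw : IsFlow src tgt w) (hwz : ∀ e, w e = 0 ∨ w e = z e)
    (hw' : IsFlow src tgt w') (hwz' : ∀ e, w' e = 0 ∨ w' e = z e) :
    IsFlow src tgt (fun e => if w e = 0 then 0 else w' e) := by
  rw [isFlow_iff]
  intro x
  have hsv : ∀ h : E × Bool, sval (fun e => if w e = 0 then 0 else w' e) h =
      if w h.1 = 0 then 0 else sval w' h := by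
    intro h; unfold sval; split_ifs <;> simp_all
  simp only [hsv]
  rcases all_or_none hval hz hw hwz x with h | h
  · have h0 := (isFlow_iff.1 hw') x
    refine Eq.trans ?_ h0
    refine Finset.sum_congr rfl fun k hk => ?_
    have hk' := (Finset.mem_filter.1 hk).2
    by_cases hzk : w k.1 = 0
    · rw [if_pos hzk]
      have : z k.1 = 0 := by rw [← h k hk', hzk]
      have hw'k : w' k.1 = 0 := by
        rcases hwz' k.1 with h | h
        · exact h
        · rw [h, this]
      unfold sval; rw [hw'k]; simp
    · rw [if_neg hzk]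
  · apply Finset.sum_eq_zero
    intro k hk
    rw [if_pos (h k (Finset.mem_filter.1 hk).2)]

/-- an even set of edges of a multigraph of valence at most three has an Eulerian orientation -/
theorem exists_orient (hval : ∀ x, valence src tgt x ≤ 3) (y : E → ℤ) (hy : IsFlow src tgt y) :
    ∃ z : E → ℤ, IsFlow src tgt z ∧ (∀ e, |z e| ≤ 1) ∧ ∀ e, z e % 2 = y e % 2 := by
  classical
  -- the half edges with odd value
  let O : Type := {h : E × Bool // y h.1 % 2 = 1}
  -- the number of odd half edges at a vertex is 0 or 2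
  have hev : ∀ x, Even ((Finset.univ.filter fun h : E × Bool =>
      vert src tgt h = x ∧ y h.1 % 2 = 1).card) := by
    intro x
    have h0 := (isFlow_iff.1 hy) x
    have h1 : ((∑ h : E × Bool with vert src tgt h = x, sval y h : ℤ) : ZMod 2) = 0 := by
      rw [h0]; simp
    have h2 : ∀ h : E × Bool, ((sval y h : ℤ) : ZMod 2) = if y h.1 % 2 = 1 then 1 else 0 := by
      intro h
      have hs : ((sval y h : ℤ) : ZMod 2) = ((y h.1 : ℤ) : ZMod 2) := by
        unfold sval; split_ifs
        · push_cast; exact ZMod.neg_eq_self_mod_two _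
        · rfl
      rw [hs]
      split_ifs with h3
      · have : ((y h.1 : ℤ) : ZMod 2) = ((1 : ℤ) : ZMod 2) := by
          rw [ZMod.intCast_eq_intCast_iff]; exact h3
        simpa using this
      · have : ((y h.1 : ℤ) : ZMod 2) = ((0 : ℤ) : ZMod 2) := by
          rw [ZMod.intCast_eq_intCast_iff]
          show y h.1 % 2 = 0 % 2
          omega
        simpa using this
    rw [Int.cast_sum] at h1
    simp only [h2] at h1
    rw [Finset.sum_ite, Finset.sum_const_zero, add_zero, Finset.sum_const, nsmul_eq_mul, mul_one,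
      Finset.filter_filter] at h1
    exact (ZMod.natCast_eq_zero_iff_even).1 h1
  have hle : ∀ x, (Finset.univ.filter fun h : E × Bool =>
      vert src tgt h = x ∧ y h.1 % 2 = 1).card ≤ 3 := by
    intro x
    refine le_trans (Finset.card_le_card ?_) (le_trans (card_half (src := src) (tgt := tgt) x).le
      (hval x))
    intro h hh
    simp only [Finset.mem_filter, Finset.mem_univ, true_and] at hh ⊢
    exact hh.1
  have htwo : ∀ h : O, ∃ h' : O, h' ≠ h ∧ vert src tgt h'.1 = vert src tgt h.1 ∧
      ∀ k : O, vert src tgt k.1 = vert src tgt h.1 → k = h ∨ k = h' := by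
    intro h
    set S := Finset.univ.filter fun k : E × Bool =>
      vert src tgt k = vert src tgt h.1 ∧ y k.1 % 2 = 1 with hS
    have hmem : h.1 ∈ S := by simp [hS, h.2]
    have hpos : 0 < S.card := Finset.card_pos.2 ⟨_, hmem⟩
    have hcard : S.card = 2 := by
      have h1 := hev (vert src tgt h.1)
      have h2 := hle (vert src tgt h.1)
      rw [← hS] at h1 h2
      obtain ⟨m, hm⟩ := h1
      omega
    obtain ⟨a, b, hab, hSab⟩ := Finset.card_eq_two.1 hcard
    have ha : a ∈ S := by rw [hSab]; simp
    have hb : b ∈ S := by rw [hSab]; simp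
    have hmem' : h.1 = a ∨ h.1 = b := by
      rw [hSab] at hmem; simpa using hmem
    have hk : ∀ k : O, vert src tgt k.1 = vert src tgt h.1 → k.1 = a ∨ k.1 = b := by
      intro k hk
      have : k.1 ∈ S := by simp [hS, k.2, hk]
      rw [hSab] at this; simpa using this
    simp only [hS, Finset.mem_filter, Finset.mem_univ, true_and] at ha hb
    rcases hmem' with h1 | h1
    · refine ⟨⟨b, hb.2⟩, ?_, hb.1, ?_⟩
      · intro hc; apply hab; rw [← h1, ← hc]
      · intro k hkk
        rcases hk k hkk with h2 | h2
        · left; apply Subtype.ext; rw [h2, h1]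
        · right; apply Subtype.ext; exact h2
    · refine ⟨⟨a, ha.2⟩, ?_, ha.1, ?_⟩
      · intro hc; apply hab; rw [← h1, ← hc]
      · intro k hkk
        rcases hk k hkk with h2 | h2
        · right; apply Subtype.ext; exact h2
        · left; apply Subtype.ext; rw [h2, h1]
  choose s hsne hsv hsu using htwo
  have hss : ∀ h, s (s h) = h := by
    intro h
    have h1 : vert src tgt (s (s h)).1 = vert src tgt h.1 := by rw [hsv, hsv]
    rcases hsu h (s (s h)) h1 with h2 | h2
    · exact h2
    · exact absurd h2 (hsne (s h))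
  let i : O → O := fun h => ⟨(h.1.1, !h.1.2), h.2⟩
  have hii : ∀ h, i (i h) = h := by
    rintro ⟨⟨e, b⟩, hb⟩; simp [i]
  have hine : ∀ h, i h ≠ h := by
    rintro ⟨⟨e, b⟩, hb⟩ hc
    have := congrArg (fun q : O => q.1.2) hc
    simp [i] at this
  obtain ⟨c, hc1, hc2⟩ := exists_color_of_two_invol (Function.Involutive.toPerm i hii)
    (Function.Involutive.toPerm s hss) hii hss hine hsne
  let z : E → ℤ := fun e => if h : y e % 2 = 1 then (if c ⟨(e, false), h⟩ then 1 else -1) else 0
  have hz : ∀ h : E × Bool, sval z h = if hh : y h.1 % 2 = 1 then (if c ⟨h, hh⟩ then 1 else -1) else 0 := by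
    rintro ⟨e, b⟩
    unfold sval
    cases b with
    | false => simp [z]
    | true =>
      by_cases h : y e % 2 = 1
      · have h1 : c ⟨(e, true), h⟩ = !(c ⟨(e, false), h⟩) := hc1 ⟨(e, false), h⟩
        simp only [if_true, z, h, dif_pos, h1]
        cases c ⟨(e, false), h⟩ <;> simp
      · simp [z, h]
  refine ⟨z, ?_, ?_, ?_⟩
  · rw [isFlow_iff]
    intro x
    -- the involution s cancels
    refine Finset.sum_involution (fun h _ => if hh : y h.1 % 2 = 1 then (s ⟨h, hh⟩).1 else h)
      ?_ ?_ ?_ ?_
    · intro h hh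
      rw [hz, hz]
      by_cases h1 : y h.1 % 2 = 1
      · have h2 : c (s ⟨h, h1⟩) = !(c ⟨h, h1⟩) := hc2 ⟨h, h1⟩
        have h3 : y (s ⟨h, h1⟩).1.1 % 2 = 1 := (s ⟨h, h1⟩).2
        simp only [h1, dif_pos]
        rw [dif_pos h3]
        have h4 : (⟨(s ⟨h, h1⟩).1, h3⟩ : O) = s ⟨h, h1⟩ := rfl
        rw [h4, h2]
        cases c ⟨h, h1⟩ <;> simp
      · simp [h1]
    · intro h hh hne
      rw [hz] at hne
      by_cases h1 : y h.1 % 2 = 1
      · simp only [h1, dif_pos]
        intro hcon
        exact hsne ⟨h, h1⟩ (Subtype.ext hcon)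
      · simp [h1] at hne
    · intro h hh
      by_cases h1 : y h.1 % 2 = 1
      · simp only [h1, dif_pos]
        simp only [Finset.mem_filter, Finset.mem_univ, true_and] at hh ⊢
        rw [hsv]; exact hh
      · simp only [h1, dif_neg, not_false_eq_true]; exact hh
    · intro h hh
      by_cases h1 : y h.1 % 2 = 1
      · simp only [h1, dif_pos]
        have h3 : y (s ⟨h, h1⟩).1.1 % 2 = 1 := (s ⟨h, h1⟩).2
        rw [dif_pos h3]
        have h4 : (⟨(s ⟨h, h1⟩).1, h3⟩ : O) = s ⟨h, h1⟩ := rfl
        rw [h4, hss]
      · simp [h1]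
  · intro e
    simp only [z]
    split_ifs <;> simp
  · intro e
    simp only [z]
    split_ifs with h1 h2
    · rw [h1]; rfl
    · rw [h1]; rfl
    · omega

end Run7.h318
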