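import Pool.Agent.Run7.h318.Siegel

/-!
# Theta constants are holomorphic
-/

set_option autoImplicit false
set_option linter.unusedSectionVars false
set_option linter.unusedSimpArgs false

open Complex Filter Topology Run7.h433.Slope

namespace Run7.h318

variable {g : ℕ}

theorem qf_norm_le (A : Matrix (Fin g) (Fin g) ℂ) {C : ℝ} (hC0 : 0 ≤ C) (hC : ∀ i j, ‖A i j‖ ≤ C)
    (x : Fin g → ℤ) : ‖qf A x‖ ≤ (g : ℝ) * C * ∑ i, ((x i : ℤ) : ℝ) ^ 2 := by
  unfold qf
  refine (norm_sum_le _ _).trans ?_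
  refine (Finset.sum_le_sum fun i _ => norm_sum_le _ _).trans ?_
  have h2 : ∀ i j, ‖(x i : ℂ) * A i j * (x j : ℂ)‖ ≤ C * (((x i : ℤ) : ℝ) ^ 2 / 2 + ((x j : ℤ) : ℝ) ^ 2 / 2) := by
    intro i j
    rw [norm_mul, norm_mul, Complex.norm_intCast, Complex.norm_intCast]
    have h3 : |(x i : ℝ)| * |(x j : ℝ)| ≤ (x i : ℝ) ^ 2 / 2 + (x j : ℝ) ^ 2 / 2 := by
      have := sq_nonneg (|(x i : ℝ)| - |(x j : ℝ)|)
      have e1 := sq_abs (x i : ℝ)
      have e2 := sq_abs (x j : ℝ)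
      nlinarith
    calc |(x i : ℝ)| * ‖A i j‖ * |(x j : ℝ)| = ‖A i j‖ * (|(x i : ℝ)| * |(x j : ℝ)|) := by ring
      _ ≤ C * (|(x i : ℝ)| * |(x j : ℝ)|) := by
          apply mul_le_mul_of_nonneg_right (hC i j); positivity
      _ ≤ _ := mul_le_mul_of_nonneg_left h3 hC0
  refine (Finset.sum_le_sum fun i _ => Finset.sum_le_sum fun j _ => h2 i j).trans ?_
  simp only [mul_add, Finset.sum_add_distrib, Finset.sum_const, Finset.card_univ, Fintype.card_fin,
    nsmul_eq_mul, ← Finset.mul_sum, ← Finset.sum_div]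
  have : ∑ i : Fin g, (g : ℝ) * (C * ((x i : ℝ) ^ 2 / 2)) = (g : ℝ) * C * (∑ i, (x i : ℝ) ^ 2) / 2 := by
    rw [← Finset.mul_sum, ← Finset.mul_sum, ← Finset.sum_div]; ring
  ring_nf
  linarith

/-- the symmetric matrix with coordinates `w` -/
def Lw (w : Sym2 (Fin g) → ℂ) : Matrix (Fin g) (Fin g) ℂ := Matrix.of fun i j => w s(i, j)

/-- the quadratic form as a linear function of the coordinates -/
noncomputable def qL (x : Fin g → ℤ) : (Sym2 (Fin g) → ℂ) →L[ℂ] ℂ :=
  LinearMap.toContinuousLinearMap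
    { toFun := fun w => qf (Lw w) x
      map_add' := fun w w' => by
        unfold qf Lw
        rw [← Finset.sum_add_distrib]
        refine Finset.sum_congr rfl fun i _ => ?_
        rw [← Finset.sum_add_distrib]
        refine Finset.sum_congr rfl fun j _ => ?_
        simp only [Matrix.of_apply, Pi.add_apply]; ring
      map_smul' := fun c w => by
        unfold qf Lw
        simp only [RingHom.id_apply, smul_eq_mul]
        rw [Finset.mul_sum]
        refine Finset.sum_congr rfl fun i _ => ?_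
        rw [Finset.mul_sum]
        refine Finset.sum_congr rfl fun j _ => ?_
        simp only [Matrix.of_apply, Pi.smul_apply, smul_eq_mul]; ring }

theorem qL_apply (x : Fin g → ℤ) (w : Sym2 (Fin g) → ℂ) : qL x w = qf (Lw w) x := rfl

theorem norm_qL_le (x : Fin g → ℤ) : ‖qL x‖ ≤ (g : ℝ) * ∑ i, ((x i : ℤ) : ℝ) ^ 2 := by
  refine ContinuousLinearMap.opNorm_le_bound _ (by positivity) fun w => ?_
  rw [qL_apply]
  refine (qf_norm_le (Lw w) (norm_nonneg w) (fun i j => ?_) x).trans (le_of_eq ?_)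
  · exact norm_le_pi_norm w s(i, j)
  · ring

theorem differentiableAt_th (a b : Fin g → ℤ) {w₀ : Sym2 (Fin g) → ℂ} (hw₀ : Lw w₀ ∈ upperHalf g) :
    DifferentiableAt ℂ (fun w => th a b (Lw w)) w₀ := by
  obtain ⟨c, hc, hcx⟩ := pos_lower hw₀
  set ε : ℝ := c / (2 * (g + 1)) with hε
  have hε0 : 0 < ε := by positivity
  have hlow : ∀ w ∈ Metric.ball w₀ ε, ∀ x : Fin g → ℤ,
      c / 2 * ∑ i, ((x i : ℤ) : ℝ) ^ 2 ≤ (qf (Lw w) x).im := by
    intro w hw x
    have h1 : qf (Lw w) x = qf (Lw w₀) x + qL x (w - w₀) := by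
      rw [map_sub, qL_apply, qL_apply]; ring
    have h2 : ‖qL x (w - w₀)‖ ≤ (g : ℝ) * (∑ i, ((x i : ℤ) : ℝ) ^ 2) * ε := by
      refine ((qL x).le_opNorm _).trans ?_
      refine mul_le_mul (norm_qL_le x) ?_ (norm_nonneg _) (by positivity)
      rw [← dist_eq_norm]
      exact (Metric.mem_ball.1 hw).le
    have h3 := (abs_le.1 ((Complex.abs_im_le_norm (qL x (w - w₀))).trans h2)).1
    have h4 := hcx x
    rw [h1, Complex.add_im]
    have h5 : (g : ℝ) * ε ≤ c / 2 := by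
      rw [hε]
      have : (g : ℝ) * (c / (2 * (g + 1))) = c / 2 * (g / (g + 1)) := by field_simp
      rw [this]
      have h6 : (g : ℝ) / (g + 1) ≤ 1 := by
        rw [div_le_one (by positivity)]; linarith
      have : 0 < c / 2 := by positivity
      nlinarith
    have h7 : 0 ≤ ∑ i, ((x i : ℤ) : ℝ) ^ 2 := by positivity
    nlinarith
  set κ : (Fin g → ℤ) → ℂ := fun n =>
    Real.pi * I / 2 * ∑ i, (((2 * n + a : Fin g → ℤ) i : ℤ) : ℂ) * (b i : ℂ) with hκ
  have hterm : ∀ n w, tterm a b (Lw w) n = cexp (Real.pi * I / 4 * qL (2 * n + a) w + κ n) := by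
    intro n w; rfl
  have hnorm : ∀ n, ∀ w ∈ Metric.ball w₀ ε, ‖tterm a b (Lw w) n‖ ≤
      Real.exp (-(Real.pi / 4 * (c / 2)) * ∑ i, (((2 * n + a) i : ℤ) : ℝ) ^ 2) := by
    intro n w hw
    rw [norm_tterm]
    apply Real.exp_le_exp.2
    have := hlow w hw (2 * n + a)
    have hpi := Real.pi_pos
    nlinarith
  have hderiv : ∀ n w, w ∈ Metric.ball w₀ ε → HasFDerivAt (fun w => tterm a b (Lw w) n)
      (tterm a b (Lw w) n • ((Real.pi * I / 4 : ℂ) • qL (2 * n + a))) w := by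
    intro n w _
    have h1 : HasFDerivAt (fun w => (Real.pi * I / 4 : ℂ) * qL (2 * n + a) w + κ n)
        ((Real.pi * I / 4 : ℂ) • qL (2 * n + a)) w :=
      ((qL (2 * n + a)).hasFDerivAt.const_mul _).add_const _
    exact h1.cexp
  set δ : ℝ := Real.pi / 4 * (c / 4) with hδ
  have hδ0 : 0 < δ := by have := Real.pi_pos; positivity
  have hbound : ∀ n, ∀ w ∈ Metric.ball w₀ ε,
      ‖tterm a b (Lw w) n • ((Real.pi * I / 4 : ℂ) • qL (2 * n + a))‖ ≤
        (Real.pi / 4 * g * δ⁻¹) * Real.exp (-δ * ∑ i, (((2 * n + a) i : ℤ) : ℝ) ^ 2) := by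
    intro n w hw
    rw [norm_smul, norm_smul]
    have h1 : ‖(Real.pi * I / 4 : ℂ)‖ = Real.pi / 4 := by
      rw [norm_div, norm_mul, Complex.norm_I, Complex.norm_real, Real.norm_of_nonneg Real.pi_pos.le]
      norm_num
    rw [h1]
    set t : ℝ := ∑ i, (((2 * n + a) i : ℤ) : ℝ) ^ 2 with ht
    have ht0 : 0 ≤ t := by positivity
    have h2 : t ≤ δ⁻¹ * Real.exp (δ * t) := by
      rw [← div_le_iff₀' (inv_pos.2 hδ0), div_inv_eq_mul]
      have := Real.add_one_le_exp (δ * t)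
      linarith
    have hpi := Real.pi_pos
    calc ‖tterm a b (Lw w) n‖ * (Real.pi / 4 * ‖qL (2 * n + a)‖)
        ≤ Real.exp (-(Real.pi / 4 * (c / 2)) * t) * (Real.pi / 4 * (g * t)) := by
          refine mul_le_mul (hnorm n w hw) ?_ (by positivity) (Real.exp_pos _).le
          exact mul_le_mul_of_nonneg_left (norm_qL_le _) (by positivity)
      _ ≤ Real.exp (-(Real.pi / 4 * (c / 2)) * t) * (Real.pi / 4 * (g * (δ⁻¹ * Real.exp (δ * t)))) := by
          gcongr
      _ = (Real.pi / 4 * g * δ⁻¹) * (Real.exp (-(Real.pi / 4 * (c / 2)) * t) * Real.exp (δ * t)) := by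
          ring
      _ = _ := by
          rw [← Real.exp_add]
          congr 2
          rw [hδ]; ring
  have hsum : Summable fun n : Fin g → ℤ =>
      (Real.pi / 4 * g * δ⁻¹) * Real.exp (-δ * ∑ i, (((2 * n + a) i : ℤ) : ℝ) ^ 2) :=
    (summable_gauss a hδ0).mul_left _
  have h := hasFDerivAt_tsum_of_isPreconnected (𝕜 := ℂ) (u := fun n : Fin g → ℤ =>
      (Real.pi / 4 * g * δ⁻¹) * Real.exp (-δ * ∑ i, (((2 * n + a) i : ℤ) : ℝ) ^ 2))
    hsum Metric.isOpen_ball ((convex_ball w₀ ε).isPreconnected) hderiv hbound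
    (Metric.mem_ball_self hε0) (summable_tterm hw₀ a b) (Metric.mem_ball_self hε0)
  exact h.differentiableAt

end Run7.h318
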