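import Pool.Agent.Run7.h318.Transf

/-!
# Transformation law of theta constants under partial inversions
-/

set_option autoImplicit false
set_option linter.unusedSectionVars false
set_option linter.unusedSimpArgs false

open Complex Filter Topology Run7.h433.Slope

namespace Run7.h318

variable {g : ℕ}

/-- one dimensional theta sums -/
noncomputable def G1 (a b : ℤ) (w τ : ℂ) : ℂ :=
  ∑' t : ℤ, cexp (Real.pi * I / 4 * (τ * ((2 * t + a : ℤ) : ℂ) ^ 2) +
    Real.pi * I / 2 * (((2 * t + a : ℤ) : ℂ) * (w + b)))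

theorem G1_eq (a b : ℤ) (w τ : ℂ) : G1 a b w τ =
    cexp (Real.pi * I / 4 * (τ * a ^ 2) + Real.pi * I / 2 * (a * (w + b))) *
      jacobiTheta₂ ((a * τ + w + b) / 2) τ := by
  unfold G1 jacobiTheta₂
  rw [← tsum_mul_left]
  refine tsum_congr fun t => ?_
  unfold jacobiTheta₂_term
  rw [← Complex.exp_add]
  congr 1
  push_cast
  ring

theorem G1_inv (a b : ℤ) (w τ : ℂ) (hτ : τ ≠ 0) :
    cexp (-(Real.pi * I / 4 * (w ^ 2 / τ))) * G1 a b (w / τ) (-1 / τ) =
      ((-I * τ) ^ (1 / 2 : ℂ) * cexp (Real.pi * I / 2 * (a * b))) * G1 b (-a) w τ := by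
  rw [G1_eq, G1_eq, jacobiTheta₂_functional_equation ((b * τ + w + ((-a : ℤ) : ℂ)) / 2) τ]
  have h0 : (-I * τ) ^ (1 / 2 : ℂ) ≠ 0 := by
    rw [Complex.cpow_ne_zero_iff]
    left
    exact mul_ne_zero (neg_ne_zero.2 I_ne_zero) hτ
  have harg : (((b : ℂ) * τ + w + ((-a : ℤ) : ℂ)) / 2) / τ = ((a : ℂ) * (-1 / τ) + w / τ + b) / 2 := by
    push_cast
    field_simp
    ring
  rw [harg]
  have hexp : cexp (-(Real.pi * I / 4 * (w ^ 2 / τ))) *
      cexp (Real.pi * I / 4 * (-1 / τ * a ^ 2) + Real.pi * I / 2 * (a * (w / τ + b))) =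
      cexp (Real.pi * I / 2 * (a * b)) *
        (cexp (Real.pi * I / 4 * (τ * b ^ 2) + Real.pi * I / 2 * (b * (w + ((-a : ℤ) : ℂ)))) *
          cexp (-Real.pi * I * (((b : ℂ) * τ + w + ((-a : ℤ) : ℂ)) / 2) ^ 2 / τ)) := by
    rw [← Complex.exp_add, ← Complex.exp_add, ← Complex.exp_add]
    congr 1
    push_cast
    field_simp
    ring
  calc cexp (-(Real.pi * I / 4 * (w ^ 2 / τ))) *
      (cexp (Real.pi * I / 4 * (-1 / τ * a ^ 2) + Real.pi * I / 2 * (a * (w / τ + b))) *
        jacobiTheta₂ (((a : ℂ) * (-1 / τ) + w / τ + b) / 2) (-1 / τ))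
      = (cexp (-(Real.pi * I / 4 * (w ^ 2 / τ))) *
      cexp (Real.pi * I / 4 * (-1 / τ * a ^ 2) + Real.pi * I / 2 * (a * (w / τ + b)))) *
        jacobiTheta₂ (((a : ℂ) * (-1 / τ) + w / τ + b) / 2) (-1 / τ) := by ring
    _ = _ := by
      rw [hexp]
      field_simp

/-- the remaining coordinates -/
def yy (k : Fin g) (a : Fin g → ℤ) (m : {j : Fin g // j ≠ k} → ℤ) : Fin g → ℤ :=
  fun j => if h : j = k then 0 else 2 * m ⟨j, h⟩ + a j

theorem yy_self (k : Fin g) (a : Fin g → ℤ) (m : {j : Fin g // j ≠ k} → ℤ) : yy k a m k = 0 := by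
  simp [yy]

theorem split_eq (k : Fin g) (a : Fin g → ℤ) (t : ℤ) (m : {j : Fin g // j ≠ k} → ℤ) :
    2 * ((Equiv.piSplitAt k (fun _ => ℤ)).symm (t, m)) + a = yy k a m + Pi.single k (2 * t + a k) := by
  funext j
  by_cases h : j = k
  · subst h
    simp [yy, Pi.add_apply, Pi.mul_apply, Equiv.piSplitAt]
  · simp [yy, Pi.add_apply, Pi.mul_apply, Equiv.piSplitAt, h]

theorem bil_single_left (Z : Matrix (Fin g) (Fin g) ℂ) (k : Fin g) (s : ℤ) (y : Fin g → ℤ) :
    bil Z (Pi.single k s) y = s * ∑ j, Z k j * (y j : ℂ) := by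
  unfold bil
  rw [Finset.sum_eq_single k]
  · rw [Finset.mul_sum]
    refine Finset.sum_congr rfl fun j _ => ?_
    simp; ring
  · intro i _ hi
    refine Finset.sum_eq_zero fun j _ => ?_
    simp [hi]
  · simp

theorem qf_split {Z : Matrix (Fin g) (Fin g) ℂ} (hZ : Z.transpose = Z) (k : Fin g) (s : ℤ)
    (y : Fin g → ℤ) :
    qf Z (y + Pi.single k s) = qf Z y + (Z k k * (s : ℂ) ^ 2 + 2 * (s * ∑ j, Z k j * (y j : ℂ))) := by
  rw [qf_eq_bil, bil_add_left, bil_add_right, bil_add_right, bil_comm hZ y (Pi.single k s),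
    bil_single_left, bil_single_left, qf_eq_bil]
  have : ∑ j, Z k j * (((Pi.single k s : Fin g → ℤ) j : ℤ) : ℂ) = Z k k * s := by
    rw [Finset.sum_eq_single k]
    · simp
    · intro j _ hj; simp [hj]
    · simp
  rw [this]
  ring

theorem sum_split (k : Fin g) (s : ℤ) (y b : Fin g → ℤ) :
    ∑ i, (((y + Pi.single k s : Fin g → ℤ) i : ℤ) : ℂ) * (b i : ℂ) =
      ∑ i, (y i : ℂ) * (b i : ℂ) + s * b k := by
  have : ∑ i, (((Pi.single k s : Fin g → ℤ) i : ℤ) : ℂ) * (b i : ℂ) = s * b k := by
    rw [Finset.sum_eq_single k]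
    · simp
    · intro j _ hj; simp [hj]
    · simp
  rw [← this, ← Finset.sum_add_distrib]
  refine Finset.sum_congr rfl fun i _ => ?_
  simp only [Pi.add_apply]
  push_cast; ring

/-- the theta constant as a sum over the coordinates different from `k` -/
theorem th_split {Z : Matrix (Fin g) (Fin g) ℂ} (hZ : Z ∈ upperHalf g) (k : Fin g)
    (a b : Fin g → ℤ) :
    th a b Z = ∑' m : {j : Fin g // j ≠ k} → ℤ,
      cexp (Real.pi * I / 4 * qf Z (yy k a m) + Real.pi * I / 2 * ∑ i, (yy k a m i : ℂ) * (b i : ℂ)) *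
        G1 (a k) (b k) (∑ j, Z k j * (yy k a m j : ℂ)) (Z k k) := by
  set e : ({j : Fin g // j ≠ k} → ℤ) × ℤ ≃ (Fin g → ℤ) :=
    (Equiv.prodComm _ _).trans (Equiv.piSplitAt k (fun _ => ℤ)).symm with he
  have hs := summable_tterm hZ a b
  have hs' : Summable fun p => tterm a b Z (e p) := (e.summable_iff (f := fun n => tterm a b Z n)).2 hs
  unfold th
  rw [← e.tsum_eq (fun n => tterm a b Z n), hs'.tsum_prod]
  refine tsum_congr fun m => ?_
  unfold G1
  rw [← tsum_mul_left]
  refine tsum_congr fun t => ?_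
  unfold tterm
  have h1 : 2 * (e (m, t)) + a = yy k a m + Pi.single k (2 * t + a k) := by
    rw [he]
    exact split_eq k a t m
  rw [← Complex.exp_add, h1, qf_split hZ.1]
  congr 1
  have h2 := sum_split k (2 * t + a k) (yy k a m) b
  rw [h2]
  push_cast
  ring

/-- the image of `Z` under a partial inversion -/
noncomputable def invZ (k : Fin g) (Z : Matrix (Fin g) (Fin g) ℂ) : Matrix (Fin g) (Fin g) ℂ :=
  Matrix.of fun i j => if i = k then (if j = k then -1 / Z k k else Z k j / Z k k)
    else (if j = k then Z i k / Z k k else Z i j - Z i k * Z k j / Z k k)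

theorem diag_ne_zero {Z : Matrix (Fin g) (Fin g) ℂ} (hZ : Z ∈ upperHalf g) (k : Fin g) :
    Z k k ≠ 0 := by
  have h : 0 < (Z.map Complex.im) k k := hZ.2.diag_pos
  intro h0
  rw [Matrix.map_apply, h0] at h
  simp at h

theorem aut_jM (k : Fin g) (Z : Matrix (Fin g) (Fin g) ℂ) (l j : Fin g) :
    Run7.h433.aut (jM k) Z l j = if l = k then Z k j else (if l = j then 1 else 0) := by
  unfold Run7.h433.aut jM
  rw [Matrix.toBlocks_fromBlocks₂₁, Matrix.toBlocks_fromBlocks₂₂]
  unfold Run7.h433.ic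
  rw [Matrix.diagonal_map (by simp), Matrix.diagonal_map (by simp), Matrix.add_apply,
    Matrix.diagonal_mul, Matrix.diagonal_apply]
  by_cases h : l = k
  · subst h
    by_cases h2 : l = j
    · subst h2; simp
    · simp [h2]
  · by_cases h2 : l = j
    · subst h2; simp [h]
    · simp [h, h2]

theorem num_jM (k : Fin g) (Z : Matrix (Fin g) (Fin g) ℂ) (i j : Fin g) :
    Run7.h433.num (jM k) Z i j = if i = k then (if j = k then -1 else 0) else Z i j := by
  unfold Run7.h433.num jM
  rw [Matrix.toBlocks_fromBlocks₁₁, Matrix.toBlocks_fromBlocks₁₂]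
  unfold Run7.h433.ic
  rw [Matrix.diagonal_map (by simp), Matrix.diagonal_map (by simp), Matrix.add_apply,
    Matrix.diagonal_mul, Matrix.diagonal_apply]
  by_cases h : i = k
  · subst h
    by_cases h2 : j = i
    · subst h2; simp
    · simp [h2, Ne.symm h2]
  · by_cases h2 : i = j
    · subst h2; simp [h]
    · simp [h, h2]

theorem det_aut_jM (k : Fin g) (Z : Matrix (Fin g) (Fin g) ℂ) :
    (Run7.h433.aut (jM k) Z).det = Z k k := by
  have h1 : (Run7.h433.aut (jM k) Z).transpose =
      (1 : Matrix (Fin g) (Fin g) ℂ).updateCol k (fun j => Z k j) := by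
    ext i j
    rw [Matrix.transpose_apply, aut_jM, Matrix.updateCol_apply, Matrix.one_apply]
    by_cases h : j = k
    · subst h; simp
    · by_cases h2 : j = i
      · subst h2; simp [h]
      · simp [h, h2, Ne.symm h2]
  rw [← Matrix.det_transpose, h1, ← Matrix.cramer_apply, Matrix.cramer_one]
  rfl

theorem moeb_jM {Z : Matrix (Fin g) (Fin g) ℂ} (hZ : Z ∈ upperHalf g) (k : Fin g) :
    Run7.h433.moeb (jM k) Z = invZ k Z := by
  have h0 := diag_ne_zero hZ k
  have hu : IsUnit (Run7.h433.aut (jM k) Z).det := by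
    rw [det_aut_jM]; exact h0.isUnit
  have h1 : invZ k Z * Run7.h433.aut (jM k) Z = Run7.h433.num (jM k) Z := by
    ext i j
    rw [Matrix.mul_apply, num_jM]
    simp only [aut_jM]
    have h2 : ∑ l, invZ k Z i l * (if l = k then Z k j else (if l = j then (1 : ℂ) else 0)) =
        invZ k Z i k * Z k j + (if j = k then 0 else invZ k Z i j) := by
      have h3 : ∀ l, invZ k Z i l * (if l = k then Z k j else (if l = j then (1 : ℂ) else 0)) =
          (if l = k then invZ k Z i k * Z k j else 0) +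
            (if l = j then (if j = k then 0 else invZ k Z i j) else 0) := by
        intro l
        by_cases h4 : l = k
        · subst h4
          by_cases h5 : l = j
          · subst h5; simp
          · simp [h5]
        · by_cases h5 : l = j
          · subst h5; simp [h4]
          · simp [h4, h5]
      simp only [h3]
      rw [Finset.sum_add_distrib, Finset.sum_ite_eq', Finset.sum_ite_eq']
      simp
    rw [h2]
    unfold invZ
    simp only [Matrix.of_apply]
    by_cases hi : i = k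
    · subst hi
      by_cases hj : j = i
      · subst hj; simp; field_simp
      · simp [hj]; field_simp; ring
    · by_cases hj : j = k
      · subst hj; simp [hi]; field_simp
      · simp [hi, hj]; field_simp; ring
  unfold Run7.h433.moeb
  rw [← h1, Matrix.mul_assoc, Matrix.mul_nonsing_inv _ hu, Matrix.mul_one]

theorem th_j {Z : Matrix (Fin g) (Fin g) ℂ} (hZ : Z ∈ upperHalf g) (k : Fin g)
    (a b : Fin g → ℤ) :
    th a b (Run7.h433.moeb (jM k) Z) ^ 8 =
      Z k k ^ 4 * th (Function.update a k (b k)) (Function.update b k (-a k)) Z ^ 8 := by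
  have h0 := diag_ne_zero hZ k
  have hW : Run7.h433.moeb (jM k) Z ∈ upperHalf g := Run7.h433.moeb_mem (jM_mem k) hZ
  have hZs : Z.transpose = Z := hZ.1
  have key : th a b (Run7.h433.moeb (jM k) Z) =
      ((-I * Z k k) ^ (1 / 2 : ℂ) * cexp (Real.pi * I / 2 * (a k * b k))) *
        th (Function.update a k (b k)) (Function.update b k (-a k)) Z := by
    rw [th_split hW k a b, th_split hZ k (Function.update a k (b k)) (Function.update b k (-a k)),
      ← tsum_mul_left]
    refine tsum_congr fun m => ?_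
    have hy : yy k (Function.update a k (b k)) m = yy k a m := by
      funext j
      unfold yy
      by_cases h : j = k
      · simp [h]
      · simp [h]
    rw [hy, moeb_jM hZ k]
    set y := yy k a m with hydef
    have hyk : y k = 0 := yy_self k a m
    set w : ℂ := ∑ j, Z k j * (y j : ℂ) with hw
    have e1 : invZ k Z k k = -1 / Z k k := by simp [invZ]
    have e2 : ∑ j, invZ k Z k j * (y j : ℂ) = w / Z k k := by
      rw [hw, Finset.sum_div]
      refine Finset.sum_congr rfl fun j _ => ?_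
      by_cases h : j = k
      · subst h; rw [hyk]; simp
      · simp [invZ, h]; ring
    have e3 : qf (invZ k Z) y = qf Z y - w ^ 2 / Z k k := by
      have e4 : w ^ 2 / Z k k = ∑ i, ∑ j, (y i : ℂ) * (Z i k * Z k j / Z k k) * (y j : ℂ) := by
        rw [sq, hw, Finset.sum_mul_sum, Finset.sum_div]
        refine Finset.sum_congr rfl fun i _ => ?_
        rw [Finset.sum_div]
        refine Finset.sum_congr rfl fun j _ => ?_
        have : Z k i = Z i k := congrFun (congrFun hZs i) k
        rw [this]; ring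
      rw [e4]
      unfold qf
      rw [← Finset.sum_sub_distrib]
      refine Finset.sum_congr rfl fun i _ => ?_
      rw [← Finset.sum_sub_distrib]
      refine Finset.sum_congr rfl fun j _ => ?_
      by_cases hi : i = k
      · subst hi; rw [hyk]; simp
      · by_cases hj : j = k
        · subst hj; rw [hyk]; simp
        · simp [invZ, hi, hj]; ring
    have e5 : ∑ i, (y i : ℂ) * ((Function.update b k (-a k)) i : ℂ) = ∑ i, (y i : ℂ) * (b i : ℂ) := by
      refine Finset.sum_congr rfl fun i _ => ?_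
      by_cases h : i = k
      · subst h; rw [hyk]; simp
      · rw [Function.update_of_ne h]
    rw [e1, e2, e3, e5, Function.update_self, Function.update_self]
    have e6 := G1_inv (a k) (b k) w (Z k k) h0
    have e7 : cexp (Real.pi * I / 4 * (qf Z y - w ^ 2 / Z k k) +
        Real.pi * I / 2 * ∑ i, (y i : ℂ) * (b i : ℂ)) =
        cexp (Real.pi * I / 4 * qf Z y + Real.pi * I / 2 * ∑ i, (y i : ℂ) * (b i : ℂ)) *
          cexp (-(Real.pi * I / 4 * (w ^ 2 / Z k k))) := by
      rw [← Complex.exp_add]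
      congr 1
      ring
    rw [e7, mul_assoc, e6]
    ring
  rw [key, mul_pow, mul_pow, ← Complex.exp_nat_mul]
  have e1 : ((-I * Z k k) ^ (1 / 2 : ℂ)) ^ 8 = Z k k ^ 4 := by
    have h1 : ((-I * Z k k) ^ (1 / 2 : ℂ)) ^ 2 = -I * Z k k := by
      have := Complex.cpow_nat_inv_pow (-I * Z k k) (two_ne_zero (α := ℕ))
      rw [one_div]
      exact_mod_cast this
    calc ((-I * Z k k) ^ (1 / 2 : ℂ)) ^ 8 = (((-I * Z k k) ^ (1 / 2 : ℂ)) ^ 2) ^ 4 := by ring
      _ = (-I * Z k k) ^ 4 := by rw [h1]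
      _ = Z k k ^ 4 := by
        rw [mul_pow, neg_pow, I_pow_four]; norm_num
  have e2 : cexp (((8 : ℕ) : ℂ) * (Real.pi * I / 2 * (a k * b k))) = 1 := by
    have : ((8 : ℕ) : ℂ) * (Real.pi * I / 2 * (a k * b k)) =
        ((2 * (a k * b k) : ℤ) : ℂ) * (2 * Real.pi * I) := by push_cast; ring
    rw [this, Complex.exp_int_mul_two_pi_mul_I]
  rw [e1, e2, mul_one]

end Run7.h318
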