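import Pool.Agent.Run7.h318.Inversion
import Pool.Agent.Run7.h318.Holo

/-!
# The action of the integral symplectic group on eighth powers of theta constants
-/

set_option autoImplicit false
set_option linter.unusedSectionVars false
set_option linter.unusedSimpArgs false

open Complex Filter Topology Run7.h433.Slope

namespace Run7.h318

variable {g : ℕ}

/-- permutations of the characteristics which act on the quadratic functions through a permutation
of the set of pairs `(p, q)` fixing zero -/
def Compat (π : Equiv.Perm (Chr g)) : Prop :=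
  ∃ τ : Equiv.Perm (Chr g), τ 0 = 0 ∧ ∀ x v, qx (π x) v = qx x (τ v)

theorem Compat.refl : Compat (Equiv.refl (Chr g)) := ⟨Equiv.refl _, rfl, fun _ _ => rfl⟩

theorem Compat.trans {π π' : Equiv.Perm (Chr g)} (h : Compat π) (h' : Compat π') :
    Compat (Equiv.trans π π') := by
  obtain ⟨τ, h1, h2⟩ := h
  obtain ⟨τ', h1', h2'⟩ := h'
  refine ⟨Equiv.trans τ' τ, ?_, fun x v => ?_⟩
  · rw [Equiv.trans_apply, h1', h1]
  · rw [Equiv.trans_apply, h2', h2, Equiv.trans_apply]

theorem dot_eq (x y : Fin g → ZMod 2) : dot x y = x ⬝ᵥ y := rfl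

theorem add_self2 (x : Fin g → ZMod 2) : x + x = 0 := by
  ext i
  have : ∀ x : ZMod 2, x + x = 0 := by decide
  exact this _

theorem dot_mulVec_symm {S : Matrix (Fin g) (Fin g) (ZMod 2)} (hS : S.transpose = S)
    (x y : Fin g → ZMod 2) : dot x (S.mulVec y) = dot (S.mulVec x) y := by
  rw [dot_eq, dot_eq, Matrix.dotProduct_mulVec, ← Matrix.mulVec_transpose, hS]

/-! ### Translations -/

/-- the permutation of a translation -/
def permT (S : Matrix (Fin g) (Fin g) (ZMod 2)) : Equiv.Perm (Chr g) where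
  toFun x := (x.1, x.2 + (S.mulVec x.1 + fun i => S i i))
  invFun x := (x.1, x.2 + (S.mulVec x.1 + fun i => S i i))
  left_inv x := by
    ext1
    · rfl
    · show x.2 + (S.mulVec x.1 + fun i => S i i) + (S.mulVec x.1 + fun i => S i i) = x.2
      rw [add_assoc, add_self2, add_zero]
  right_inv x := by
    ext1
    · rfl
    · show x.2 + (S.mulVec x.1 + fun i => S i i) + (S.mulVec x.1 + fun i => S i i) = x.2
      rw [add_assoc, add_self2, add_zero]

/-- the dual permutation of a translation -/
def permT' (S : Matrix (Fin g) (Fin g) (ZMod 2)) : Equiv.Perm (Chr g) where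
  toFun v := (v.1 + S.mulVec v.2, v.2)
  invFun v := (v.1 + S.mulVec v.2, v.2)
  left_inv v := by
    ext1
    · show v.1 + S.mulVec v.2 + S.mulVec v.2 = v.1
      rw [add_assoc, add_self2, add_zero]
    · rfl
  right_inv v := by
    ext1
    · show v.1 + S.mulVec v.2 + S.mulVec v.2 = v.1
      rw [add_assoc, add_self2, add_zero]
    · rfl

theorem compat_permT {S : Matrix (Fin g) (Fin g) (ZMod 2)} (hS : S.transpose = S) :
    Compat (permT S) := by
  refine ⟨permT' S, ?_, ?_⟩
  · show ((0 : Chr g).1 + S.mulVec (0 : Chr g).2, (0 : Chr g).2) = 0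
    simp
  · rintro ⟨a, b⟩ ⟨p, q⟩
    show dot p a + dot q (b + (S.mulVec a + fun i => S i i)) + dot p q =
      dot (p + S.mulVec q) a + dot q b + dot (p + S.mulVec q) q
    have h1 : dot q (fun i => S i i) = dot (S.mulVec q) q := by
      rw [← dot_mulVec_symm hS]
      have := quad_zmod2 hS q
      unfold dot
      rw [Finset.sum_congr rfl fun i _ => mul_comm (q i) (S i i), ← this]
      refine Finset.sum_congr rfl fun i _ => ?_
      unfold Matrix.mulVec dotProduct
      rw [Finset.mul_sum]
      refine Finset.sum_congr rfl fun j _ => ?_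
      ring
    rw [dot_add_right, dot_add_right, dot_add_left, dot_add_left, dot_mulVec_symm hS, h1]
    ring

/-! ### Base changes -/

/-- the permutation of a base change -/
def permU (P P' : Matrix (Fin g) (Fin g) (ZMod 2)) (h1 : P * P' = 1) (h2 : P' * P = 1) :
    Equiv.Perm (Chr g) where
  toFun x := (P.transpose.mulVec x.1, P'.mulVec x.2)
  invFun x := (P'.transpose.mulVec x.1, P.mulVec x.2)
  left_inv x := by
    ext1
    · simp only [Matrix.mulVec_mulVec, ← Matrix.transpose_mul, h1, Matrix.transpose_one,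
        Matrix.one_mulVec]
    · simp only [Matrix.mulVec_mulVec, h1, Matrix.one_mulVec]
  right_inv x := by
    ext1
    · simp only [Matrix.mulVec_mulVec, ← Matrix.transpose_mul, h2, Matrix.transpose_one,
        Matrix.one_mulVec]
    · simp only [Matrix.mulVec_mulVec, h2, Matrix.one_mulVec]

/-- the dual permutation of a base change -/
def permU' (P P' : Matrix (Fin g) (Fin g) (ZMod 2)) (h1 : P * P' = 1) (h2 : P' * P = 1) :
    Equiv.Perm (Chr g) where
  toFun v := (P.mulVec v.1, P'.transpose.mulVec v.2)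
  invFun v := (P'.mulVec v.1, P.transpose.mulVec v.2)
  left_inv v := by
    ext1
    · simp only [Matrix.mulVec_mulVec, h2, Matrix.one_mulVec]
    · simp only [Matrix.mulVec_mulVec, ← Matrix.transpose_mul, h2, Matrix.transpose_one,
        Matrix.one_mulVec]
  right_inv v := by
    ext1
    · simp only [Matrix.mulVec_mulVec, h1, Matrix.one_mulVec]
    · simp only [Matrix.mulVec_mulVec, ← Matrix.transpose_mul, h1, Matrix.transpose_one,
        Matrix.one_mulVec]

theorem compat_permU {P P' : Matrix (Fin g) (Fin g) (ZMod 2)} (h1 : P * P' = 1) (h2 : P' * P = 1) :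
    Compat (permU P P' h1 h2) := by
  refine ⟨permU' P P' h1 h2, ?_, ?_⟩
  · show (P.mulVec (0 : Chr g).1, P'.transpose.mulVec (0 : Chr g).2) = 0
    simp
  · rintro ⟨a, b⟩ ⟨p, q⟩
    show dot p (P.transpose.mulVec a) + dot q (P'.mulVec b) + dot p q =
      dot (P.mulVec p) a + dot (P'.transpose.mulVec q) b + dot (P.mulVec p) (P'.transpose.mulVec q)
    have e1 : dot p (P.transpose.mulVec a) = dot (P.mulVec p) a := by
      rw [dot_eq, dot_eq, Matrix.dotProduct_mulVec, Matrix.vecMul_transpose]
    have e2 : dot q (P'.mulVec b) = dot (P'.transpose.mulVec q) b := by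
      rw [dot_eq, dot_eq, Matrix.dotProduct_mulVec, ← Matrix.mulVec_transpose]
    have e3 : dot (P.mulVec p) (P'.transpose.mulVec q) = dot p q := by
      rw [dot_eq, dot_eq, Matrix.dotProduct_mulVec, Matrix.vecMul_transpose, Matrix.mulVec_mulVec,
        h2, Matrix.one_mulVec]
    rw [e1, e2, e3]

/-! ### Partial inversions -/

/-- the permutation of a partial inversion -/
def permJ (k : Fin g) : Equiv.Perm (Chr g) where
  toFun x := (Function.update x.1 k (x.2 k), Function.update x.2 k (x.1 k))
  invFun x := (Function.update x.1 k (x.2 k), Function.update x.2 k (x.1 k))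
  left_inv x := by ext1 <;> simp
  right_inv x := by ext1 <;> simp

theorem dot_update_right (x y : Fin g → ZMod 2) (k : Fin g) (c : ZMod 2) :
    dot x (Function.update y k c) = dot x y + x k * (c + y k) := by
  have h : Function.update y k c = y + Pi.single k (c + y k) := by
    ext j
    by_cases h : j = k
    · subst h
      simp only [Function.update_self, Pi.add_apply, Pi.single_eq_same]
      have : ∀ a b : ZMod 2, a = b + (a + b) := by decide
      exact this _ _
    · simp [h]
  rw [h, dot_add_right]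
  congr 1
  unfold dot
  rw [Finset.sum_eq_single k]
  · simp
  · intro j _ hj; simp [hj]
  · simp

theorem compat_permJ (k : Fin g) : Compat (permJ k) := by
  refine ⟨permJ k, ?_, ?_⟩
  · show (Function.update (0 : Chr g).1 k ((0 : Chr g).2 k),
      Function.update (0 : Chr g).2 k ((0 : Chr g).1 k)) = 0
    have h1 : Function.update (0 : Fin g → ZMod 2) k 0 = 0 := by
      ext j
      by_cases h : j = k
      · subst h; simp
      · simp [h]
    exact Prod.ext h1 h1
  · rintro ⟨a, b⟩ ⟨p, q⟩
    show dot p (Function.update a k (b k)) + dot q (Function.update b k (a k)) + dot p q =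
      dot (Function.update p k (q k)) a + dot (Function.update q k (p k)) b +
        dot (Function.update p k (q k)) (Function.update q k (p k))
    rw [dot_comm (Function.update p k (q k)) a, dot_comm (Function.update q k (p k)) b,
      dot_update_right, dot_update_right, dot_update_right, dot_update_right, dot_update_right,
      Function.update_self, dot_comm (Function.update p k (q k)) q, dot_update_right,
      dot_comm a p, dot_comm b q, dot_comm q p]
    generalize dot p a = X
    generalize dot q b = Y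
    generalize dot p q = W
    generalize p k = r
    generalize q k = s
    generalize a k = t
    generalize b k = u
    revert X Y W r s t u
    decide

/-! ### The laws for the three kinds of generators -/

theorem red_mulVec (P : Matrix (Fin g) (Fin g) ℤ) (x : Fin g → ℤ) :
    red (P.mulVec x) = (P.map (Int.cast : ℤ → ZMod 2)).mulVec (red x) := by
  ext i
  simp only [red, Matrix.mulVec, dotProduct, Matrix.map_apply]
  push_cast
  rfl

theorem map_mul_one {P P' : Matrix (Fin g) (Fin g) ℤ} (h : P * P' = 1) :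
    P.map (Int.cast : ℤ → ZMod 2) * P'.map (Int.cast : ℤ → ZMod 2) = 1 := by
  have h1 : (P * P').map (Int.castRingHom (ZMod 2)) = P.map (Int.castRingHom (ZMod 2)) *
      P'.map (Int.castRingHom (ZMod 2)) := Matrix.map_mul
  have h2 : (1 : Matrix (Fin g) (Fin g) ℤ).map (Int.castRingHom (ZMod 2)) = 1 :=
    Matrix.map_one _ (by simp) (by simp)
  rw [h, h2] at h1
  exact h1.symm

/-- the transformation law of the matrix `M` -/
def Law (M : Matrix (Fin g ⊕ Fin g) (Fin g ⊕ Fin g) ℤ) : Prop :=
  ∃ π : Equiv.Perm (Chr g), Compat π ∧ ∀ Z ∈ upperHalf g, ∀ x,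
    T8 x (Run7.h433.moeb M Z) = (Run7.h433.aut M Z).det ^ 4 * T8 (π x) Z

theorem law_t {S : Matrix (Fin g) (Fin g) ℤ} (hS : S.transpose = S) : Law (tM S) := by
  have hS2 : (S.map (Int.cast : ℤ → ZMod 2)).transpose = S.map (Int.cast : ℤ → ZMod 2) := by
    rw [← Matrix.transpose_map, hS]
  refine ⟨permT (S.map (Int.cast : ℤ → ZMod 2)), compat_permT hS2, ?_⟩
  rintro Z hZ ⟨a, b⟩
  have h1 : Run7.h433.aut (tM S) Z = 1 := by
    unfold Run7.h433.aut tM
    rw [Matrix.toBlocks_fromBlocks₂₁, Matrix.toBlocks_fromBlocks₂₂, Run7.h433.ic_zero,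
      Run7.h433.ic_one, Matrix.zero_mul, zero_add]
  have h2 : Run7.h433.moeb (tM S) Z = Z + Run7.h433.ic S := by
    unfold Run7.h433.moeb
    rw [h1, inv_one, Matrix.mul_one]
    unfold Run7.h433.num tM
    rw [Matrix.toBlocks_fromBlocks₁₁, Matrix.toBlocks_fromBlocks₁₂, Run7.h433.ic_one,
      Matrix.one_mul]
  rw [h1, h2, Matrix.det_one, one_pow, one_mul]
  show th (lift a) (lift b) (Z + Run7.h433.ic S) ^ 8 = _
  rw [th_t hS, th_pow]
  congr 1
  show (red (lift a), red (lift b + (S.mulVec (lift a) + diag2 S))) =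
    (a, b + ((S.map (Int.cast : ℤ → ZMod 2)).mulVec a + fun i => (S.map (Int.cast : ℤ → ZMod 2)) i i))
  rw [red_add, red_add, red_mulVec, red_lift, red_lift]
  rfl

theorem law_u {P P' : Matrix (Fin g) (Fin g) ℤ} (h1 : P * P' = 1) (h2 : P' * P = 1) :
    Law (uM P P') := by
  refine ⟨permU _ _ (map_mul_one h1) (map_mul_one h2), compat_permU _ _, ?_⟩
  rintro Z hZ ⟨a, b⟩
  have h3 : Run7.h433.aut (uM P P') Z = (Run7.h433.ic P').transpose := by
    unfold Run7.h433.aut uM
    rw [Matrix.toBlocks_fromBlocks₂₁, Matrix.toBlocks_fromBlocks₂₂, Run7.h433.ic_zero,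
      Matrix.zero_mul, zero_add, Run7.h433.ic_T]
  have h4 : (Run7.h433.ic P').transpose * (Run7.h433.ic P).transpose = 1 := by
    rw [← Matrix.transpose_mul, ← Run7.h433.ic_mul, h1, Run7.h433.ic_one, Matrix.transpose_one]
  have h5 : Run7.h433.moeb (uM P P') Z = Run7.h433.ic P * Z * (Run7.h433.ic P).transpose := by
    unfold Run7.h433.moeb
    rw [h3, Matrix.inv_eq_right_inv h4]
    unfold Run7.h433.num uM
    rw [Matrix.toBlocks_fromBlocks₁₁, Matrix.toBlocks_fromBlocks₁₂, Run7.h433.ic_zero, add_zero]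
  have h6 : (Run7.h433.ic P').transpose.det ^ 4 = 1 := by
    rw [Matrix.det_transpose]
    have h7 : (Run7.h433.ic P').det = ((P'.det : ℤ) : ℂ) := by
      rw [Run7.h433.ic_eq]
      exact (RingHom.map_det (Int.castRingHom ℂ) P').symm
    have h8 : P'.det * P.det = 1 := by rw [← Matrix.det_mul, h2, Matrix.det_one]
    have h9 := Int.isUnit_iff.1 (IsUnit.of_mul_eq_one _ h8)
    rw [h7]
    rcases h9 with h | h
    · rw [h]; norm_num
    · rw [h]; norm_num
  rw [h3, h6, h5, one_mul]
  show th (lift a) (lift b) (Run7.h433.ic P * Z * (Run7.h433.ic P).transpose) ^ 8 = _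
  rw [th_u h1 h2, th_pow]
  congr 1
  rw [red_mulVec, red_mulVec, red_lift, red_lift]
  rfl

theorem law_j (k : Fin g) : Law (jM k) := by
  refine ⟨permJ k, compat_permJ k, ?_⟩
  rintro Z hZ ⟨a, b⟩
  rw [det_aut_jM]
  show th (lift a) (lift b) (Run7.h433.moeb (jM k) Z) ^ 8 = _
  rw [th_j hZ k, th_pow]
  congr 2
  show (red (Function.update (lift a) k (lift b k)), red (Function.update (lift b) k (-lift a k))) =
    (Function.update a k (b k), Function.update b k (a k))
  have h1 : ∀ x : Fin g → ZMod 2, ∀ i, ((lift x i : ℤ) : ZMod 2) = x i := fun x i =>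
    congrFun (red_lift x) i
  ext1
  · ext j
    by_cases h : j = k
    · subst h; simp [red, h1]
    · simp [red, h, h1]
  · ext j
    by_cases h : j = k
    · subst h
      simp only [red, Function.update_self, Int.cast_neg, h1]
      have : ∀ x : ZMod 2, -x = x := by decide
      exact this _
    · simp [red, h, h1]

theorem Law.mul {M N : Matrix (Fin g ⊕ Fin g) (Fin g ⊕ Fin g) ℤ} (hM : M ∈ Matrix.symplecticGroup (Fin g) ℤ)
    (hN : N ∈ Matrix.symplecticGroup (Fin g) ℤ) (h : Law M) (h' : Law N) : Law (M * N) := by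
  obtain ⟨π, h1, h2⟩ := h
  obtain ⟨π', h1', h2'⟩ := h'
  refine ⟨Equiv.trans π π', h1.trans h1', fun Z hZ x => ?_⟩
  have hW : Run7.h433.moeb N Z ∈ upperHalf g := Run7.h433.moeb_mem hN hZ
  rw [Run7.h433.moeb_mul hM hN hZ, h2 _ hW, h2' Z hZ, (Run7.h433.aut_mul (M₁ := M) hN hZ).1,
    Matrix.det_mul, Equiv.trans_apply]
  ring

theorem law_gen {M : Matrix (Fin g ⊕ Fin g) (Fin g ⊕ Fin g) ℤ} (h : Gen M) :
    M ∈ Matrix.symplecticGroup (Fin g) ℤ ∧ Law M := by
  induction h with
  | one =>
    refine ⟨Submonoid.one_mem _, Equiv.refl _, Compat.refl, fun Z _ x => ?_⟩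
    have h1 : Run7.h433.aut (1 : Matrix (Fin g ⊕ Fin g) (Fin g ⊕ Fin g) ℤ) Z = 1 := by
      unfold Run7.h433.aut
      rw [← Matrix.fromBlocks_one, Matrix.toBlocks_fromBlocks₂₁, Matrix.toBlocks_fromBlocks₂₂,
        Run7.h433.ic_zero, Run7.h433.ic_one, Matrix.zero_mul, zero_add]
    have h2 : Run7.h433.moeb (1 : Matrix (Fin g ⊕ Fin g) (Fin g ⊕ Fin g) ℤ) Z = Z := by
      unfold Run7.h433.moeb
      rw [h1, inv_one, Matrix.mul_one]
      unfold Run7.h433.num
      rw [← Matrix.fromBlocks_one, Matrix.toBlocks_fromBlocks₁₁, Matrix.toBlocks_fromBlocks₁₂,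
        Run7.h433.ic_zero, Run7.h433.ic_one, Matrix.one_mul, add_zero]
    rw [h1, h2, Matrix.det_one, one_pow, one_mul]
    rfl
  | t S M hS _ ih => exact ⟨Submonoid.mul_mem _ (tM_mem hS) ih.1, Law.mul (tM_mem hS) ih.1 (law_t hS) ih.2⟩
  | u P P' M h1 h2 _ ih =>
    exact ⟨Submonoid.mul_mem _ (uM_mem h2) ih.1, Law.mul (uM_mem h2) ih.1 (law_u h1 h2) ih.2⟩
  | j k M _ ih => exact ⟨Submonoid.mul_mem _ (jM_mem k) ih.1, Law.mul (jM_mem k) ih.1 (law_j k) ih.2⟩

/-- **Transformation law** of the eighth powers of the theta constants -/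
theorem law {M : Matrix (Fin g ⊕ Fin g) (Fin g ⊕ Fin g) ℤ}
    (hM : M ∈ Matrix.symplecticGroup (Fin g) ℤ) : Law M := (law_gen (gen_symplectic hM)).2

end Run7.h318
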