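import Pool.Agent.Run7.h318.Graph

/-!
# Eulerian orientations of even subgraphs of arbitrary multigraphs
-/

set_option autoImplicit false
set_option linter.unusedSectionVars false
set_option linter.unusedSimpArgs false

namespace Run7.h318

/-- a finite type of even cardinality has a fixed point free involution -/
theorem exists_invol {α : Type*} [Fintype α] (h : Even (Fintype.card α)) :
    ∃ s : α → α, (∀ a, s (s a) = a) ∧ ∀ a, s a ≠ a := by
  obtain ⟨m, hm⟩ := h
  have hc : Fintype.card α = Fintype.card (Fin m × Bool) := by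
    rw [hm, Fintype.card_prod, Fintype.card_fin, Fintype.card_bool]; ring
  let e := Fintype.equivOfCardEq hc
  refine ⟨fun a => e.symm ((e a).1, !(e a).2), fun a => ?_, fun a ha => ?_⟩
  · simp
  · have h1 : e (e.symm ((e a).1, !(e a).2)) = e a := congrArg e ha
    rw [Equiv.apply_symm_apply] at h1
    have h2 := congrArg Prod.snd h1
    simp at h2

/-- a fixed point free involution preserving a map with fibres of even cardinality -/
theorem exists_invol_fib {α V : Type*} [Finite α] (v : α → V)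
    (h : ∀ x, Even (Nat.card {a : α // v a = x})) :
    ∃ s : α → α, (∀ a, s (s a) = a) ∧ (∀ a, s a ≠ a) ∧ ∀ a, v (s a) = v a := by
  classical
  have h1 : ∀ x, ∃ s : {a : α // v a = x} → {a : α // v a = x}, (∀ a, s (s a) = a) ∧ ∀ a, s a ≠ a := by
    intro x
    have : Fintype {a : α // v a = x} := Fintype.ofFinite _
    apply exists_invol
    rw [← Nat.card_eq_fintype_card]
    exact h x
  choose S hS1 hS2 using h1
  have key : ∀ (k : α) (x : V) (hx : v k = x), (S (v k) ⟨k, rfl⟩).1 = (S x ⟨k, hx⟩).1 := by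
    intro k x hx
    subst hx
    rfl
  refine ⟨fun a => (S (v a) ⟨a, rfl⟩).1, fun a => ?_, fun a ha => ?_, fun a => (S (v a) ⟨a, rfl⟩).2⟩
  · have h2 : v (S (v a) ⟨a, rfl⟩).1 = v a := (S (v a) ⟨a, rfl⟩).2
    show (S (v (S (v a) ⟨a, rfl⟩).1) ⟨(S (v a) ⟨a, rfl⟩).1, rfl⟩).1 = a
    rw [key _ (v a) h2]
    have h3 : (⟨(S (v a) ⟨a, rfl⟩).1, h2⟩ : {b : α // v b = v a}) = S (v a) ⟨a, rfl⟩ := rfl
    rw [h3, hS1]
  · exact hS2 (v a) ⟨a, rfl⟩ (Subtype.ext ha)

variable {V E : Type} [Fintype E] [DecidableEq V] {src tgt : E → V}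

/-- an even set of edges of a finite multigraph has an Eulerian orientation -/
theorem exists_orient' (y : E → ℤ) (hy : IsFlow src tgt y) :
    ∃ z : E → ℤ, IsFlow src tgt z ∧ (∀ e, |z e| ≤ 1) ∧ ∀ e, z e % 2 = y e % 2 := by
  classical
  -- the half edges with odd value
  let O : Type := {h : E × Bool // y h.1 % 2 = 1}
  have hev : ∀ x, Even ((Finset.univ.filter fun h : E × Bool =>
      vert src tgt h = x ∧ y h.1 % 2 = 1).card) := by
    intro x
    have h0 := (isFlow_iff.1 hy) x
    have h1 : ((∑ h : E × Bool with vert src tgt h = x, sval y h : ℤ) : ZMod 2) = 0 := by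
      rw [h0]; simp
    have h2 : ∀ h : E × Bool, ((sval y h : ℤ) : ZMod 2) = if y h.1 % 2 = 1 then 1 else 0 := by
      intro h
      have hs : ((sval y h : ℤ) : ZMod 2) = ((y h.1 : ℤ) : ZMod 2) := by
        unfold sval; split_ifs
        · push_cast; exact ZMod.neg_eq_self_mod_two _
        · rfl
      rw [hs]
      split_ifs with h3
      · have : ((y h.1 : ℤ) : ZMod 2) = ((1 : ℤ) : ZMod 2) := by
          rw [ZMod.intCast_eq_intCast_iff]; exact h3
        simpa using this
      · have : ((y h.1 : ℤ) : ZMod 2) = ((0 : ℤ) : ZMod 2) := by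
          rw [ZMod.intCast_eq_intCast_iff]
          show y h.1 % 2 = 0 % 2
          omega
        simpa using this
    rw [Int.cast_sum] at h1
    simp only [h2] at h1
    rw [Finset.sum_ite, Finset.sum_const_zero, add_zero, Finset.sum_const, nsmul_eq_mul, mul_one,
      Finset.filter_filter] at h1
    exact (ZMod.natCast_eq_zero_iff_even).1 h1
  obtain ⟨s, hss, hsne, hsv⟩ := exists_invol_fib (fun h : O => vert src tgt h.1) (by
    intro x
    have h1 := hev x
    have h2 : Nat.card {a : O // vert src tgt a.1 = x} =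
        (Finset.univ.filter fun h : E × Bool => vert src tgt h = x ∧ y h.1 % 2 = 1).card := by
      rw [Nat.card_eq_fintype_card, ← Fintype.card_coe]
      refine Fintype.card_congr ⟨fun a => ⟨a.1.1, ?_⟩, fun a => ⟨⟨a.1, ?_⟩, ?_⟩, ?_, ?_⟩
      · rw [Finset.mem_filter]; exact ⟨Finset.mem_univ _, a.2, a.1.2⟩
      · exact (Finset.mem_filter.1 a.2).2.2
      · exact (Finset.mem_filter.1 a.2).2.1
      · intro a; rfl
      · intro a; rfl
    rw [h2]
    exact h1)
  let i : O → O := fun h => ⟨(h.1.1, !h.1.2), h.2⟩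
  have hii : ∀ h, i (i h) = h := by
    rintro ⟨⟨e, b⟩, hb⟩; simp [i]
  have hine : ∀ h, i h ≠ h := by
    rintro ⟨⟨e, b⟩, hb⟩ hc
    have := congrArg (fun q : O => q.1.2) hc
    simp [i] at this
  obtain ⟨c, hc1, hc2⟩ := exists_color_of_two_invol (Function.Involutive.toPerm i hii)
    (Function.Involutive.toPerm s hss) hii hss hine hsne
  let z : E → ℤ := fun e => if h : y e % 2 = 1 then (if c ⟨(e, false), h⟩ then 1 else -1) else 0
  have hz : ∀ h : E × Bool, sval z h = if hh : y h.1 % 2 = 1 then (if c ⟨h, hh⟩ then 1 else -1) else 0 := by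
    rintro ⟨e, b⟩
    unfold sval
    cases b with
    | false => simp [z]
    | true =>
      by_cases h : y e % 2 = 1
      · have h1 : c ⟨(e, true), h⟩ = !(c ⟨(e, false), h⟩) := hc1 ⟨(e, false), h⟩
        simp only [if_true, z, h, dif_pos, h1]
        cases c ⟨(e, false), h⟩ <;> simp
      · simp [z, h]
  refine ⟨z, ?_, ?_, ?_⟩
  · rw [isFlow_iff]
    intro x
    -- the involution s cancels
    refine Finset.sum_involution (fun h _ => if hh : y h.1 % 2 = 1 then (s ⟨h, hh⟩).1 else h)
      ?_ ?_ ?_ ?_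
    · intro h hh
      rw [hz, hz]
      by_cases h1 : y h.1 % 2 = 1
      · have h2 : c (s ⟨h, h1⟩) = !(c ⟨h, h1⟩) := hc2 ⟨h, h1⟩
        have h3 : y (s ⟨h, h1⟩).1.1 % 2 = 1 := (s ⟨h, h1⟩).2
        simp only [h1, dif_pos]
        rw [dif_pos h3]
        have h4 : (⟨(s ⟨h, h1⟩).1, h3⟩ : O) = s ⟨h, h1⟩ := rfl
        rw [h4, h2]
        cases c ⟨h, h1⟩ <;> simp
      · simp [h1]
    · intro h hh hne
      rw [hz] at hne
      by_cases h1 : y h.1 % 2 = 1
      · simp only [h1, dif_pos]
        intro hcon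
        exact hsne ⟨h, h1⟩ (Subtype.ext hcon)
      · simp [h1] at hne
    · intro h hh
      by_cases h1 : y h.1 % 2 = 1
      · simp only [h1, dif_pos]
        simp only [Finset.mem_filter, Finset.mem_univ, true_and] at hh ⊢
        have := hsv ⟨h, h1⟩
        rw [this]; exact hh
      · simp only [h1, dif_neg, not_false_eq_true]; exact hh
    · intro h hh
      by_cases h1 : y h.1 % 2 = 1
      · simp only [h1, dif_pos]
        have h3 : y (s ⟨h, h1⟩).1.1 % 2 = 1 := (s ⟨h, h1⟩).2
        rw [dif_pos h3]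
        have h4 : (⟨(s ⟨h, h1⟩).1, h3⟩ : O) = s ⟨h, h1⟩ := rfl
        rw [h4, hss]
      · simp [h1]
  · intro e
    simp only [z]
    split_ifs <;> simp
  · intro e
    simp only [z]
    split_ifs with h1 h2
    · rw [h1]; rfl
    · rw [h1]; rfl
    · omega

end Run7.h318
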