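import Pool.Agent.Run7.h318.Cusp4
import Pool.Agent.Run7.h433.Mono
import Pool.Agent.Run7.h433.SlopeDefs

/-!
# Theta constants on the Siegel upper half space: summability and growth
-/

set_option autoImplicit false
set_option linter.unusedSectionVars false
set_option linter.unusedSimpArgs false

open Complex Filter Topology Run7.h433.Slope Asymptotics

namespace Run7.h318

variable {g : ℕ}

theorem qf_im (Z : Matrix (Fin g) (Fin g) ℂ) (x : Fin g → ℤ) :
    (qf Z x).im = (fun i => (x i : ℝ)) ⬝ᵥ ((Z.map Complex.im).mulVec fun i => (x i : ℝ)) := by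
  unfold qf
  rw [Complex.im_sum]
  simp only [dotProduct, Matrix.mulVec, Finset.mul_sum]
  refine Finset.sum_congr rfl fun i _ => ?_
  rw [Complex.im_sum]
  refine Finset.sum_congr rfl fun j _ => ?_
  have : (x i : ℂ) * Z i j * (x j : ℂ) = (((x i : ℝ) * (x j : ℝ) : ℝ) : ℂ) * Z i j := by
    push_cast; ring
  rw [this, Complex.im_ofReal_mul, Matrix.map_apply]
  ring

theorem pos_lower {Z : Matrix (Fin g) (Fin g) ℂ} (hZ : Z ∈ upperHalf g) :
    ∃ c : ℝ, 0 < c ∧ ∀ x : Fin g → ℤ, c * ∑ i, ((x i : ℤ) : ℝ) ^ 2 ≤ (qf Z x).im := by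
  set Y := Z.map Complex.im with hY
  have hpd : Y.PosDef := hZ.2
  set t : ℝ := 1 + ∑ i, Y⁻¹ i i with ht
  have hd : ∀ i, 0 < Y⁻¹ i i := fun i => hpd.inv.diag_pos
  have ht0 : 0 < t := by
    have : 0 ≤ ∑ i, Y⁻¹ i i := Finset.sum_nonneg fun i _ => (hd i).le
    linarith
  refine ⟨t⁻¹, inv_pos.2 ht0, fun x => ?_⟩
  rw [inv_mul_le_iff₀ ht0, qf_im, ← hY]
  have h1 : ∀ i, ((x i : ℤ) : ℝ) ^ 2 ≤ Y⁻¹ i i * ((fun i => (x i : ℝ)) ⬝ᵥ (Y.mulVec fun i => (x i : ℝ))) :=
    fun i => Run7.h433.coord_sq_le hpd i (fun i => (x i : ℝ))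
  have h2 := Finset.sum_le_sum fun i (_ : i ∈ Finset.univ) => h1 i
  rw [← Finset.sum_mul] at h2
  have h3 : 0 ≤ (fun i => (x i : ℝ)) ⬝ᵥ (Y.mulVec fun i => (x i : ℝ)) :=
    Run7.h433.quad_nonneg hpd.posSemidef _
  rw [ht]
  linarith

theorem summable_tterm {Z : Matrix (Fin g) (Fin g) ℂ} (hZ : Z ∈ upperHalf g) (a b : Fin g → ℤ) :
    Summable fun n => tterm a b Z n := by
  obtain ⟨c, hc, h⟩ := pos_lower hZ
  refine Summable.of_norm_bounded (summable_gauss a (c := Real.pi / 4 * c) (by positivity)) fun n => ?_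
  rw [norm_tterm]
  apply Real.exp_le_exp.2
  have := h (2 * n + a)
  have hpi := Real.pi_pos
  nlinarith

theorem qf_add_single (Z : Matrix (Fin g) (Fin g) ℂ) (i : Fin g) (τ : ℂ) (x : Fin g → ℤ) :
    qf (Z + Matrix.single i i τ) x = qf Z x + τ * (x i : ℂ) ^ 2 := by
  unfold qf
  simp only [Matrix.add_apply, mul_add, add_mul, Finset.sum_add_distrib]
  congr 1
  rw [Finset.sum_eq_single i]
  · rw [Finset.sum_eq_single i]
    · simp [Matrix.single_apply]; ring
    · intro j _ hj; simp [Matrix.single_apply, hj.symm]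
    · simp
  · intro j _ hj
    refine Finset.sum_eq_zero fun k _ => ?_
    simp [Matrix.single_apply, hj.symm]
  · simp

/-- growth of theta constants -/
theorem norm_th_le {Z : Matrix (Fin g) (Fin g) ℂ} (hZ : Z ∈ upperHalf g) (a b : Fin g → ℤ)
    (i : Fin g) : ∃ C : ℝ, 0 ≤ C ∧ ∀ τ : ℂ, 0 ≤ τ.im →
      ‖th a b (Z + Matrix.single i i τ)‖ ≤
        C * Real.exp (-(Real.pi / 4) * (if a i % 2 = 1 then 1 else 0) * τ.im) := by
  refine ⟨∑' n, ‖tterm a b Z n‖, tsum_nonneg fun n => norm_nonneg _, fun τ hτ => ?_⟩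
  have hs := (summable_tterm hZ a b).norm
  set r : ℝ := Real.exp (-(Real.pi / 4) * (if a i % 2 = 1 then 1 else 0) * τ.im) with hr
  have hle : ∀ n, ‖tterm a b (Z + Matrix.single i i τ) n‖ ≤ ‖tterm a b Z n‖ * r := by
    intro n
    rw [norm_tterm, norm_tterm, hr, ← Real.exp_add, qf_add_single]
    apply Real.exp_le_exp.2
    have h1 : (τ * (((2 * n + a) i : ℤ) : ℂ) ^ 2).im = τ.im * (((2 * n + a) i : ℤ) : ℝ) ^ 2 := by
      have : (((2 * n + a) i : ℤ) : ℂ) ^ 2 = (((((2 * n + a) i : ℤ) : ℝ) ^ 2 : ℝ) : ℂ) := by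
        push_cast; rfl
      rw [this, Complex.im_mul_ofReal]
    rw [Complex.add_im, h1]
    have h2 : (if a i % 2 = 1 then (1 : ℝ) else 0) ≤ (((2 * n + a) i : ℤ) : ℝ) ^ 2 := by
      split_ifs with h
      · have h3 : ((2 * n + a) i : ℤ) = 2 * n i + a i := by simp [Pi.add_apply, Pi.mul_apply]
        have h4 : (1 : ℤ) ≤ ((2 * n + a) i : ℤ) ^ 2 := by
          have h5 : ((2 * n + a) i : ℤ) ≠ 0 := by rw [h3]; omega
          have := Int.one_le_abs h5
          have h6 := sq_abs ((2 * n + a) i : ℤ)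
          nlinarith
        exact_mod_cast h4
      · positivity
    have hpi := Real.pi_pos
    have h5 := mul_le_mul_of_nonneg_left h2 hτ
    nlinarith
  have hs' : Summable fun n => ‖tterm a b (Z + Matrix.single i i τ) n‖ :=
    Summable.of_nonneg_of_le (fun _ => norm_nonneg _) hle (hs.mul_right r)
  unfold th
  calc ‖∑' n, tterm a b (Z + Matrix.single i i τ) n‖
      ≤ ∑' n, ‖tterm a b (Z + Matrix.single i i τ) n‖ := norm_tsum_le_tsum_norm hs'
    _ ≤ ∑' n, ‖tterm a b Z n‖ * r := hs'.tsum_le_tsum hle (hs.mul_right r)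
    _ = (∑' n, ‖tterm a b Z n‖) * r := tsum_mul_right

/-- the products `fth c` vanish to order `ord c` at the boundary -/
theorem fth_isBigO {Z : Matrix (Fin g) (Fin g) ℂ} (hZ : Z ∈ upperHalf g) (c : Chr g → ℕ)
    (i : Fin g) {m : ℕ} (hc : m ≤ ord c (Pi.single i 1, 0)) :
    ∃ C : ℝ, 0 ≤ C ∧ ∀ τ : ℂ, 0 ≤ τ.im →
      ‖fth c (Z + Matrix.single i i τ)‖ ≤ C * Real.exp (-(2 * Real.pi * m * τ.im)) := by
  choose C hC0 hC using fun x : Chr g => norm_th_le hZ (lift x.1) (lift x.2) i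
  refine ⟨∏ x : Chr g, C x ^ (8 * c x), Finset.prod_nonneg fun x _ => pow_nonneg (hC0 x) _,
    fun τ hτ => ?_⟩
  unfold fth
  rw [norm_prod]
  have h1 : ∀ x : Chr g, ‖th (lift x.1) (lift x.2) (Z + Matrix.single i i τ) ^ (8 * c x)‖ ≤
      C x ^ (8 * c x) * Real.exp (-(2 * Real.pi * (if qx x (Pi.single i 1, 0) = 1 then c x else 0 : ℕ) * τ.im)) := by
    intro x
    rw [norm_pow]
    refine (pow_le_pow_left₀ (norm_nonneg _) (hC x τ hτ) _).trans ?_
    rw [mul_pow, ← Real.exp_nat_mul]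
    refine mul_le_mul_of_nonneg_left (Real.exp_le_exp.2 (le_of_eq ?_)) (pow_nonneg (hC0 x) _)
    have h2 : (lift x.1 i % 2 = 1) ↔ qx x (Pi.single i 1, 0) = 1 := by
      rw [qx_zero]
      have h3 : dot (Pi.single i 1) x.1 = x.1 i := by
        unfold dot
        rw [Finset.sum_eq_single i]
        · simp
        · intro j _ hj; simp [hj]
        · simp
      rw [h3, ← intCast_zmod2_one]
      have h4 : ((lift x.1 i : ℤ) : ZMod 2) = x.1 i := congrFun (red_lift x.1) i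
      rw [h4]
    by_cases h : lift x.1 i % 2 = 1
    · rw [if_pos h, if_pos (h2.1 h)]
      push_cast; ring
    · rw [if_neg h, if_neg (fun h' => h (h2.2 h'))]
      push_cast; ring
  refine (Finset.prod_le_prod (fun x _ => norm_nonneg _) fun x _ => h1 x).trans ?_
  rw [Finset.prod_mul_distrib]
  refine mul_le_mul_of_nonneg_left ?_ (Finset.prod_nonneg fun x _ => pow_nonneg (hC0 x) _)
  rw [← Real.exp_sum]
  apply Real.exp_le_exp.2
  have h2 : ∑ x : Chr g, -(2 * Real.pi * (if qx x (Pi.single i 1, 0) = 1 then c x else 0 : ℕ) * τ.im) =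
      -(2 * Real.pi * (ord c (Pi.single i 1, 0) : ℕ) * τ.im) := by
    unfold ord
    rw [Finset.sum_neg_distrib, ← Finset.sum_mul, ← Finset.mul_sum]
    push_cast
    rfl
  rw [h2]
  have h3 : (m : ℝ) ≤ (ord c (Pi.single i 1, 0) : ℝ) := by exact_mod_cast hc
  have hpi := Real.pi_pos
  have h4 : 2 * Real.pi * m * τ.im ≤ 2 * Real.pi * (ord c (Pi.single i 1, 0) : ℝ) * τ.im := by
    refine mul_le_mul_of_nonneg_right ?_ hτ
    nlinarith
  linarith

end Run7.h318
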