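import Pool.Agent.Run7.h318.Forms
import Pool.Agent.Run7.h318.Orient

/-!
# Leading coefficients of theta constants at totally degenerate points
-/

set_option autoImplicit false
set_option linter.unusedSectionVars false
set_option linter.unusedSimpArgs false

open Complex Filter Topology Run7.h433.Slope

namespace Run7.h318

variable {g : ℕ} {E : Type} [Fintype E] [DecidableEq E]

/-- A system of vectors `vₑ = (B i e)ᵢ` in `ℤ^g` which spans `ℚ^g` and such that every class modulo
two contains a vector `x` with `|vₑ · x| ≤ 1` for all `e`. -/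
structure Sys (B : Fin g → E → ℤ) : Prop where
  inj : ∀ x : Fin g → ℤ, (∀ e, val B x e = 0) → x = 0
  base : ∀ a : Fin g → ℤ, ∃ m : Fin g → ℤ, ∀ e, |val B (2 * m + a) e| ≤ 1

namespace Sys

variable {B : Fin g → E → ℤ}

theorem val_inj (h : Sys B) {x y : Fin g → ℤ} (hxy : ∀ e, val B x e = val B y e) : x = y := by
  have := h.inj (x - y) (fun e => by rw [val_sub, hxy e, sub_self])
  exact sub_eq_zero.1 this

/-- vectors with even values are even -/
theorem red_eq_zero (h : Sys B) {x : Fin g → ℤ} (hx : ∀ e, val B x e % 2 = 0) : red x = 0 := by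
  obtain ⟨m, hm⟩ := h.base x
  have h1 : 2 * m + x = 0 := by
    refine h.inj _ fun e => ?_
    have h2 := abs_le.1 (hm e)
    have h3 := val_two_mul_add B m x e
    have h4 := hx e
    omega
  ext i
  have h2 := congrFun h1 i
  simp only [Pi.add_apply, Pi.mul_apply, Pi.ofNat_apply, Pi.zero_apply] at h2
  have h3 : x i = -(2 * m i) := by omega
  simp [red, h3, show (2 : ZMod 2) = 0 from rfl]

theorem val_even (_ : Sys B) {e : E} (he : ev B e = 0) (x : Fin g → ℤ) : val B x e % 2 = 0 := by
  rw [← intCast_zmod2, ← dot_ev, he, dot_zero_left]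

theorem val_eq_zero (h : Sys B) {e : E} (he : ev B e = 0) : ∀ x : Fin g → ℤ, val B x e = 0 := by
  have key : ∀ n : ℕ, ∀ x : Fin g → ℤ, (val B x e).natAbs ≤ n → val B x e = 0 := by
    intro n
    induction n with
    | zero => intro x hx; omega
    | succ n ih =>
      intro x hn
      obtain ⟨m, hm⟩ := h.base x
      have h1 := h.val_even he (2 * m + x)
      have h2 := abs_le.1 (hm e)
      have h3 := val_two_mul_add B m x e
      have h4 := ih m (by omega)
      omega
  intro x
  exact key _ x le_rfl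

theorem ev_ne_zero (h : Sys B) {e : E} (he : ∃ i, B i e ≠ 0) : ev B e ≠ 0 := by
  intro h0
  obtain ⟨i, hi⟩ := he
  apply hi
  have := h.val_eq_zero h0 (Pi.single i 1)
  unfold val at this
  rw [Finset.sum_eq_single i] at this
  · simpa using this
  · intro j _ hj; simp [hj]
  · simp

/-- the coordinates of a vector are controlled by its values -/
theorem exists_K (h : Sys B) : ∃ K : ℝ, 0 < K ∧
    ∀ x : Fin g → ℤ, ∑ i, ((x i : ℤ) : ℝ) ^ 2 ≤ K * ∑ e, ((val B x e : ℤ) : ℝ) ^ 2 := by
  classical
  set T : (Fin g → ℚ) →ₗ[ℚ] (E → ℚ) :=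
    { toFun := fun x e => ∑ i, x i * (B i e : ℚ)
      map_add' := fun x y => by
        ext e; simp [add_mul, Finset.sum_add_distrib]
      map_smul' := fun c x => by
        ext e; simp [Finset.mul_sum, mul_assoc] } with hT
  have hTval : ∀ x : Fin g → ℤ, T (fun i => (x i : ℚ)) = fun e => (val B x e : ℚ) := by
    intro x
    ext e
    simp only [hT, LinearMap.coe_mk, AddHom.coe_mk, val]
    push_cast; rfl
  have hinj : LinearMap.ker T = ⊥ := by
    rw [LinearMap.ker_eq_bot']
    intro x hx
    set N : ℕ := ∏ i, (x i).den with hN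
    have hN0 : (N : ℚ) ≠ 0 := by
      rw [hN]
      exact_mod_cast Finset.prod_ne_zero_iff.2 fun i _ => (x i).den_nz
    have h1 : ∀ i, ∃ y : ℤ, (y : ℚ) = N * x i := by
      intro i
      obtain ⟨k, hk⟩ : (x i).den ∣ N := Finset.dvd_prod_of_mem _ (Finset.mem_univ i)
      refine ⟨k * (x i).num, ?_⟩
      rw [hk]
      have := Rat.den_mul_eq_num (x i)
      push_cast
      rw [← this]; ring
    choose y hy using h1
    have h2 : y = 0 := by
      refine h.inj _ fun e => ?_
      have h3 : T (fun i => (y i : ℚ)) = 0 := by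
        have : (fun i => (y i : ℚ)) = (N : ℚ) • x := by
          ext i; rw [hy i]; rfl
        rw [this, map_smul, hx, smul_zero]
      rw [hTval] at h3
      have := congrFun h3 e
      simpa using this
    ext i
    have := hy i
    rw [h2] at this
    simp only [Pi.zero_apply, Int.cast_zero] at this
    rcases mul_eq_zero.1 this.symm with h4 | h4
    · exact absurd h4 hN0
    · exact h4
  obtain ⟨G, hG⟩ := T.exists_leftInverse_of_injective hinj
  have hx : ∀ (x : Fin g → ℤ) (i : Fin g), ((x i : ℤ) : ℝ) =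
      ∑ e, ((G (Pi.single e 1) i : ℚ) : ℝ) * ((val B x e : ℤ) : ℝ) := by
    intro x i
    have h1 : (x i : ℚ) = ∑ e, (G (Pi.single e 1) i) * (val B x e : ℚ) := by
      have h2 : G (T (fun i => (x i : ℚ))) = fun i => (x i : ℚ) := by
        have := LinearMap.congr_fun hG (fun i => (x i : ℚ))
        simpa using this
      rw [hTval] at h2
      have h3 := congrFun h2 i
      rw [← h3]
      conv_lhs => rw [LinearMap.pi_apply_eq_sum_univ G]
      rw [Finset.sum_apply]
      refine Finset.sum_congr rfl fun e _ => ?_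
      rw [Pi.smul_apply, smul_eq_mul, mul_comm]
      have h5 : (fun j => if e = j then (1 : ℚ) else 0) = Pi.single e 1 := by
        ext e'
        simp [Pi.single_apply, eq_comm]
      rw [h5]
    have h4 : ((x i : ℚ) : ℝ) = ((∑ e, (G (Pi.single e 1) i) * (val B x e : ℚ) : ℚ) : ℝ) := by
      rw [h1]
    push_cast at h4
    exact h4
  refine ⟨1 + ∑ i, ∑ e, ((G (Pi.single e 1) i : ℚ) : ℝ) ^ 2, by positivity, fun x => ?_⟩
  rw [add_mul, Finset.sum_mul]
  have h1 : ∀ i, ((x i : ℤ) : ℝ) ^ 2 ≤ (∑ e, ((G (Pi.single e 1) i : ℚ) : ℝ) ^ 2) *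
      ∑ e, ((val B x e : ℤ) : ℝ) ^ 2 := by
    intro i
    rw [hx x i]
    exact Finset.sum_mul_sq_le_sq_mul_sq _ _ _
  have h2 := Finset.sum_le_sum fun i (_ : i ∈ Finset.univ) => h1 i
  have h3 : 0 ≤ ∑ e, ((val B x e : ℤ) : ℝ) ^ 2 := by positivity
  linarith

/-! ### Signs -/

/-- the character of `ℤ/2` -/
def sg (t : ZMod 2) : ℂ := if t = 0 then 1 else -1

theorem sg_ne_zero (t : ZMod 2) : sg t ≠ 0 := by
  unfold sg; split_ifs <;> norm_num

theorem sg_add (s t : ZMod 2) : sg (s + t) = sg s * sg t := by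
  unfold sg
  rcases zmod2_cases s with h | h <;> rcases zmod2_cases t with h' | h' <;> rw [h, h'] <;>
    simp [show (1 + 1 : ZMod 2) = 0 from rfl]

theorem exp_sg (k : ℤ) : cexp (-(Real.pi * I * k)) = sg (k : ZMod 2) := by
  unfold sg
  split_ifs with h
  · obtain ⟨r, hr⟩ : ∃ r, k = 2 * r := ⟨k / 2, by have := (intCast_zmod2 k).1 h; omega⟩
    rw [hr]
    have : -(Real.pi * I * ((2 * r : ℤ) : ℂ)) = ((-r : ℤ) : ℂ) * (2 * Real.pi * I) := by
      push_cast; ring
    rw [this, Complex.exp_int_mul_two_pi_mul_I]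
  · obtain ⟨r, hr⟩ : ∃ r, k = 2 * r - 1 := ⟨(k + 1) / 2, by
      have h1 : ¬ k % 2 = 0 := fun h2 => h ((intCast_zmod2 k).2 h2)
      omega⟩
    rw [hr]
    have : -(Real.pi * I * ((2 * r - 1 : ℤ) : ℂ)) =
        ((-r : ℤ) : ℂ) * (2 * Real.pi * I) + Real.pi * I := by
      push_cast; ring
    rw [this, Complex.exp_add, Complex.exp_int_mul_two_pi_mul_I, one_mul, Complex.exp_pi_mul_I]

theorem sum_sg {w : Fin g → ZMod 2} (hw : w ≠ 0) : ∑ b : Fin g → ZMod 2, sg (dot w b) = 0 := by
  obtain ⟨i, hi⟩ : ∃ i, w i ≠ 0 := by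
    by_contra hc
    push Not at hc
    exact hw (funext hc)
  have hi1 : w i = 1 := (zmod2_cases (w i)).resolve_left hi
  have h1 : ∑ b : Fin g → ZMod 2, sg (dot w b) = ∑ b : Fin g → ZMod 2, sg (dot w (b + Pi.single i 1)) :=
    (Equiv.sum_comp (Equiv.addRight (Pi.single i (1 : ZMod 2) : Fin g → ZMod 2))
      (fun b => sg (dot w b))).symm
  have h2 : dot w (Pi.single i 1) = 1 := by
    unfold dot
    rw [Finset.sum_eq_single i]
    · simp [hi1]
    · intro j _ hj; simp [hj]
    · simp
  have h3 : ∀ b : Fin g → ZMod 2, sg (dot w (b + Pi.single i 1)) = -sg (dot w b) := by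
    intro b
    rw [dot_add_right, h2, sg_add]
    simp [sg]
  simp only [h3] at h1
  rw [Finset.sum_neg_distrib] at h1
  exact self_eq_neg.1 h1

/-! ### The theta constants at the point -/

theorem D_of (h : Sys B) {m₀ n a : Fin g → ℤ} (hm : ∀ e, |val B (2 * m₀ + a) e| ≤ 1)
    (hn : ∀ e, |val B (2 * n + a) e| ≤ 1) : m₀ - n ∈ GData.D B (2 * m₀ + a) := by
  intro e
  have h1 := abs_le.1 (hn e)
  have h2 := abs_le.1 (hm e)
  have h3 := val_two_mul_add B n a e
  have h4 := val_two_mul_add B m₀ a e
  rw [val_sub]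
  omega

theorem finite_O (h : Sys B) (a : Fin g → ℤ) :
    Set.Finite {n : Fin g → ℤ | ∀ e, |val B (2 * n + a) e| ≤ 1} := by
  have h1 : Set.Finite {z : E → ℤ | ∀ e, z e ∈ Set.Icc (-1 : ℤ) 1} := by
    have := Set.Finite.pi' (t := fun _ : E => Set.Icc (-1 : ℤ) 1) (fun _ => Set.finite_Icc _ _)
    exact this
  refine Set.Finite.of_finite_image (f := fun n => val B (2 * n + a)) (h1.subset ?_) ?_
  · rintro _ ⟨n, hn, rfl⟩ e
    have := abs_le.1 (hn e)
    exact ⟨this.1, this.2⟩
  · intro n _ n' _ hnn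
    have := h.val_inj (fun e => congrFun hnn e)
    ext i
    have h2 := congrFun this i
    simp [Pi.add_apply, Pi.mul_apply] at h2
    exact h2

/-- change of the second characteristic in a single term -/
theorem tterm_shift (A : Matrix (Fin g) (Fin g) ℂ) (a b c m₀ n : Fin g → ℤ) :
    tterm a (b + c) A n = cexp (Real.pi * I / 2 * ∑ i, (((2 * m₀ + a : Fin g → ℤ) i : ℤ) : ℂ) * (c i : ℂ)) *
      sg ((∑ i, (m₀ - n) i * c i : ℤ) : ZMod 2) * tterm a b A n := by
  rw [← exp_sg]
  unfold tterm
  rw [← Complex.exp_add, ← Complex.exp_add]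
  congr 1
  have h1 : ∑ i, ((2 * n + a) i : ℂ) * ((b + c) i : ℂ) = ∑ i, ((2 * n + a) i : ℂ) * (b i : ℂ) +
      ∑ i, (((2 * m₀ + a : Fin g → ℤ) i : ℤ) : ℂ) * (c i : ℂ) - 2 * ((∑ i, (m₀ - n) i * c i : ℤ) : ℂ) := by
    push_cast
    rw [Finset.mul_sum, ← Finset.sum_add_distrib, ← Finset.sum_sub_distrib]
    refine Finset.sum_congr rfl fun i _ => ?_
    simp only [Pi.add_apply, Pi.mul_apply, Pi.sub_apply, Pi.ofNat_apply]
    push_cast; ring
  rw [h1]
  ring

/-- the leading coefficient is a finite sum -/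
theorem lam_eq (h : Sys B) (A : Matrix (Fin g) (Fin g) ℂ) (a b : Fin g → ℤ) :
    lam B A a b = ∑ n ∈ (h.finite_O a).toFinset, tterm a b A n := by
  classical
  unfold lam
  rw [tsum_eq_sum (s := (h.finite_O a).toFinset)]
  · refine Finset.sum_congr rfl fun n hn => ?_
    rw [Set.Finite.mem_toFinset] at hn
    have hn' : ∀ e, |val B (2 * n + a) e| ≤ 1 := hn
    unfold lterm
    rw [if_pos hn']
  · intro n hn
    rw [Set.Finite.mem_toFinset] at hn
    have hn' : ¬ ∀ e, |val B (2 * n + a) e| ≤ 1 := hn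
    unfold lterm
    rw [if_neg hn']

/-- the leading coefficient is unchanged, up to a non-zero factor, by characteristics orthogonal to
the differences -/
theorem lam_shift (h : Sys B) (A : Matrix (Fin g) (Fin g) ℂ) {a m₀ : Fin g → ℤ}
    (hm : ∀ e, |val B (2 * m₀ + a) e| ≤ 1) (b c : Fin g → ℤ)
    (hc : ∀ u ∈ GData.D B (2 * m₀ + a), ((∑ i, u i * c i : ℤ) : ZMod 2) = 0) :
    lam B A a (b + c) =
      cexp (Real.pi * I / 2 * ∑ i, (((2 * m₀ + a : Fin g → ℤ) i : ℤ) : ℂ) * (c i : ℂ)) * lam B A a b := by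
  rw [h.lam_eq, h.lam_eq, Finset.mul_sum]
  refine Finset.sum_congr rfl fun n hn => ?_
  rw [Set.Finite.mem_toFinset] at hn
  rw [tterm_shift A a b c m₀ n, hc _ (h.D_of hm hn)]
  simp [sg]

/-- some theta constant with first characteristic `a` does not vanish -/
theorem exists_lam (h : Sys B) (A : Matrix (Fin g) (Fin g) ℂ) {a m₀ : Fin g → ℤ}
    (hm : ∀ e, |val B (2 * m₀ + a) e| ≤ 1) : ∃ b : Fin g → ZMod 2, lam B A a (lift b) ≠ 0 := by
  by_contra hc
  push Not at hc
  have h1 : ∀ b : Fin g → ZMod 2, ∑ n ∈ (h.finite_O a).toFinset,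
      sg (dot (red (m₀ - n)) b) * tterm a 0 A n = 0 := by
    intro b
    have h2 := hc b
    rw [h.lam_eq, show lift b = 0 + lift b by rw [zero_add],
      Finset.sum_congr rfl (fun n _ => tterm_shift A a 0 (lift b) m₀ n)] at h2
    have h3 : ∀ n, ((∑ i, (m₀ - n) i * lift b i : ℤ) : ZMod 2) = dot (red (m₀ - n)) b := by
      intro n
      push_cast
      unfold dot
      refine Finset.sum_congr rfl fun i _ => ?_
      have : ((lift b i : ℤ) : ZMod 2) = b i := congrFun (red_lift b) i
      rw [this]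
      rfl
    simp only [h3, mul_assoc] at h2
    rw [← Finset.mul_sum] at h2
    exact (mul_eq_zero.1 h2).resolve_left (Complex.exp_ne_zero _)
  have h2 : ∑ b : Fin g → ZMod 2, ∑ n ∈ (h.finite_O a).toFinset,
      sg (dot (red (m₀ - n)) b) * tterm a 0 A n = 0 := Finset.sum_eq_zero fun b _ => h1 b
  rw [Finset.sum_comm] at h2
  rw [Finset.sum_eq_single m₀] at h2
  · rw [← Finset.sum_mul] at h2
    rcases mul_eq_zero.1 h2 with h3 | h3
    · have h4 : ∀ b : Fin g → ZMod 2, sg (dot (red (m₀ - m₀)) b) = 1 := by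
        intro b
        have : red (m₀ - m₀) = 0 := by rw [sub_self]; ext i; simp [red]
        rw [this, dot_zero_left]
        simp [sg]
      simp only [h4] at h3
      rw [Finset.sum_const, Finset.card_univ, nsmul_eq_mul, mul_one, Nat.cast_eq_zero] at h3
      exact Fintype.card_ne_zero h3
    · exact Complex.exp_ne_zero _ h3
  · intro n hn hne
    rw [Set.Finite.mem_toFinset] at hn
    rw [← Finset.sum_mul, sum_sg, zero_mul]
    intro h3
    apply hne
    have h4 : m₀ - n = 0 := by
      refine h.inj _ fun e => ?_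
      have h5 := h.D_of hm hn e
      have h6 := GData.even_of_red (B := B) h3 e
      have h7 := abs_le.1 (hm e)
      rcases h5 with h5 | h5 <;> omega
    exact (sub_eq_zero.1 h4).symm
  · intro hn
    exfalso
    apply hn
    rw [Set.Finite.mem_toFinset]
    exact hm

/-- a weight function on the characteristics, adapted to the point -/
theorem exists_weight (h : Sys B) (A : Matrix (Fin g) (Fin g) ℂ) :
    ∃ m : ℕ, 1 ≤ m ∧ ∃ c : Chr g → ℕ, ∑ x, c x = 3 * m ∧ (∀ v : Chr g, v ≠ 0 → m ≤ ord c v) ∧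
      (∀ p : Fin g → ZMod 2, p ≠ 0 → ord c (p, 0) = m) ∧
      ∀ x, c x ≠ 0 → lam B A (lift x.1) (lift x.2) ≠ 0 := by
  classical
  choose m₀ hm₀ using fun a : Fin g → ZMod 2 => h.base (lift a)
  choose b₀ hb₀ using fun a : Fin g → ZMod 2 => h.exists_lam A (hm₀ a)
  set x₀ : (Fin g → ZMod 2) → (Fin g → ℤ) := fun a => 2 * m₀ a + lift a with hx₀
  have hred : ∀ a, red (x₀ a) = a := by
    intro a
    have : red (x₀ a) = red (2 * m₀ a) + red (lift a) := red_add _ _
    rw [this, red_lift]
    ext i
    simp [red, show (2 : ZMod 2) = 0 from rfl]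
  set W : (Fin g → ZMod 2) → Submodule (ZMod 2) (Fin g → ZMod 2) := fun a =>
    Submodule.span (ZMod 2) (red '' GData.D B (x₀ a)) with hW
  -- the good second characteristics
  set Bs : (Fin g → ZMod 2) → Finset (Fin g → ZMod 2) := fun a =>
    Finset.univ.filter fun b => ∀ u ∈ GData.D B (x₀ a), dot (red u) (b + b₀ a) = 0 with hBs
  have hmem : ∀ a b, b ∈ Bs a ↔ ∀ u ∈ GData.D B (x₀ a), dot (red u) (b + b₀ a) = 0 := fun a b => by
    rw [hBs]; simp
  obtain ⟨m, hm, c, h1, h2, h3, h4⟩ := Run7.h318.exists_weight Bs (fun a => (W a : Set _)) (by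
      intro a
      refine ⟨b₀ a, (hmem _ _).2 fun u _ => ?_⟩
      rw [add_self2, dot_zero_right]) (by
      intro q hq
      have hle : W 0 ≤ ⊥ := by
        rw [hW, Submodule.span_le]
        rintro _ ⟨u, hu, rfl⟩
        show red u ∈ (⊥ : Submodule (ZMod 2) (Fin g → ZMod 2))
        rw [Submodule.mem_bot]
        refine h.red_eq_zero fun e => ?_
        have e1 := GData.even_of_red (B := B) (hred 0) e
        have e2 := abs_le.1 (hm₀ 0 e)
        have e3 := hu e
        have e4 : val B (x₀ 0) e = val B (2 * m₀ 0 + lift 0) e := rfl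
        rcases e3 with e3 | e3 <;> omega
      exact (Submodule.mem_bot _).1 (hle hq)) (by
      intro q hq
      obtain ⟨e, he⟩ : ∃ e, val B (lift q) e % 2 ≠ 0 := by
        by_contra hc
        push Not at hc
        have := h.red_eq_zero hc
        rw [red_lift] at this
        exact hq this
      have he1 : val B (lift q) e % 2 = 1 := by omega
      have he2 : dot (ev B e) q = 1 := by
        have := dot_ev B (lift q) e
        rw [red_lift] at this
        rw [this, intCast_zmod2_one]
        exact he1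
      refine ⟨ev B e, ?_, ?_⟩
      · intro h0
        rw [h0, dot_zero_left] at he2
        exact absurd he2 (by decide)
      · intro a hqa
        by_contra hne
        have ha : dot (ev B e) a = 0 := (zmod2_cases _).resolve_right hne
        have hv0 : val B (x₀ a) e = 0 := by
          have e1 : (val B (x₀ a) e : ZMod 2) = 0 := by rw [← dot_ev, hred, ha]
          have e2 := (intCast_zmod2 _).1 e1
          have e3 := abs_le.1 (hm₀ a e)
          have e4 : val B (x₀ a) e = val B (2 * m₀ a + lift a) e := rfl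
          omega
        let φ : (Fin g → ZMod 2) →ₗ[ZMod 2] ZMod 2 :=
          { toFun := fun y => dot (ev B e) y
            map_add' := fun y y' => dot_add_right _ _ _
            map_smul' := fun t y => by
              unfold dot
              rw [RingHom.id_apply, smul_eq_mul, Finset.mul_sum]
              refine Finset.sum_congr rfl fun i _ => ?_
              rw [Pi.smul_apply, smul_eq_mul]; ring }
        have hle : W a ≤ LinearMap.ker φ := by
          rw [hW, Submodule.span_le]
          rintro _ ⟨u, hu, rfl⟩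
          show dot (ev B e) (red u) = 0
          rw [dot_ev]
          have : val B u e = 0 := by
            rcases hu e with e1 | e1
            · exact e1
            · rw [e1, hv0]
          rw [this]; simp
        have : dot (ev B e) q = 0 := hle hqa
        rw [he2] at this
        exact absurd this (by decide)) (by
      intro a q hq t
      obtain ⟨f, hf1, hf2⟩ := Submodule.exists_le_ker_of_notMem (p := W a) (v := q) hq
      obtain ⟨b', hb'⟩ := exists_dot f
      have hb1 : dot q b' = 1 := by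
        rcases zmod2_cases (dot q b') with h | h
        · rw [hb'] at hf1; exact absurd h hf1
        · exact h
      have hz : ∀ u ∈ GData.D B (x₀ a), dot (red u) b' = 0 := fun u hu => by
        rw [← hb']
        exact hf2 (Submodule.subset_span ⟨u, hu, rfl⟩)
      have hb'' : ∀ b, b + b' ∈ Bs a ↔ b ∈ Bs a := by
        intro b
        rw [hmem, hmem]
        refine forall₂_congr fun u hu => ?_
        rw [dot_add_right, dot_add_right, dot_add_right, hz u hu, add_zero]
      have e1 : ((Bs a).filter fun b => dot q b = t).card =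
          ((Bs a).filter fun b => ¬ dot q b = t).card := by
        refine Finset.card_bij (fun b _ => b + b') ?_ ?_ ?_
        · intro b hb
          rw [Finset.mem_filter] at hb ⊢
          refine ⟨(hb'' b).2 hb.1, ?_⟩
          rw [dot_add_right, hb1, hb.2]
          have : ∀ x : ZMod 2, ¬ x + 1 = x := by decide
          exact this t
        · intro b _ b'' _ hbb
          exact add_right_cancel hbb
        · intro b hb
          rw [Finset.mem_filter] at hb
          have e2 : b + b' + b' = b := by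
            rw [add_assoc, add_self2, add_zero]
          refine ⟨b + b', ?_, e2⟩
          rw [Finset.mem_filter]
          refine ⟨(hb'' b).2 hb.1, ?_⟩
          rw [dot_add_right, hb1]
          have : ∀ x y : ZMod 2, ¬ x = y → x + 1 = y := by decide
          exact this _ _ hb.2
      have e3 := Finset.card_filter_add_card_filter_not (s := Bs a) (fun b => dot q b = t)
      omega)
  refine ⟨m, hm, c, h1, h2, h3, fun x hx => ?_⟩
  have h5 := (hmem _ _).1 (h4 x hx)
  have h6 : lift x.2 = lift (b₀ x.1) + (lift x.2 - lift (b₀ x.1)) := by ring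
  rw [h6, h.lam_shift A (hm₀ x.1)]
  · exact mul_ne_zero (Complex.exp_ne_zero _) (hb₀ x.1)
  · intro u hu
    have h7 := h5 u hu
    rw [← h7]
    unfold dot
    push_cast
    refine Finset.sum_congr rfl fun i _ => ?_
    simp only [Pi.sub_apply, Pi.add_apply]
    push_cast
    have e1 : ((lift x.2 i : ℤ) : ZMod 2) = x.2 i := congrFun (red_lift x.2) i
    have e2 : ((lift (b₀ x.1) i : ℤ) : ZMod 2) = b₀ x.1 i := congrFun (red_lift (b₀ x.1)) i
    rw [e1, e2]
    show (u i : ZMod 2) * (x.2 i - b₀ x.1 i) = (u i : ZMod 2) * (x.2 i + b₀ x.1 i)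
    have : ∀ r s t : ZMod 2, r * (s - t) = r * (s + t) := by decide
    exact this _ _ _

/-! ### Limits -/

theorem fth_limit (h : Sys B) (A : Matrix (Fin g) (Fin g) ℂ) {ι : Type*} {l : Filter ι}
    (s : ι → E → ℂ) (A' : ι → Matrix (Fin g) (Fin g) ℂ)
    (hs : ∀ e, Tendsto (fun k => (s k e).im) l atTop)
    (hA : ∀ i j, Tendsto (fun k => A' k i j) l (𝓝 (A i j))) {m : ℕ} {c : Chr g → ℕ}
    (hc : ∀ v : Chr g, v ≠ 0 → m ≤ ord c v) :
    Tendsto (fun k => fth c (nil B (s k) (A' k)) * GData.nrm B m (s k)) l (𝓝 (Lam B A m c)) := by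
  classical
  obtain ⟨K, hK0, hK⟩ := h.exists_K
  -- nonnegative excess
  set d : E → ℕ := fun e => if ∃ i, B i e ≠ 0 then ord c (ev B e, 0) - m else 0 with hd
  have hev : ∀ e, ev B e ≠ 0 ↔ ∃ i, B i e ≠ 0 := by
    intro e
    constructor
    · intro h1
      by_contra h2
      push Not at h2
      exact h1 (by ext i; simp [ev, h2 i])
    · exact h.ev_ne_zero
  have hord : ∀ e, (ord c (ev B e, 0) : ℂ) = d e + if ∃ i, B i e ≠ 0 then (m : ℂ) else 0 := by
    intro e
    simp only [hd]
    by_cases h1 : ∃ i, B i e ≠ 0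
    · have h2 : m ≤ ord c (ev B e, 0) := hc _ (fun h3 => (hev e).2 h1 (congrArg Prod.fst h3))
      rw [if_pos h1, if_pos h1]
      push_cast [h2]; ring
    · have h2 : ev B e = 0 := by
        by_contra h3
        exact h1 ((hev e).1 h3)
      rw [if_neg h1, if_neg h1, h2]
      have : ord c ((0 : Fin g → ZMod 2), (0 : Fin g → ZMod 2)) = 0 := ord_zero c
      rw [this]; simp
  have hrew : ∀ k, fth c (nil B (s k) (A' k)) * GData.nrm B m (s k) =
      (∏ x : Chr g, (th (lift x.1) (lift x.2) (nil B (s k) (A' k)) * fac B (lift x.1) (s k)) ^ (8 * c x)) *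
        ∏ e, cexp (2 * Real.pi * I * (s k e * d e)) := by
    intro k
    simp only [mul_pow]
    rw [Finset.prod_mul_distrib, prod_fac]
    unfold fth GData.nrm
    rw [mul_assoc (∏ x : Chr g, _), ← Complex.exp_sum, ← Complex.exp_add]
    congr 2
    rw [← Finset.mul_sum]
    have : ∑ e, s k e * (ord c (ev B e, 0) : ℂ) = ∑ e, s k e * d e +
        m * ∑ e, (if ∃ i, B i e ≠ 0 then s k e else 0) := by
      rw [Finset.mul_sum, ← Finset.sum_add_distrib]
      refine Finset.sum_congr rfl fun e _ => ?_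
      rw [hord e]
      split_ifs <;> ring
    rw [this]
    ring
  simp only [hrew]
  have hexp : ∀ e, d e ≠ 0 → Tendsto (fun k => cexp (2 * Real.pi * I * (s k e * d e))) l (𝓝 0) := by
    intro e he
    rw [tendsto_zero_iff_norm_tendsto_zero]
    have h1 : ∀ k, ‖cexp (2 * Real.pi * I * (s k e * d e))‖ =
        Real.exp (-(2 * Real.pi * d e) * (s k e).im) := by
      intro k
      rw [Complex.norm_exp]
      congr 1
      have : 2 * Real.pi * I * (s k e * d e) = ((2 * Real.pi * d e : ℝ) : ℂ) * (I * s k e) := by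
        push_cast; ring
      rw [this, Complex.re_ofReal_mul, Complex.I_mul_re]
      ring
    simp only [h1]
    have h2 : 0 < (d e : ℝ) := by exact_mod_cast Nat.pos_of_ne_zero he
    have h3 : Tendsto (fun k => -(2 * Real.pi * d e) * (s k e).im) l atBot :=
      Tendsto.const_mul_atTop_of_neg (by nlinarith [Real.pi_pos]) (hs e)
    exact Real.tendsto_exp_atBot.comp h3
  have hprod : Tendsto (fun k => ∏ x : Chr g,
      (th (lift x.1) (lift x.2) (nil B (s k) (A' k)) * fac B (lift x.1) (s k)) ^ (8 * c x)) l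
      (𝓝 (∏ x : Chr g, lam B A (lift x.1) (lift x.2) ^ (8 * c x))) := by
    refine tendsto_finsetProd _ fun x _ => ?_
    exact (th_limit B hK0 hK s A' A hs hA (lift x.1) (lift x.2)).pow _
  have hexp' : Tendsto (fun k => ∏ e, cexp (2 * Real.pi * I * (s k e * d e))) l
      (𝓝 (∏ e, if d e = 0 then (1 : ℂ) else 0)) := by
    refine tendsto_finsetProd _ fun e _ => ?_
    by_cases he : d e = 0
    · rw [if_pos he]
      simp only [he, Nat.cast_zero, mul_zero, Complex.exp_zero]
      exact tendsto_const_nhds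
    · rw [if_neg he]
      exact hexp e he
  have hfin := hprod.mul hexp'
  have hval : (∏ x : Chr g, lam B A (lift x.1) (lift x.2) ^ (8 * c x)) *
      (∏ e, if d e = 0 then (1 : ℂ) else 0) = Lam B A m c := by
    unfold Lam
    split_ifs with h1
    · have h3 : (∏ e, if d e = 0 then (1 : ℂ) else 0) = 1 := by
        refine Finset.prod_eq_one fun e _ => ?_
        rw [if_pos]
        simp only [hd]
        split_ifs with h2
        · rw [h1 e ((hev e).2 h2)]; simp
        · rfl
      rw [h3, mul_one]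
    · push Not at h1
      obtain ⟨e, he1, he2⟩ := h1
      rw [Finset.prod_eq_zero (Finset.mem_univ e), mul_zero]
      rw [if_neg]
      simp only [hd]
      rw [if_pos ((hev e).1 he1)]
      have : m ≤ ord c (ev B e, 0) := hc _ (fun h3 => he1 (congrArg Prod.fst h3))
      omega
  rwa [hval] at hfin

open Classical in
/-- **Main theorem.** -/
theorem exists_form (h : Sys B) (A : Matrix (Fin g) (Fin g) ℂ) :
    ∃ m : ℕ, 1 ≤ m ∧ ∃ F : Matrix (Fin g) (Fin g) ℂ → ℂ, IsForm g (12 * (m : ℤ)) F ∧
      VanishesTo m F ∧ ∃ L : ℂ, L ≠ 0 ∧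
        ∀ (ι : Type) (l : Filter ι) (s : ι → E → ℂ) (A' : ι → Matrix (Fin g) (Fin g) ℂ),
          (∀ e, Tendsto (fun k => (s k e).im) l atTop) →
          (∀ i j, Tendsto (fun k => A' k i j) l (𝓝 (A i j))) →
          Tendsto (fun k => F (nil B (s k) (A' k)) *
            cexp (-(2 * Real.pi * I * m * ∑ e, if ∃ i, B i e ≠ 0 then s k e else 0))) l (𝓝 L) := by
  obtain ⟨m, hm, c, h1, h2, h3, h4⟩ := h.exists_weight A
  have hc : c ∈ Adm g m := mem_Adm.2 ⟨h1, h2⟩
  obtain ⟨j, hj, hne⟩ := exists_esymm_ne (Adm g m) (fun c => Lam B A m c) hc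
    (GData.Lam_ne_zero h3 h4)
  refine ⟨m * j, Nat.mul_pos hm hj, Fm g m j, Fm_isForm m j, Fm_vanishes m j, _, hne, ?_⟩
  intro ι l s A' hs hA
  have h5 : ∀ k, Fm g m j (nil B (s k) (A' k)) *
      cexp (-(2 * Real.pi * I * ((m * j : ℕ) : ℂ) * ∑ e, if ∃ i, B i e ≠ 0 then s k e else 0)) =
      ∑ T ∈ (Adm g m).powersetCard j, ∏ c ∈ T, (fth c (nil B (s k) (A' k)) * GData.nrm B m (s k)) := by
    intro k
    unfold Fm
    rw [Finset.sum_mul]
    refine Finset.sum_congr rfl fun T hT => ?_
    rw [Finset.mem_powersetCard] at hT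
    rw [Finset.prod_mul_distrib, Finset.prod_const, hT.2]
    congr 1
    unfold GData.nrm
    rw [← Complex.exp_nat_mul]
    congr 1
    push_cast; ring
  simp only [h5]
  refine tendsto_finsetSum _ fun T hT => tendsto_finsetProd _ fun c hc => ?_
  rw [Finset.mem_powersetCard] at hT
  exact h.fth_limit A s A' hs hA (mem_Adm.1 (hT.1 hc)).2

end Sys

end Run7.h318
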