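import Mathlib

/-!
# Theta constants with half integral characteristics
-/

set_option autoImplicit false

open Complex

namespace Run7.h318

variable {g : ℕ}

/-- the quadratic form `x ↦ xᵀ Z x` -/
noncomputable def qf (Z : Matrix (Fin g) (Fin g) ℂ) (x : Fin g → ℤ) : ℂ :=
  ∑ i, ∑ j, (x i : ℂ) * Z i j * (x j : ℂ)

/-- a term of the theta series -/
noncomputable def tterm (a b : Fin g → ℤ) (Z : Matrix (Fin g) (Fin g) ℂ) (n : Fin g → ℤ) : ℂ :=
  cexp (Real.pi * I / 4 * qf Z (2 * n + a) + Real.pi * I / 2 * ∑ i, ((2 * n + a) i : ℂ) * (b i : ℂ))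

/-- the theta constant with characteristic `(a/2, b/2)` -/
noncomputable def th (a b : Fin g → ℤ) (Z : Matrix (Fin g) (Fin g) ℂ) : ℂ :=
  ∑' n : Fin g → ℤ, tterm a b Z n

/-- products of summable functions of independent variables are summable -/
theorem summable_pi_prod {ι α : Type*} [Fintype ι] (f : ι → α → ℝ)
    (hf0 : ∀ i a, 0 ≤ f i a) (hf : ∀ i, Summable (f i)) :
    Summable fun n : ι → α => ∏ i, f i (n i) := by
  classical
  refine summable_of_sum_le (c := ∏ i, ∑' a, f i a)
    (fun n => Finset.prod_nonneg fun i _ => hf0 i _) fun s => ?_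
  calc ∑ n ∈ s, ∏ i, f i (n i)
      ≤ ∑ n ∈ Fintype.piFinset (fun i => s.image fun n => n i), ∏ i, f i (n i) := by
        refine Finset.sum_le_sum_of_subset_of_nonneg ?_ fun n _ _ =>
          Finset.prod_nonneg fun i _ => hf0 i _
        intro n hn
        rw [Fintype.mem_piFinset]
        intro i
        exact Finset.mem_image_of_mem _ hn
    _ = ∏ i, ∑ a ∈ s.image (fun n => n i), f i a := by
        rw [Finset.prod_univ_sum]
    _ ≤ ∏ i, ∑' a, f i a :=
        Finset.prod_le_prod (fun i _ => Finset.sum_nonneg fun a _ => hf0 i a) fun i _ =>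
          (hf i).sum_le_tsum _ fun a _ => hf0 i a

/-- summability of a Gaussian over a shifted lattice -/
theorem summable_gauss (a : Fin g → ℤ) {c : ℝ} (hc : 0 < c) :
    Summable fun n : Fin g → ℤ => Real.exp (-c * ∑ i, (((2 * n + a) i : ℤ) : ℝ) ^ 2) := by
  have h1 : ∀ i : Fin g, Summable fun m : ℤ => Real.exp (-c * (((2 * m + a i : ℤ) : ℝ)) ^ 2) := by
    intro i
    have h0 : Summable fun m : ℤ => Real.exp (-(c * |(m : ℝ)|)) := by
      have : Summable fun n : ℕ => Real.exp (-(c * (n : ℝ))) := by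
        have h := Real.summable_exp_nat_mul_iff.2 (neg_lt_zero.2 hc)
        refine h.congr fun n => ?_
        congr 1; ring
      refine Summable.of_nat_of_neg ?_ ?_
      · simpa using this
      · simpa using this
    have hinj : Function.Injective fun m : ℤ => 2 * m + a i := by
      intro p q h
      simp only at h
      omega
    have h2 := h0.comp_injective hinj
    refine Summable.of_nonneg_of_le (fun _ => (Real.exp_pos _).le) (fun m => ?_) h2
    simp only [Function.comp]
    apply Real.exp_le_exp.2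
    have h3 : |((2 * m + a i : ℤ) : ℝ)| ≤ ((2 * m + a i : ℤ) : ℝ) ^ 2 := by
      rw [← sq_abs]
      rcases eq_or_ne (2 * m + a i) 0 with h | h
      · rw [h]; simp
      · have : (1 : ℝ) ≤ |((2 * m + a i : ℤ) : ℝ)| := by
          rw [← Int.cast_abs]
          exact_mod_cast Int.one_le_abs h
        nlinarith
    nlinarith
  have h2 : (fun n : Fin g → ℤ => Real.exp (-c * ∑ i, (((2 * n + a) i : ℤ) : ℝ) ^ 2)) =
      fun n => ∏ i, Real.exp (-c * (((2 * n i + a i : ℤ) : ℝ)) ^ 2) := by
    ext n
    rw [← Real.exp_sum, Finset.mul_sum]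
    rfl
  rw [h2]
  exact summable_pi_prod (fun i m => Real.exp (-c * (((2 * m + a i : ℤ) : ℝ)) ^ 2))
    (fun i m => (Real.exp_pos _).le) h1

end Run7.h318
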