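import Pool.Agent.Run7.h318.Siegel
import Pool.Agent.Run7.h318.Gen

/-!
# Transformation laws of theta constants: translations and base changes
-/

set_option autoImplicit false
set_option linter.unusedSectionVars false
set_option linter.unusedSimpArgs false

open Complex Filter Topology Run7.h433.Slope

namespace Run7.h318

variable {g : ℕ}

theorem quad_zmod2 {S : Matrix (Fin g) (Fin g) (ZMod 2)} (hS : S.transpose = S) (q : Fin g → ZMod 2) :
    ∑ i, ∑ j, q i * S i j * q j = ∑ i, S i i * q i := by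
  classical
  have h0 : ∑ p : Fin g × Fin g, (if p.1 = p.2 then 0 else q p.1 * S p.1 p.2 * q p.2) = 0 := by
    refine Finset.sum_involution (fun p _ => p.swap) ?_ ?_ ?_ ?_
    · rintro ⟨i, j⟩ _
      simp only [Prod.fst_swap, Prod.snd_swap]
      have hij : S j i = S i j := congrFun (congrFun hS i) j
      by_cases h : i = j
      · subst h; simp
      · rw [if_neg h, if_neg (Ne.symm h), hij]
        have : ∀ x y z : ZMod 2, x * y * z + z * y * x = 0 := by decide
        exact this _ _ _
    · rintro ⟨i, j⟩ _ h h'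
      simp only [Prod.swap_prod_mk, Prod.mk.injEq] at h'
      exact h (by simp [h'.1])
    · intro p _; exact Finset.mem_univ _
    · intro p _; exact Prod.swap_swap p
  have h1 : ∑ i, ∑ j, q i * S i j * q j = ∑ p : Fin g × Fin g, q p.1 * S p.1 p.2 * q p.2 := by
    rw [Fintype.sum_prod_type]
  have h2 : ∀ p : Fin g × Fin g, q p.1 * S p.1 p.2 * q p.2 =
      (if p.1 = p.2 then 0 else q p.1 * S p.1 p.2 * q p.2) +
        (if p.1 = p.2 then q p.1 * S p.1 p.2 * q p.2 else 0) := by
    intro p; split_ifs <;> simp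
  rw [h1, Finset.sum_congr rfl fun p _ => h2 p, Finset.sum_add_distrib, h0, zero_add,
    Fintype.sum_prod_type]
  refine Finset.sum_congr rfl fun i _ => ?_
  rw [Finset.sum_eq_single i]
  · simp only [if_true]
    have : ∀ x y : ZMod 2, x * y * x = y * x := by decide
    exact this _ _
  · intro j _ hj; rw [if_neg (Ne.symm hj)]
  · simp

theorem quad_int {S : Matrix (Fin g) (Fin g) ℤ} (hS : S.transpose = S) (n : Fin g → ℤ) :
    ∃ r : ℤ, ∑ i, ∑ j, n i * S i j * n j - ∑ i, S i i * n i = 2 * r := by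
  have h := quad_zmod2 (S := S.map (Int.cast : ℤ → ZMod 2)) (by
    rw [← Matrix.transpose_map, hS]) (red n)
  have h1 : ((∑ i, ∑ j, n i * S i j * n j - ∑ i, S i i * n i : ℤ) : ZMod 2) = 0 := by
    push_cast
    rw [sub_eq_zero]
    exact h
  have := (intCast_zmod2 _).1 h1
  exact ⟨_, (by omega : _ = 2 * ((∑ i, ∑ j, n i * S i j * n j - ∑ i, S i i * n i) / 2))⟩

/-! ### Change of the characteristic -/

theorem th_shift_left (a b k : Fin g → ℤ) (Z : Matrix (Fin g) (Fin g) ℂ) :
    th (a + 2 * k) b Z = th a b Z := by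
  unfold th
  rw [← (Equiv.addRight k).tsum_eq (fun n => tterm a b Z n)]
  refine tsum_congr fun n => ?_
  unfold tterm
  have : (2 * n + (a + 2 * k)) = 2 * (Equiv.addRight k n) + a := by
    rw [Equiv.coe_addRight]; ring
  rw [this]

theorem th_shift_right (a b k : Fin g → ℤ) (Z : Matrix (Fin g) (Fin g) ℂ) :
    th a (b + 2 * k) Z ^ 8 = th a b Z ^ 8 := by
  have h : th a (b + 2 * k) Z = cexp (Real.pi * I * ((∑ i, a i * k i : ℤ) : ℂ)) * th a b Z := by
    unfold th
    rw [← tsum_mul_left]
    refine tsum_congr fun n => ?_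
    unfold tterm
    rw [← Complex.exp_add]
    have e1 : Real.pi * I / 4 * qf Z (2 * n + a) +
        Real.pi * I / 2 * ∑ i, ((2 * n + a) i : ℂ) * ((b + 2 * k) i : ℂ) =
        (Real.pi * I * ((∑ i, a i * k i : ℤ) : ℂ) + (Real.pi * I / 4 * qf Z (2 * n + a) +
          Real.pi * I / 2 * ∑ i, ((2 * n + a) i : ℂ) * (b i : ℂ))) +
          ((∑ i, n i * k i : ℤ) : ℂ) * (2 * Real.pi * I) := by
      have : ∑ i, ((2 * n + a) i : ℂ) * ((b + 2 * k) i : ℂ) =
          ∑ i, ((2 * n + a) i : ℂ) * (b i : ℂ) + 4 * ((∑ i, n i * k i : ℤ) : ℂ) +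
            2 * ((∑ i, a i * k i : ℤ) : ℂ) := by
        push_cast
        rw [Finset.mul_sum, Finset.mul_sum, ← Finset.sum_add_distrib, ← Finset.sum_add_distrib]
        refine Finset.sum_congr rfl fun i _ => ?_
        simp only [Pi.add_apply, Pi.mul_apply, Pi.ofNat_apply]
        push_cast; ring
      rw [this]; ring
    rw [e1, Complex.exp_add _ (_ * (2 * Real.pi * I)), Complex.exp_int_mul_two_pi_mul_I, mul_one]
  rw [h, mul_pow, ← Complex.exp_nat_mul]
  have : ((8 : ℕ) : ℂ) * (Real.pi * I * ((∑ i, a i * k i : ℤ) : ℂ)) =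
      ((4 * ∑ i, a i * k i : ℤ) : ℂ) * (2 * Real.pi * I) := by push_cast; ring
  rw [this, Complex.exp_int_mul_two_pi_mul_I, one_mul]

theorem exists_of_red {a a' : Fin g → ℤ} (h : red a = red a') : ∃ k, a = a' + 2 * k := by
  refine ⟨fun i => (a i - a' i) / 2, ?_⟩
  funext i
  have h1 := congrFun h i
  simp only [red] at h1
  have h2 : ((a i - a' i : ℤ) : ZMod 2) = 0 := by push_cast; rw [h1, sub_self]
  have h3 := (intCast_zmod2 _).1 h2
  simp only [Pi.add_apply, Pi.mul_apply, Pi.ofNat_apply]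
  omega

/-- eighth powers of theta constants with half integral characteristics -/
noncomputable def T8 (x : Chr g) (Z : Matrix (Fin g) (Fin g) ℂ) : ℂ :=
  th (lift x.1) (lift x.2) Z ^ 8

theorem th_pow (a b : Fin g → ℤ) (Z : Matrix (Fin g) (Fin g) ℂ) :
    th a b Z ^ 8 = T8 (red a, red b) Z := by
  obtain ⟨k, hk⟩ := exists_of_red (a := a) (a' := lift (red a)) (by rw [red_lift])
  obtain ⟨l, hl⟩ := exists_of_red (a := b) (a' := lift (red b)) (by rw [red_lift])
  unfold T8
  simp only
  conv_lhs => rw [hk, hl]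
  rw [th_shift_left, th_shift_right]

theorem fth_eq (c : Chr g → ℕ) (Z : Matrix (Fin g) (Fin g) ℂ) : fth c Z = ∏ x, T8 x Z ^ c x := by
  unfold fth T8
  simp only [← pow_mul]

/-! ### Translations -/

/-- the diagonal modulo two -/
def diag2 (S : Matrix (Fin g) (Fin g) ℤ) : Fin g → ℤ := fun i => S i i

theorem th_t {S : Matrix (Fin g) (Fin g) ℤ} (hS : S.transpose = S) (a b : Fin g → ℤ)
    (Z : Matrix (Fin g) (Fin g) ℂ) :
    th a b (Z + Run7.h433.ic S) ^ 8 = th a (b + (S.mulVec a + diag2 S)) Z ^ 8 := by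
  set A : Matrix (Fin g) (Fin g) ℂ := Run7.h433.ic S with hA
  have hAs : A.transpose = A := by rw [hA, ← Run7.h433.ic_T, hS]
  have hbil : ∀ x y : Fin g → ℤ, bil A x y = ((∑ i, ∑ j, x i * S i j * y j : ℤ) : ℂ) := by
    intro x y
    unfold bil
    push_cast
    rfl
  set dS : (Fin g → ℤ) → ℂ := fun x => ∑ i, (x i : ℂ) * (S i i : ℂ) with hdS
  have hdadd : ∀ x y, dS (x + y) = dS x + dS y := by
    intro x y
    simp only [hdS]
    rw [← Finset.sum_add_distrib]
    refine Finset.sum_congr rfl fun i _ => ?_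
    simp only [Pi.add_apply]; push_cast; ring
  have hqadd : ∀ x, qf (Z + A) x = qf Z x + bil A x x := by
    intro x
    unfold qf bil
    rw [← Finset.sum_add_distrib]
    refine Finset.sum_congr rfl fun i _ => ?_
    rw [← Finset.sum_add_distrib]
    refine Finset.sum_congr rfl fun j _ => ?_
    rw [Matrix.add_apply]; ring
  have hsum : ∀ x : Fin g → ℤ, ∑ i, (x i : ℂ) * ((b + (S.mulVec a + diag2 S)) i : ℂ) =
      (∑ i, (x i : ℂ) * (b i : ℂ)) + bil A x a + dS x := by
    intro x
    unfold bil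
    simp only [hdS]
    rw [← Finset.sum_add_distrib, ← Finset.sum_add_distrib]
    refine Finset.sum_congr rfl fun i _ => ?_
    simp only [Pi.add_apply, diag2, Matrix.mulVec, dotProduct]
    have : ∑ j, (x i : ℂ) * A i j * (a j : ℂ) = (x i : ℂ) * ∑ j, (S i j : ℂ) * (a j : ℂ) := by
      rw [Finset.mul_sum]
      refine Finset.sum_congr rfl fun j _ => ?_
      rw [hA]
      simp only [Run7.h433.ic, Matrix.map_apply]
      ring
    rw [this]
    push_cast
    ring
  have h : th a b (Z + A) = cexp (Real.pi * I / 4 * bil A a a -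
      Real.pi * I / 2 * (bil A a a + dS a)) * th a (b + (S.mulVec a + diag2 S)) Z := by
    unfold th
    rw [← tsum_mul_left]
    refine tsum_congr fun n => ?_
    unfold tterm
    rw [← Complex.exp_add, hqadd, hsum]
    obtain ⟨r, hr⟩ := quad_int hS n
    have hr' : bil A n n - dS n = 2 * r := by
      rw [hbil]
      simp only [hdS]
      have : (∑ i, (n i : ℂ) * (S i i : ℂ)) = ((∑ i, S i i * n i : ℤ) : ℂ) := by
        push_cast
        exact Finset.sum_congr rfl fun i _ => mul_comm _ _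
      rw [this, ← Int.cast_sub, hr]
      push_cast; ring
    have e1 : (2 * n + a) = n + n + a := by ring
    rw [e1]
    simp only [bil_add_left, bil_add_right, hdadd, bil_comm hAs a n]
    have e2 : Real.pi * I / 4 * (qf Z (n + n + a) +
          (bil A n n + bil A n n + (bil A n n + bil A n n) + (bil A n a + bil A n a) +
            (bil A n a + bil A n a + bil A a a))) +
        Real.pi * I / 2 * ∑ i, ((n + n + a) i : ℂ) * (b i : ℂ) =
        (Real.pi * I / 4 * bil A a a - Real.pi * I / 2 * (bil A a a + dS a) +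
          (Real.pi * I / 4 * qf Z (n + n + a) + Real.pi * I / 2 *
            ((∑ i, ((n + n + a) i : ℂ) * (b i : ℂ)) + (bil A n a + bil A n a + bil A a a) +
              (dS n + dS n + dS a)))) + (r : ℂ) * (2 * Real.pi * I) := by
      have : (r : ℂ) * (2 * Real.pi * I) = Real.pi * I * (bil A n n - dS n) := by rw [hr']; ring
      rw [this]; ring
    have e3 : Real.pi * I / 4 * (qf Z (n + n + a) +
          (bil A n n + bil A n n + bil A n a + (bil A n n + bil A n n + bil A n a) +
            (bil A n a + bil A n a + bil A a a))) +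
        Real.pi * I / 2 * ∑ i, ((n + n + a) i : ℂ) * (b i : ℂ) =
        (Real.pi * I / 4 * bil A a a - Real.pi * I / 2 * (bil A a a + dS a) +
          (Real.pi * I / 4 * qf Z (n + n + a) + Real.pi * I / 2 *
            ((∑ i, ((n + n + a) i : ℂ) * (b i : ℂ)) + (bil A n a + bil A n a + bil A a a) +
              (dS n + dS n + dS a)))) + (r : ℂ) * (2 * Real.pi * I) := by
      rw [← e2]; ring
    rw [e3, Complex.exp_add _ ((r : ℂ) * (2 * Real.pi * I)), Complex.exp_int_mul_two_pi_mul_I,
      mul_one]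
  rw [h, mul_pow, ← Complex.exp_nat_mul, hbil]
  have hd : dS a = ((∑ i, a i * S i i : ℤ) : ℂ) := by
    simp only [hdS]; push_cast; rfl
  rw [hd]
  have : ((8 : ℕ) : ℂ) * (Real.pi * I / 4 * ((∑ i, ∑ j, a i * S i j * a j : ℤ) : ℂ) -
      Real.pi * I / 2 * (((∑ i, ∑ j, a i * S i j * a j : ℤ) : ℂ) + ((∑ i, a i * S i i : ℤ) : ℂ))) =
      ((-(∑ i, ∑ j, a i * S i j * a j) - 2 * ∑ i, a i * S i i : ℤ) : ℂ) * (2 * Real.pi * I) := by
    push_cast; ring
  rw [this, Complex.exp_int_mul_two_pi_mul_I, one_mul]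

/-! ### Base changes -/

theorem qf_eq_dot (Z : Matrix (Fin g) (Fin g) ℂ) (x : Fin g → ℤ) :
    qf Z x = (fun i => (x i : ℂ)) ⬝ᵥ (Z.mulVec fun i => (x i : ℂ)) := by
  unfold qf
  simp only [dotProduct, Matrix.mulVec, Finset.mul_sum]
  refine Finset.sum_congr rfl fun i _ => Finset.sum_congr rfl fun j _ => ?_
  ring

theorem cast_mulVec (P : Matrix (Fin g) (Fin g) ℤ) (x : Fin g → ℤ) :
    (fun i => (((P.mulVec x) i : ℤ) : ℂ)) = (Run7.h433.ic P).mulVec fun i => (x i : ℂ) := by
  funext i
  simp only [Matrix.mulVec, dotProduct, Run7.h433.ic, Matrix.map_apply]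
  push_cast
  rfl

theorem th_u {P P' : Matrix (Fin g) (Fin g) ℤ} (h1 : P * P' = 1) (h2 : P' * P = 1)
    (a b : Fin g → ℤ) (Z : Matrix (Fin g) (Fin g) ℂ) :
    th a b (Run7.h433.ic P * Z * (Run7.h433.ic P).transpose) =
      th (P.transpose.mulVec a) (P'.mulVec b) Z := by
  have h1t : P'.transpose * P.transpose = 1 := by rw [← Matrix.transpose_mul, h1, Matrix.transpose_one]
  have h2t : P.transpose * P'.transpose = 1 := by rw [← Matrix.transpose_mul, h2, Matrix.transpose_one]
  let e : (Fin g → ℤ) ≃ (Fin g → ℤ) :=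
    { toFun := fun n => P.transpose.mulVec n
      invFun := fun n => P'.transpose.mulVec n
      left_inv := fun n => by simp only [Matrix.mulVec_mulVec, h1t, Matrix.one_mulVec]
      right_inv := fun n => by simp only [Matrix.mulVec_mulVec, h2t, Matrix.one_mulVec] }
  unfold th
  rw [← e.tsum_eq (fun n => tterm (P.transpose.mulVec a) (P'.mulVec b) Z n)]
  refine tsum_congr fun n => ?_
  unfold tterm
  have hx : 2 * (e n) + P.transpose.mulVec a = P.transpose.mulVec (2 * n + a) := by
    show 2 * (P.transpose.mulVec n) + P.transpose.mulVec a = P.transpose.mulVec (2 * n + a)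
    have : (2 * n : Fin g → ℤ) = n + n := by ring
    rw [this, Matrix.mulVec_add, Matrix.mulVec_add]
    ring
  rw [hx]
  congr 2
  · congr 1
    rw [qf_eq_dot, qf_eq_dot, cast_mulVec]
    have : Run7.h433.ic P.transpose = (Run7.h433.ic P).transpose := Run7.h433.ic_T P
    rw [this]
    set y : Fin g → ℂ := fun i => (((2 * n + a) i : ℤ) : ℂ) with hy
    rw [← Matrix.mulVec_mulVec, ← Matrix.mulVec_mulVec, Matrix.dotProduct_mulVec,
      ← Matrix.mulVec_transpose]
  · congr 1
    have h3 : ∀ x : Fin g → ℤ, (∑ i, (x i : ℂ) * (b i : ℂ)) =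
        ∑ i, ((P.transpose.mulVec x) i : ℂ) * ((P'.mulVec b) i : ℂ) := by
      intro x
      have h4 : (∑ i, x i * b i) = ∑ i, (P.transpose.mulVec x) i * (P'.mulVec b) i := by
        have h5 : x ⬝ᵥ b = (P.transpose.mulVec x) ⬝ᵥ (P'.mulVec b) := by
          rw [Matrix.mulVec_transpose, ← Matrix.dotProduct_mulVec, Matrix.mulVec_mulVec, h1,
            Matrix.one_mulVec]
        exact h5
      exact_mod_cast congrArg (fun z : ℤ => (z : ℂ)) h4
    exact h3 _

end Run7.h318
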