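import Pool.Agent.Run7.h318.Cusp2

/-!
# Weights on the two-torsion characteristics
-/

set_option autoImplicit false
set_option linter.unusedSectionVars false
set_option linter.unusedSimpArgs false

namespace Run7.h318

variable {g : ℕ}

/-- half integral characteristics -/
abbrev Chr (g : ℕ) : Type := (Fin g → ZMod 2) × (Fin g → ZMod 2)

/-- the function `v ↦ p·a + q·b + p·q` attached to the characteristic `x = (a, b)` at `v = (p, q)` -/
def qx (x v : Chr g) : ZMod 2 := dot v.1 x.1 + dot v.2 x.2 + dot v.1 v.2

/-- the order of vanishing at the boundary component `v` -/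
def ord (c : Chr g → ℕ) (v : Chr g) : ℕ := ∑ x, if qx x v = 1 then c x else 0

theorem card_dot {p : Fin g → ZMod 2} (hp : p ≠ 0) (t : ZMod 2) :
    2 * (Finset.univ.filter fun a : Fin g → ZMod 2 => dot p a = t).card =
      Fintype.card (Fin g → ZMod 2) := by
  classical
  obtain ⟨i, hi⟩ : ∃ i, p i ≠ 0 := by
    by_contra hc
    push Not at hc
    exact hp (funext hc)
  have hi1 : p i = 1 := (zmod2_cases (p i)).resolve_left hi
  set d : Fin g → ZMod 2 := Pi.single i 1 with hd
  have hd1 : dot p d = 1 := by
    unfold dot
    rw [Finset.sum_eq_single i]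
    · simp [hd, hi1]
    · intro j _ hj; simp [hd, hj]
    · simp
  have h1 : (Finset.univ.filter fun a : Fin g → ZMod 2 => dot p a = t).card =
      (Finset.univ.filter fun a : Fin g → ZMod 2 => ¬ dot p a = t).card := by
    refine Finset.card_bij (fun a _ => a + d) ?_ ?_ ?_
    · intro a ha
      simp only [Finset.mem_filter, Finset.mem_univ, true_and] at ha ⊢
      rw [dot_add_right, hd1, ha]
      have : ∀ x : ZMod 2, ¬ x + 1 = x := by decide
      exact this t
    · intro a _ b _ hab
      exact add_right_cancel hab
    · intro b hb
      simp only [Finset.mem_filter, Finset.mem_univ, true_and] at hb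
      refine ⟨b + d, ?_, ?_⟩
      · simp only [Finset.mem_filter, Finset.mem_univ, true_and]
        rw [dot_add_right, hd1]
        have : ∀ x y : ZMod 2, ¬ x = y → x + 1 = y := by decide
        exact this _ _ hb
      · ext j
        simp only [Pi.add_apply]
        have : ∀ x y : ZMod 2, x + y + y = x := by decide
        exact this _ _
  have h2 := Finset.card_filter_add_card_filter_not (s := (Finset.univ : Finset (Fin g → ZMod 2)))
    (fun a => dot p a = t)
  rw [Finset.card_univ] at h2
  omega

theorem exists_weight (Bs : (Fin g → ZMod 2) → Finset (Fin g → ZMod 2))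
    (L : (Fin g → ZMod 2) → Set (Fin g → ZMod 2))
    (hne : ∀ a, (Bs a).Nonempty) (hL0 : ∀ q ∈ L 0, q = 0)
    (hL : ∀ q : Fin g → ZMod 2, q ≠ 0 → ∃ r : Fin g → ZMod 2, r ≠ 0 ∧ ∀ a, q ∈ L a → dot r a = 1)
    (heq : ∀ a q, q ∉ L a → ∀ t : ZMod 2, 2 * ((Bs a).filter fun b => dot q b = t).card = (Bs a).card) :
    ∃ m : ℕ, 1 ≤ m ∧ ∃ c : Chr g → ℕ, ∑ x, c x = 3 * m ∧ (∀ v : Chr g, v ≠ 0 → m ≤ ord c v) ∧
      (∀ p : Fin g → ZMod 2, p ≠ 0 → ord c (p, 0) = m) ∧ ∀ x, c x ≠ 0 → x.2 ∈ Bs x.1 := by
  classical
  set M : ℕ := Fintype.card (Fin g → ZMod 2) with hM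
  have hMpos : 1 ≤ M := Fintype.card_pos
  set K : ℕ := ∏ a, (Bs a).card with hK
  have hcpos : ∀ a, 0 < (Bs a).card := fun a => Finset.card_pos.2 (hne a)
  have hKpos : 1 ≤ K := Finset.prod_pos fun a _ => hcpos a
  have hdvd : ∀ a, (Bs a).card ∣ K := fun a => Finset.dvd_prod_of_mem _ (Finset.mem_univ a)
  set w : (Fin g → ZMod 2) → ℕ := fun a => if a = 0 then M + 2 else 2 with hw
  set c : Chr g → ℕ := fun x => if x.2 ∈ Bs x.1 then w x.1 * (K / (Bs x.1).card) else 0 with hc
  have hKdiv : ∀ a, (Bs a).card * (K / (Bs a).card) = K := fun a => Nat.mul_div_cancel' (hdvd a)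
  -- sums over `b`
  have hsb : ∀ a, ∑ b, c (a, b) = w a * K := by
    intro a
    simp only [hc]
    rw [← Finset.sum_filter, Finset.sum_const, smul_eq_mul]
    have : (Finset.univ.filter fun b => b ∈ Bs a).card = (Bs a).card := by
      congr 1; ext b; simp
    rw [this]
    calc (Bs a).card * (w a * (K / (Bs a).card)) = w a * ((Bs a).card * (K / (Bs a).card)) := by ring
      _ = w a * K := by rw [hKdiv]
  have hsw : ∑ a, w a = 3 * M := by
    simp only [hw]
    rw [← Finset.add_sum_erase _ _ (Finset.mem_univ (0 : Fin g → ZMod 2)), if_pos rfl]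
    rw [Finset.sum_congr rfl (g := fun _ => 2) (fun a ha => if_neg (Finset.ne_of_mem_erase ha))]
    rw [Finset.sum_const, Finset.card_erase_of_mem (Finset.mem_univ _), Finset.card_univ, ← hM,
      smul_eq_mul]
    omega
  refine ⟨M * K, Nat.mul_pos hMpos hKpos, c, ?_, ?_, ?_, ?_⟩
  · rw [Fintype.sum_prod_type]
    simp only [hsb]
    rw [← Finset.sum_mul, hsw]
    ring
  · -- lower bounds
    rintro ⟨p, q⟩ hv
    by_cases hq : q = 0
    · -- equality
      subst hq
      have hp : p ≠ 0 := fun h => hv (by rw [h]; rfl)
      have h1 : ord c (p, 0) = ∑ a, if dot p a = 1 then w a * K else 0 := by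
        unfold ord
        rw [Fintype.sum_prod_type]
        refine Finset.sum_congr rfl fun a _ => ?_
        simp only [qx, dot_zero_left, dot_zero_right, add_zero]
        split_ifs
        · exact hsb a
        · exact Finset.sum_const_zero
      rw [h1]
      have h2 : ∀ a, (if dot p a = 1 then w a * K else 0) = if dot p a = 1 then 2 * K else 0 := by
        intro a
        split_ifs with h
        · have : a ≠ 0 := fun h0 => by
            rw [h0, dot_zero_right] at h
            exact absurd h (by decide)
          simp only [hw]
          rw [if_neg this]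
        · rfl
      simp only [h2]
      rw [← Finset.sum_filter, Finset.sum_const, smul_eq_mul]
      have := card_dot hp 1
      rw [← hM] at this
      nlinarith
    · have h1 : ord c (p, q) = ∑ a, ∑ b, if dot q b = dot p a + dot p q + 1 then c (a, b) else 0 := by
        unfold ord
        rw [Fintype.sum_prod_type]
        refine Finset.sum_congr rfl fun a _ => Finset.sum_congr rfl fun b _ => ?_
        have : qx ((a, b) : Chr g) (p, q) = 1 ↔ dot q b = dot p a + dot p q + 1 := by
          unfold qx
          simp only
          have : ∀ x y z : ZMod 2, x + y + z = 1 ↔ y = x + z + 1 := by decide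
          exact this _ _ _
        simp only [this]
      have h2 : ∀ a, q ∉ L a → 2 * ∑ b, (if dot q b = dot p a + dot p q + 1 then c (a, b) else 0) =
          w a * K := by
        intro a ha
        have h3 := heq a q ha (dot p a + dot p q + 1)
        have h4 : ∑ b, (if dot q b = dot p a + dot p q + 1 then c (a, b) else 0) =
            ((Bs a).filter fun b => dot q b = dot p a + dot p q + 1).card *
              (w a * (K / (Bs a).card)) := by
          have h5 : ((Bs a).filter fun b => dot q b = dot p a + dot p q + 1).card *
              (w a * (K / (Bs a).card)) = ∑ b ∈ (Bs a).filter (fun b => dot q b = dot p a + dot p q + 1),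
                (w a * (K / (Bs a).card)) := by
            rw [Finset.sum_const]; rfl
          rw [h5, Finset.sum_filter, ← Finset.sum_subset (Finset.subset_univ (Bs a))]
          · refine Finset.sum_congr rfl fun b hb => ?_
            simp only [hc]
            rw [if_pos hb]
          · intro b _ hb
            simp only [hc]
            rw [if_neg hb]; simp
        rw [h4]
        calc 2 * (((Bs a).filter fun b => dot q b = dot p a + dot p q + 1).card *
              (w a * (K / (Bs a).card)))
            = w a * ((2 * ((Bs a).filter fun b => dot q b = dot p a + dot p q + 1).card) *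
              (K / (Bs a).card)) := by ring
          _ = w a * K := by rw [h3, hKdiv]
      obtain ⟨r, hr0, hr⟩ := hL q hq
      have h5 : q ∉ L 0 := fun h => hq (hL0 q h)
      -- compare with the sum over `a` with `r · a = 0`
      have h6 : ∀ a, (if dot r a = 0 then w a * K else 0) ≤
          2 * ∑ b, (if dot q b = dot p a + dot p q + 1 then c (a, b) else 0) := by
        intro a
        split_ifs with h
        · rw [h2 a (fun h' => by
            have := hr a h'
            rw [h] at this
            exact absurd this (by decide))]
        · exact Nat.zero_le _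
      have h7 : ∑ a, (if dot r a = 0 then w a * K else 0) ≤ 2 * ord c (p, q) := by
        rw [h1, Finset.mul_sum]
        exact Finset.sum_le_sum fun a _ => h6 a
      have h8 : ∑ a, (if dot r a = 0 then w a * K else 0) = 2 * (M * K) := by
        rw [← Finset.sum_filter, ← Finset.sum_mul]
        have h9 : ∑ a with dot r a = 0, w a = 2 * M := by
          rw [← Finset.add_sum_erase _ _ (show (0 : Fin g → ZMod 2) ∈ Finset.univ.filter
            (fun a => dot r a = 0) by simp [dot_zero_right])]
          simp only [hw, if_true]
          rw [Finset.sum_congr rfl (g := fun _ => 2) (fun a ha => if_neg (Finset.ne_of_mem_erase ha))]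
          rw [Finset.sum_const, Finset.card_erase_of_mem (by simp [dot_zero_right]), smul_eq_mul]
          have h10 := card_dot hr0 0
          rw [← hM] at h10
          have h11 : 1 ≤ (Finset.univ.filter fun a : Fin g → ZMod 2 => dot r a = 0).card :=
            Finset.card_pos.2 ⟨0, by simp [dot_zero_right]⟩
          omega
        rw [h9]; ring
      omega
  · intro p hp
    have h1 : ord c (p, 0) = ∑ a, if dot p a = 1 then w a * K else 0 := by
      unfold ord
      rw [Fintype.sum_prod_type]
      refine Finset.sum_congr rfl fun a _ => ?_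
      simp only [qx, dot_zero_left, dot_zero_right, add_zero]
      split_ifs
      · exact hsb a
      · exact Finset.sum_const_zero
    rw [h1]
    have h2 : ∀ a, (if dot p a = 1 then w a * K else 0) = if dot p a = 1 then 2 * K else 0 := by
      intro a
      split_ifs with h
      · have : a ≠ 0 := fun h0 => by
          rw [h0, dot_zero_right] at h
          exact absurd h (by decide)
        simp only [hw]
        rw [if_neg this]
      · rfl
    simp only [h2]
    rw [← Finset.sum_filter, Finset.sum_const, smul_eq_mul]
    have := card_dot hp 1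
    rw [← hM] at this
    nlinarith
  · intro x hx
    by_contra h
    exact hx (by simp only [hc]; rw [if_neg h])

end Run7.h318
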